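import Pool.Agent.NH86.HD.Base

/-!
# Intersections of closed unbounded sets
-/

set_option autoImplicit false

open Ordinal Cardinal Set

universe u

namespace Pool.Agent.NH86.HD

theorem t_CI : S_CI.{u} := by
  classical
  intro l hl hl0 J C hJ hC
  have hlim : Order.IsSuccLimit l.ord := Cardinal.isSuccLimit_ord hl.aleph0_le
  refine ⟨fun a ha => ha.1, fun b hb => ?_, fun d hd hd0 hdc => ⟨hd, fun j => ?_⟩⟩
  · have hex : ∀ (j : J) (x : Ordinal.{u}), ∃ c : Ordinal.{u}, x < l.ord → c ∈ C j ∧ x < c := by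
      intro j x
      by_cases hx : x < l.ord
      · obtain ⟨c, hc, hxc⟩ := (hC j).2.1 x hx
        exact ⟨c, fun _ => ⟨hc, hxc⟩⟩
      · exact ⟨0, fun h => absurd h hx⟩
    choose c hc using hex
    obtain ⟨g, hg⟩ : ∃ g : Ordinal.{u} → Ordinal.{u}, g = fun x =>
        max (Order.succ x) (⨆ j : J, Order.succ (c j x)) := ⟨_, rfl⟩
    have hgl : ∀ x < l.ord, g x < l.ord := by
      intro x hx
      rw [hg]
      refine max_lt (hlim.succ_lt hx) ?_
      exact iSup_lt_ord_of_isRegular hl hJ fun j => hlim.succ_lt ((hC j).1 _ (hc j x hx).1)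
    have hgx : ∀ x, x < g x := by
      intro x
      rw [hg]
      exact lt_of_lt_of_le (Order.lt_succ x) (le_max_left _ _)
    have hgc : ∀ x j, c j x < g x := by
      intro x j
      rw [hg]
      exact lt_of_lt_of_le (Order.lt_succ _)
        ((Ordinal.le_iSup (fun j : J => Order.succ (c j x)) j).trans (le_max_right _ _))
    obtain ⟨h, h0, hs⟩ : ∃ h : ℕ → Ordinal.{u}, h 0 = b ∧ ∀ n, h (n + 1) = g (h n) :=
      ⟨fun n => g^[n] b, rfl, fun n => Function.iterate_succ_apply' g n b⟩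
    have hhl : ∀ n, h n < l.ord := by
      intro n
      induction n with
      | zero => rw [h0]; exact hb
      | succ n ih => rw [hs]; exact hgl _ ih
    have hdl : (⨆ n : ℕ, h n) < l.ord := by
      have h1 : Cardinal.lift.{u, 0} #ℕ < l := by
        rw [Cardinal.mk_nat, Cardinal.lift_aleph0]
        exact hl0
      exact iSup_lt_ord_lift_of_isRegular hl h1 hhl
    have hlt : ∀ n, h n < ⨆ n : ℕ, h n := by
      intro n
      refine lt_of_lt_of_le ?_ (Ordinal.le_iSup h (n + 1))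
      rw [hs]
      exact hgx _
    refine ⟨⨆ n : ℕ, h n, ⟨hdl, fun j => ?_⟩, ?_⟩
    · refine (hC j).2.2 _ hdl ?_ fun x hx => ?_
      · exact (lt_of_le_of_lt (bot_le (α := Ordinal.{u})) (hlt 0)).ne'
      · obtain ⟨n, hn⟩ := Ordinal.lt_iSup_iff.1 hx
        have h1 := hc j (h n) (hhl n)
        refine ⟨c j (h n), h1.1, hn.trans h1.2, ?_⟩
        refine lt_of_lt_of_le (hgc (h n) j) ?_
        rw [← hs]
        exact Ordinal.le_iSup h (n + 1)
    · have h1 := hlt 0
      rwa [h0] at h1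
  · refine (hC j).2.2 d hd hd0 fun b hb => ?_
    obtain ⟨c, hc, hbc⟩ := hdc b hb
    exact ⟨c, hc.2 j, hbc⟩

end Pool.Agent.NH86.HD
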