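import Pool.Agent.NH86.HD.Base

/-! # Project HD, job HD-4: comparison of cardinalities is definable -/

set_option autoImplicit false

open Ordinal Cardinal Set

universe u

namespace Pool.Agent.NH86.HD

namespace DCAaux

theorem card_le_iff (x y : ZFSet.{u}) : x.card ≤ y.card ↔
    ∃ g : ZFSet.{u}, (∀ a, a ∈ x → ∃ b, b ∈ y ∧ ZFSet.pair a b ∈ g) ∧
      ∀ a, ∀ a', ∀ b, ZFSet.pair a b ∈ g → ZFSet.pair a' b ∈ g → a = a' := by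
  rw [← Cardinal.lift_le.{u + 1}, ← ZFSet.cardinalMk_coe_sort, ← ZFSet.cardinalMk_coe_sort,
    Cardinal.le_def]
  constructor
  · rintro ⟨F⟩
    refine ⟨ZFSet.range (fun a : x => ZFSet.pair a.1 (F a).1), fun a ha => ?_, fun a a' b h h' => ?_⟩
    · exact ⟨(F ⟨a, ha⟩).1, (F ⟨a, ha⟩).2, ZFSet.mem_range.2 ⟨⟨a, ha⟩, rfl⟩⟩
    · obtain ⟨c, hc⟩ := ZFSet.mem_range.1 h
      obtain ⟨c', hc'⟩ := ZFSet.mem_range.1 h'
      obtain ⟨h1, h2⟩ := ZFSet.pair_injective hc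
      obtain ⟨h3, h4⟩ := ZFSet.pair_injective hc'
      have h5 : F c = F c' := Subtype.ext (h2.trans h4.symm)
      rw [← h1, ← h3, F.injective h5]
  · rintro ⟨g, h1, h2⟩
    choose! f hf using h1
    refine ⟨⟨fun a => ⟨f a.1, (hf a.1 a.2).1⟩, fun a a' h => ?_⟩⟩
    have h3 : f a.1 = f a'.1 := congrArg Subtype.val h
    refine Subtype.ext (h2 a.1 a'.1 (f a.1) (hf a.1 a.2).2 ?_)
    rw [h3]
    exact (hf a'.1 a'.2).2

end DCAaux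

theorem t_DCA : S_DCA.{u} := by
  have h : Df.{u} fun s => ∃ g : ZFSet.{u}, (∀ a, a ∈ s 0 → ∃ b, b ∈ s 1 ∧ ZFSet.pair a b ∈ g) ∧
      ∀ a, ∀ a', ∀ b, ZFSet.pair a b ∈ g → ZFSet.pair a' b ∈ g → a = a' := by
    refine Df.ex (R := fun g s => (∀ a, a ∈ s 0 → ∃ b, b ∈ s 1 ∧ ZFSet.pair a b ∈ g) ∧
      ∀ a, ∀ a', ∀ b, ZFSet.pair a b ∈ g → ZFSet.pair a' b ∈ g → a = a') (Df.and ?_ ?_)
    · exact Df.all (R := fun a s => a ∈ s 1 → ∃ b, b ∈ s 2 ∧ ZFSet.pair a b ∈ s 0)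
        ((Df.mem 0 2).imp (Df.ex (R := fun b s => b ∈ s 3 ∧ ZFSet.pair (s 0) b ∈ s 1)
          ((Df.mem 0 4).and (Df.pairMem 1 0 2))))
    · exact Df.all (R := fun a s => ∀ a', ∀ b, ZFSet.pair a b ∈ s 0 → ZFSet.pair a' b ∈ s 0 → a = a')
        (Df.all (R := fun a' s => ∀ b, ZFSet.pair (s 0) b ∈ s 1 → ZFSet.pair a' b ∈ s 1 → s 0 = a')
          (Df.all (R := fun b s => ZFSet.pair (s 1) b ∈ s 2 → ZFSet.pair (s 0) b ∈ s 2 → s 1 = s 0)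
            ((Df.pairMem 2 0 3).imp ((Df.pairMem 1 0 3).imp (Df.eq 2 1)))))
  exact h.congr fun s => (DCAaux.card_le_iff (s 0) (s 1)).symm

end Pool.Agent.NH86.HD
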