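import Pool.Agent.NH86.HD.Base

/-! # Project HD, job HD-5 (helper42): a sequence of sets of ordinals given by a definable relation
with ordinal parameters belongs to HOD -/

set_option autoImplicit false

open Ordinal Cardinal Set

universe u

namespace Pool.Agent.NH86.HD

namespace HPJob

/-- `y` is the set of the `x ∈ l` with `P (i, x, t)` -/
def ZR (P : (ℕ → ZFSet.{u}) → Prop) (y i l : ZFSet.{u}) (t : ℕ → ZFSet.{u}) : Prop :=
  ∀ x, x ∈ y ↔ x ∈ l ∧ P (cns i (cns x t))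

theorem df_ZR {P : (ℕ → ZFSet.{u}) → Prop} (hP : Df P) (a b c d : ℕ) :
    Df fun s => ZR P (s a) (s b) (s c) (fun n => s (n + d)) := by
  have hf := hP.ren (fun n => if n = 0 then b + 1 else if n = 1 then 0 else n - 2 + (d + 1))
  have h1 : Df fun s => P (cns (s (b + 1)) (cns (s 0) fun n => s (n + (d + 1)))) := by
    refine hf.congr fun s => ?_
    have : (fun n => s (if n = 0 then b + 1 else if n = 1 then 0 else n - 2 + (d + 1))) =
        cns (s (b + 1)) (cns (s 0) fun n => s (n + (d + 1))) := by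
      funext n
      rcases n with _ | _ | n
      · rfl
      · rfl
      · simp
    rw [this]
  have h2 := Df.all (R := fun x s => x ∈ s a ↔ x ∈ s c ∧ P (cns (s b) (cns x fun n => s (n + d))))
    ((Df.mem 0 (a + 1)).iff ((Df.mem 0 (c + 1)).and h1))
  exact h2

section

variable {L k : Ordinal.{u}} {S : Ordinal.{u} → Set Ordinal.{u}}
  {P : (ℕ → ZFSet.{u}) → Prop} {p : ℕ → Ordinal.{u}}

theorem mem_Z (h : ∀ i < k, ∀ a < L, a ∈ S i ↔ P (oz (cns i (cns a p)))) {i : Ordinal.{u}}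
    (hi : i < k) (x : ZFSet.{u}) :
    x ∈ toZ L (S i) ↔ x ∈ L.toZFSet ∧ P (cns i.toZFSet (cns x (oz p))) := by
  rw [mem_toZ, mem_toZFSet_iff]
  constructor
  · rintro ⟨a, ha, hS, rfl⟩
    refine ⟨⟨a, ha, rfl⟩, ?_⟩
    have := (h i hi a ha).1 hS
    rwa [oz_cns, oz_cns] at this
  · rintro ⟨⟨a, ha, rfl⟩, hx⟩
    refine ⟨a, ha, (h i hi a ha).2 ?_, rfl⟩
    rwa [oz_cns, oz_cns]

theorem ZR_iff (h : ∀ i < k, ∀ a < L, a ∈ S i ↔ P (oz (cns i (cns a p)))) {i : Ordinal.{u}}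
    (hi : i < k) (y : ZFSet.{u}) :
    ZR P y i.toZFSet L.toZFSet (oz p) ↔ y = toZ L (S i) := by
  constructor
  · intro hy
    refine ZFSet.ext fun x => ?_
    rw [hy x, mem_Z h hi x]
  · rintro rfl x
    exact mem_Z h hi x

theorem hod_ord (a : Ordinal.{u}) : HOD a.toZFSet := by
  induction a using WellFoundedLT.induction with
  | ind a ih =>
    refine HOD.mk _ (OD.ord a) fun y hy => ?_
    obtain ⟨b, hb, rfl⟩ := mem_toZFSet_iff.1 hy
    exact ih b hb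

theorem od_Z (hP : Df P) (h : ∀ i < k, ∀ a < L, a ∈ S i ↔ P (oz (cns i (cns a p))))
    {i : Ordinal.{u}} (hi : i < k) : OD (toZ L (S i)) := by
  refine OD.of_df (df_ZR hP 0 1 2 3) (cns i (cns L p)) fun y => ?_
  rw [oz_cns, oz_cns]
  exact ZR_iff h hi y

theorem hod_Z (hP : Df P) (h : ∀ i < k, ∀ a < L, a ∈ S i ↔ P (oz (cns i (cns a p))))
    {i : Ordinal.{u}} (hi : i < k) : HOD (toZ L (S i)) := by
  refine HOD.mk _ (od_Z hP h hi) fun y hy => ?_
  obtain ⟨a, _, _, rfl⟩ := mem_toZ.1 hy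
  exact hod_ord a

theorem hod_single (i : Ordinal.{u}) : HOD ({i.toZFSet} : ZFSet.{u}) := by
  refine HOD.mk _ ?_ fun y hy => ?_
  · refine OD.of_df (Df.upair 0 1 1) (fun _ => i) fun y => ?_
    change y = ({i.toZFSet, i.toZFSet} : ZFSet.{u}) ↔ y = ({i.toZFSet} : ZFSet.{u})
    have : ({i.toZFSet, i.toZFSet} : ZFSet.{u}) = ({i.toZFSet} : ZFSet.{u}) := by
      refine ZFSet.ext fun x => ?_
      simp
    rw [this]
  · rw [ZFSet.mem_singleton] at hy
    rw [hy]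
    exact hod_ord i

theorem hod_upair (hP : Df P) (h : ∀ i < k, ∀ a < L, a ∈ S i ↔ P (oz (cns i (cns a p))))
    {i : Ordinal.{u}} (hi : i < k) : HOD ({i.toZFSet, toZ L (S i)} : ZFSet.{u}) := by
  refine HOD.mk _ ?_ fun y hy => ?_
  · have hd := Df.ex (R := fun z s => ZR P z (s 1) (s 2) (fun n => s (n + 3)) ∧ s 0 = {s 1, z})
      ((df_ZR hP 0 2 3 4).and (Df.upair 1 2 0))
    refine OD.of_df hd (cns i (cns L p)) fun y => ?_
    rw [oz_cns, oz_cns]
    constructor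
    · rintro ⟨z, hz, hy⟩
      have hz' := (ZR_iff h hi z).1 hz
      rw [← hz']
      exact hy
    · intro hy
      exact ⟨toZ L (S i), (ZR_iff h hi _).2 rfl, hy⟩
  · rw [ZFSet.mem_pair] at hy
    rcases hy with rfl | rfl
    · exact hod_ord i
    · exact hod_Z hP h hi

theorem hod_pair (hP : Df P) (h : ∀ i < k, ∀ a < L, a ∈ S i ↔ P (oz (cns i (cns a p))))
    {i : Ordinal.{u}} (hi : i < k) : HOD (ZFSet.pair i.toZFSet (toZ L (S i))) := by
  refine HOD.mk _ ?_ fun y hy => ?_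
  · have hd := Df.ex
      (R := fun z s => ZR P z (s 1) (s 2) (fun n => s (n + 3)) ∧ s 0 = ZFSet.pair (s 1) z)
      ((df_ZR hP 0 2 3 4).and (Df.pair 1 2 0))
    refine OD.of_df hd (cns i (cns L p)) fun y => ?_
    rw [oz_cns, oz_cns]
    constructor
    · rintro ⟨z, hz, hy⟩
      have hz' := (ZR_iff h hi z).1 hz
      rw [← hz']
      exact hy
    · intro hy
      exact ⟨toZ L (S i), (ZR_iff h hi _).2 rfl, hy⟩
  · unfold ZFSet.pair at hy
    rw [ZFSet.mem_pair] at hy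
    rcases hy with rfl | rfl
    · exact hod_single i
    · exact hod_upair hP h hi

theorem mem_sq (z : ZFSet.{u}) :
    z ∈ sq L k S ↔ ∃ i < k, z = ZFSet.pair i.toZFSet (toZ L (S i)) := by
  unfold sq
  rw [ZFSet.mem_range]
  constructor
  · rintro ⟨⟨i, hi⟩, rfl⟩
    exact ⟨i, hi, rfl⟩
  · rintro ⟨i, hi, rfl⟩
    exact ⟨⟨i, hi⟩, rfl⟩

theorem hod_sq (hP : Df P) (h : ∀ i < k, ∀ a < L, a ∈ S i ↔ P (oz (cns i (cns a p)))) :
    HOD (sq L k S) := by
  refine HOD.mk _ ?_ fun y hy => ?_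
  · have h3 : Df fun s => ∃ z, ZR P z (s 0) (s 4) (fun n => s (n + 5)) ∧ s 1 = ZFSet.pair (s 0) z :=
      Df.ex (R := fun z s => ZR P z (s 0) (s 4) (fun n => s (n + 5)) ∧ s 1 = ZFSet.pair (s 0) z)
        ((df_ZR hP 0 1 5 6).and (Df.pair 2 1 0))
    have h2 : Df fun s => ∃ i, i ∈ s 2 ∧
        ∃ z, ZR P z i (s 3) (fun n => s (n + 4)) ∧ s 0 = ZFSet.pair i z :=
      Df.ex (R := fun i s => i ∈ s 2 ∧
        ∃ z, ZR P z i (s 3) (fun n => s (n + 4)) ∧ s 0 = ZFSet.pair i z)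
        ((Df.mem 0 3).and h3)
    have h1 : Df fun s => ∀ w, w ∈ s 0 ↔ ∃ i, i ∈ s 1 ∧
        ∃ z, ZR P z i (s 2) (fun n => s (n + 3)) ∧ w = ZFSet.pair i z :=
      Df.all (R := fun w s => w ∈ s 0 ↔ ∃ i, i ∈ s 1 ∧
        ∃ z, ZR P z i (s 2) (fun n => s (n + 3)) ∧ w = ZFSet.pair i z)
        ((Df.mem 0 1).iff h2)
    have key : ∀ w : ZFSet.{u}, (∃ i, i ∈ k.toZFSet ∧
        ∃ z, ZR P z i L.toZFSet (oz p) ∧ w = ZFSet.pair i z) ↔ w ∈ sq L k S := by
      intro w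
      rw [mem_sq]
      constructor
      · rintro ⟨i, hi, z, hz, rfl⟩
        obtain ⟨j, hj, rfl⟩ := mem_toZFSet_iff.1 hi
        exact ⟨j, hj, by rw [(ZR_iff h hj z).1 hz]⟩
      · rintro ⟨i, hi, rfl⟩
        exact ⟨i.toZFSet, mem_toZFSet_iff.2 ⟨i, hi, rfl⟩, toZ L (S i), (ZR_iff h hi _).2 rfl, rfl⟩
    refine OD.of_df h1 (cns k (cns L p)) fun y => ?_
    rw [oz_cns, oz_cns]
    constructor
    · intro hy
      refine ZFSet.ext fun w => ?_
      exact (hy w).trans (key w)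
    · rintro rfl w
      exact (key w).symm
  · obtain ⟨i, hi, rfl⟩ := (mem_sq y).1 hy
    exact hod_pair hP h hi

end

end HPJob

/-- HD-5 -/
theorem t_HP : S_HP.{u} := fun _ _ _ _ _ hP h => HPJob.hod_sq hP h

end Pool.Agent.NH86.HD
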