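import Pool.Agent.NH86.HD.Base

/-!
# Project HD: enumeration of unbounded sets (HD-12)
-/

set_option autoImplicit false

open Ordinal Cardinal Set

universe u

namespace Pool.Agent.NH86.HD

theorem t_NTH : S_NTH.{u} := by
  intro l hl T hT
  set L : Ordinal.{u} := l.ord with hL
  set T' : Set Ordinal.{u} := (T ∩ Set.Iio L) ∪ Set.Ici L with hT'
  have hs : ¬ BddAbove T' := by
    rintro ⟨b, hb⟩
    have h1 : max L (Order.succ b) ∈ T' := Or.inr (Set.mem_Ici.2 (le_max_left _ _))
    have h2 := hb h1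
    exact absurd ((Order.lt_succ b).trans_le ((le_max_right _ _).trans h2)) (lt_irrefl _)
  set t := enumOrd T' with ht
  have hmono : StrictMono t := enumOrd_strictMono hs
  have hmem : ∀ i, t i ∈ T' := enumOrd_mem hs
  have hsurj : ∀ x ∈ T', ∃ j, t j = x := fun x hx => enumOrd_surjective hs hx
  have hA : ∀ i < L, t i < L := by
    intro i hi
    by_contra hc
    rw [not_lt] at hc
    classical
    set f : Ordinal.{u} → Ordinal.{u} := fun j => if t j < L then t j else 0 with hf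
    have hL0 : 0 < L := lt_of_le_of_lt zero_le hi
    have hb : sSup (f '' Set.Iio i) < L := by
      apply sSup_lt_of_lt_cof
      · refine lt_of_le_of_lt Cardinal.mk_image_le ?_
        rw [Cardinal.mk_Iio_ordinal, ← lift_cof, Cardinal.lift_lt, hL, hl.cof_ord]
        exact Cardinal.lt_ord.1 hi
      · rintro _ ⟨j, -, rfl⟩
        simp only [hf]
        split_ifs with h
        · exact h
        · exact hL0
    obtain ⟨x, hxT, hx1, hx2⟩ := hT _ hb
    obtain ⟨j, rfl⟩ := hsurj x (Or.inl ⟨hxT, hx2⟩)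
    have hji : j < i := hmono.lt_iff_lt.1 (hx2.trans_le hc)
    have h1 : f j ∈ f '' Set.Iio i := ⟨j, hji, rfl⟩
    have h2 : f j = t j := if_pos hx2
    rw [h2] at h1
    have h3 : t j ≤ sSup (f '' Set.Iio i) := le_csSup (bddAbove_of_small) h1
    exact absurd hx1 (not_lt.2 h3)
  have hB : ∀ i < L, t i ∈ T := by
    intro i hi
    rcases hmem i with h | h
    · exact h.1
    · exact absurd (hA i hi) (not_lt.2 h)
  have hC : ∀ i < L, OT (T ∩ Set.Iio (t i)) i := by
    intro i hi
    refine ⟨t, hmono.strictMonoOn _, ?_⟩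
    ext x
    constructor
    · rintro ⟨hx, hxi⟩
      obtain ⟨j, rfl⟩ := hsurj x (Or.inl ⟨hx, lt_trans hxi (hA i hi)⟩)
      exact ⟨j, hmono.lt_iff_lt.1 hxi, rfl⟩
    · rintro ⟨j, hj, rfl⟩
      exact ⟨hB j (lt_trans hj hi), hmono hj⟩
  refine ⟨t, fun i hi => ⟨hB i hi, hA i hi, hC i hi⟩, ?_⟩
  intro i hi x hx hxT hO
  obtain ⟨j, rfl⟩ := hsurj x (Or.inl ⟨hxT, hx⟩)
  have hj : j < L := lt_of_le_of_lt (hmono.le_apply) hx
  rw [hO.unique (hC j hj)]

end Pool.Agent.NH86.HD
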