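import Pool.Agent.NH86.HD.Base

/-! # Project HD, part PAR: sets definable from the elements of a small level -/

set_option autoImplicit false

open Ordinal Cardinal Set

universe u

namespace Pool.Agent.NH86.HD

namespace PAR

theorem card_le_of_inj {X Y : ZFSet.{u}} (g : ZFSet.{u} → ZFSet.{u}) (h1 : ∀ z ∈ X, g z ∈ Y)
    (h2 : ∀ z ∈ X, ∀ z' ∈ X, g z = g z' → z = z') : X.card ≤ Y.card := by
  rw [← Cardinal.lift_le.{u + 1}, ← ZFSet.cardinalMk_coe_sort, ← ZFSet.cardinalMk_coe_sort]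
  refine Cardinal.mk_le_of_injective (f := fun z : X => (⟨g z.1, h1 z.1 z.2⟩ : Y)) ?_
  intro z z' h
  exact Subtype.ext (h2 z.1 z.2 z'.1 z'.2 (congrArg Subtype.val h))

theorem defin (hV : S_VTH.{u}) (φ : Fm) : Df.{u} fun s =>
    ∃ W, ((s 2).IsOrdinal ∧ W = ZFSet.vonNeumann (s 2).rank) ∧
      ∀ z, (z ∈ s 0 ↔ (z ⊆ s 1 ∧ ∃ x', x' ∈ W ∧
        ∀ y, (Sat φ (cns y (cns x' (fun n => s (n + 3)))) ↔ y = z))) := by
  have A5 : Df.{u} fun s => Sat φ (cns (s 0) (cns (s 1) (fun n => s (n + 7)))) := by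
    have h : Df.{u} fun s => Sat φ s := ⟨φ, fun _ => Iff.rfl⟩
    refine (h.ren (cns 0 (cns 1 fun n => n + 7))).congr fun s => ?_
    have e : (fun n => s ((cns 0 (cns 1 fun n => n + 7) : ℕ → ℕ) n)) =
        cns (s 0) (cns (s 1) (fun n => s (n + 7))) := by
      funext n
      rcases n with _ | _ | n <;> rfl
    rw [e]
  have A4 : Df.{u} fun s => (Sat φ (cns (s 0) (cns (s 1) (fun n => s (n + 7)))) ↔ s 0 = s 2) :=
    A5.iff (Df.eq 0 2)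
  have A3 : Df.{u} fun s => ∀ y, (Sat φ (cns y (cns (s 0) (fun n => s (n + 6)))) ↔ y = s 1) :=
    Df.all (R := fun y s => (Sat φ (cns y (cns (s 0) (fun n => s (n + 6)))) ↔ y = s 1)) A4
  have A2 : Df.{u} fun s => ∃ x', x' ∈ s 1 ∧
      ∀ y, (Sat φ (cns y (cns x' (fun n => s (n + 5)))) ↔ y = s 0) :=
    Df.ex (R := fun x' s => x' ∈ s 1 ∧
      ∀ y, (Sat φ (cns y (cns x' (fun n => s (n + 5)))) ↔ y = s 0)) ((Df.mem 0 2).and A3)
  have A1 : Df.{u} fun s => ∀ z, (z ∈ s 1 ↔ (z ⊆ s 2 ∧ ∃ x', x' ∈ s 0 ∧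
      ∀ y, (Sat φ (cns y (cns x' (fun n => s (n + 4)))) ↔ y = z))) :=
    Df.all (R := fun z s => (z ∈ s 1 ↔ (z ⊆ s 2 ∧ ∃ x', x' ∈ s 0 ∧
      ∀ y, (Sat φ (cns y (cns x' (fun n => s (n + 4)))) ↔ y = z))))
      ((Df.mem 0 2).iff ((Df.subset 0 3).and (A2.ren (cns 0 (fun n => n + 1)))))
  exact Df.ex (R := fun W s => ((s 2).IsOrdinal ∧ W = ZFSet.vonNeumann (s 2).rank) ∧
      ∀ z, (z ∈ s 0 ↔ (z ⊆ s 1 ∧ ∃ x', x' ∈ W ∧
        ∀ y, (Sat φ (cns y (cns x' (fun n => s (n + 3)))) ↔ y = z))))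
    ((Df.sub2 (R := fun x y => x.IsOrdinal ∧ y = ZFSet.vonNeumann x.rank) hV 3 0).and A1)

end PAR

open PAR in
theorem t_PAR : S_PAR.{u} := by
  classical
  intro hV a hB t ht x hx D hD hDa hCf v hOT
  obtain ⟨φ, p, hφ⟩ := hD
  set X : ZFSet.{u} := ZFSet.sep (fun z => ∃ x' ∈ ZFSet.vonNeumann t,
    ∀ y, Sat φ (cns y (cns x' (oz p))) ↔ y = z) a.toZFSet.powerset with hX
  have hmem : ∀ z, z ∈ X ↔ (z ⊆ a.toZFSet ∧ ∃ x', x' ∈ ZFSet.vonNeumann t ∧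
      ∀ y, (Sat φ (cns y (cns x' (oz p))) ↔ y = z)) := by
    intro z
    rw [hX, ZFSet.mem_sep, ZFSet.mem_powerset]
  have hOD : OD X := by
    refine OD.of_df (defin hV φ) (cns a (cns t p)) fun Y => ?_
    rw [oz_cns, oz_cns]
    show (∃ W, (t.toZFSet.IsOrdinal ∧ W = ZFSet.vonNeumann t.toZFSet.rank) ∧
      ∀ z, (z ∈ Y ↔ (z ⊆ a.toZFSet ∧ ∃ x', x' ∈ W ∧
        ∀ y, (Sat φ (cns y (cns x' (oz p))) ↔ y = z)))) ↔ Y = X
    have hr : t.toZFSet.rank = t := rank_toZFSet t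
    rw [hr]
    constructor
    · rintro ⟨W, ⟨-, rfl⟩, h⟩
      apply ZFSet.ext
      intro z
      rw [h, hmem]
    · rintro rfl
      exact ⟨_, ⟨ZFSet.isOrdinal_toZFSet t, rfl⟩, hmem⟩
  have hcard : X.card ≤ (ZFSet.vonNeumann t).card := by
    have h : ∀ z, ∃ x', z ∈ X → x' ∈ ZFSet.vonNeumann t ∧
        ∀ y, (Sat φ (cns y (cns x' (oz p))) ↔ y = z) := by
      intro z
      by_cases hz : z ∈ X
      · obtain ⟨x', h1, h2⟩ := ((hmem z).1 hz).2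
        exact ⟨x', fun _ => ⟨h1, h2⟩⟩
      · exact ⟨∅, fun h => absurd h hz⟩
    choose g hg using h
    refine card_le_of_inj g (fun z hz => (hg z hz).1) fun z hz z' hz' he => ?_
    have h1 := ((hg z hz).2 z).2 rfl
    rw [he] at h1
    exact ((hg z' hz').2 z).1 h1
  exact hB X hOD (hcard.trans_lt ht) D ((hmem D).2 ⟨hDa, x, hx, hφ⟩) hDa hCf v hOT

end Pool.Agent.NH86.HD
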