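import Pool.Agent.NH86.HD.Base

/-! # Project HD (helper86), HD-15: from definable families to all ordinal definable families.
Written by helper30. -/

set_option autoImplicit false

open Ordinal Cardinal Set

universe u

namespace Pool.Agent.NH86.HD

namespace PG

/-- a coding of the formulas by natural numbers -/
def code : Fm → ℕ
  | .mem i j => 5 * Nat.pair i j
  | .eq i j => 5 * Nat.pair i j + 1
  | .neg φ => 5 * code φ + 2
  | .and φ ψ => 5 * Nat.pair (code φ) (code ψ) + 3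
  | .ex φ => 5 * code φ + 4

theorem code_inj : Function.Injective code := by
  intro φ
  induction φ with
  | mem i j =>
    intro ψ h
    cases ψ <;> simp only [code] at h <;> try omega
    have h1 := Nat.pair_eq_pair.1 (Nat.eq_of_mul_eq_mul_left (by norm_num) h)
    rw [h1.1, h1.2]
  | eq i j =>
    intro ψ h
    cases ψ <;> simp only [code] at h <;> try omega
    have h1 := Nat.pair_eq_pair.1 (Nat.eq_of_mul_eq_mul_left (by norm_num) (Nat.add_right_cancel h))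
    rw [h1.1, h1.2]
  | neg φ ih =>
    intro ψ h
    cases ψ <;> simp only [code] at h <;> try omega
    rw [ih (Nat.eq_of_mul_eq_mul_left (by norm_num) (Nat.add_right_cancel h))]
  | and φ φ' ih ih' =>
    intro ψ h
    cases ψ <;> simp only [code] at h <;> try omega
    have h1 := Nat.pair_eq_pair.1 (Nat.eq_of_mul_eq_mul_left (by norm_num) (Nat.add_right_cancel h))
    rw [ih h1.1, ih' h1.2]
  | ex φ ih =>
    intro ψ h
    cases ψ <;> simp only [code] at h <;> try omega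
    rw [ih (Nat.eq_of_mul_eq_mul_left (by norm_num) (Nat.add_right_cancel h))]

theorem card_fm : #(ULift.{u} Fm) ≤ ℵ₀ := by
  have : Countable Fm := ⟨⟨code, code_inj⟩⟩
  exact Cardinal.mk_le_aleph0

/-- `D` is a cofinal subset of `a` -/
def Good (D a : ZFSet.{u}) : Prop := D ⊆ a ∧ ∀ b, b ∈ a → ∃ c, c ∈ D ∧ (b ∈ c ∧ c ∈ a)

/-- `X` contains a cofinal subset of `a` with an order type below `a` -/
def Short (X a : ZFSet.{u}) : Prop :=
  ∃ D, D ∈ X ∧ (Good D a ∧ ∃ v, v ∈ a ∧ (v.IsOrdinal ∧ OT (ords D) v.rank))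

theorem good_iff (D : ZFSet.{u}) (a : Ordinal.{u}) :
    Good D a.toZFSet ↔ D ⊆ a.toZFSet ∧ Cf a (ords D) := by
  unfold Good Cf
  refine and_congr_right fun _ => ?_
  constructor
  · intro h b hb
    obtain ⟨c, hc, hbc, hca⟩ := h _ (toZFSet_mem_toZFSet_iff.2 hb)
    obtain ⟨c', hc', rfl⟩ := mem_toZFSet_iff.1 hca
    exact ⟨c', hc, toZFSet_mem_toZFSet_iff.1 hbc, hc'⟩
  · intro h b hb
    obtain ⟨b', hb', rfl⟩ := mem_toZFSet_iff.1 hb
    obtain ⟨c, hc, hbc, hca⟩ := h b' hb'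
    exact ⟨c.toZFSet, hc, toZFSet_mem_toZFSet_iff.2 hbc, toZFSet_mem_toZFSet_iff.2 hca⟩

theorem short_iff (X : ZFSet.{u}) (a : Ordinal.{u}) :
    Short X a.toZFSet ↔ ∃ D ∈ X, D ⊆ a.toZFSet ∧ Cf a (ords D) ∧ ∃ v < a, OT (ords D) v := by
  unfold Short
  refine exists_congr fun D => and_congr_right fun _ => ?_
  rw [good_iff, and_assoc]
  refine and_congr_right fun _ => and_congr_right fun _ => ?_
  constructor
  · rintro ⟨v, hv, hv', h⟩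
    obtain ⟨w, hw, rfl⟩ := mem_toZFSet_iff.1 hv
    rw [rank_toZFSet] at h
    exact ⟨w, hw, h⟩
  · rintro ⟨v, hv, h⟩
    refine ⟨v.toZFSet, toZFSet_mem_toZFSet_iff.2 hv, ZFSet.isOrdinal_toZFSet v, ?_⟩
    rw [rank_toZFSet]
    exact h

theorem df_good (i j : ℕ) : Df.{u} fun s => Good (s i) (s j) :=
  (Df.subset i j).and (Df.all (R := fun b s => b ∈ s j → ∃ c, c ∈ s i ∧ (b ∈ c ∧ c ∈ s j))
    ((Df.mem 0 (j + 1)).imp (Df.ex (R := fun c s => c ∈ s (i + 1) ∧ (s 0 ∈ c ∧ c ∈ s (j + 1)))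
      ((Df.mem 0 (i + 2)).and ((Df.mem 1 0).and (Df.mem 0 (j + 2)))))))

theorem df_short (hDOT : S_DOT.{u}) (i j : ℕ) : Df.{u} fun s => Short (s i) (s j) :=
  Df.ex (R := fun D s => D ∈ s i ∧ (Good D (s j) ∧ ∃ v, v ∈ s j ∧ (v.IsOrdinal ∧ OT (ords D) v.rank)))
    ((Df.mem 0 (i + 1)).and ((df_good 0 (j + 1)).and
      (Df.ex (R := fun v s => v ∈ s (j + 1) ∧ (v.IsOrdinal ∧ OT (ords (s 0)) v.rank))
        ((Df.mem 0 (j + 2)).and
          (Df.sub2 (R := fun v D => v.IsOrdinal ∧ OT (ords D) v.rank) hDOT 0 1)))))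

/-- the relation for the formula `φ` -/
def Rel (φ : Fm) (s : ℕ → ZFSet.{u}) : Prop :=
  ((s 1).IsOrdinal ∧ (s 1).rank.cof = ℵ₀) ∧ ∃ X, (∀ z, Sat φ (cns z fun n => s (2 * n + 2)) ↔ z = X) ∧
    (X.card ≤ (s 3).card ∧ (Short X (s 1) ∧ ∀ D, D ∈ s 0 ↔ (D ∈ X ∧ Good D (s 1))))

theorem df_rel (hDCO : S_DCO.{u}) (hDOT : S_DOT.{u}) (hDCA : S_DCA.{u}) (φ : Fm) :
    Df.{u} (Rel φ) := by
  refine (Df.sub1 (R := fun x => x.IsOrdinal ∧ x.rank.cof = ℵ₀) hDCO 1).and ?_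
  refine Df.ex (R := fun X s => (∀ z, Sat φ (cns z fun n => s (2 * n + 2)) ↔ z = X) ∧
    (X.card ≤ (s 3).card ∧ (Short X (s 1) ∧ ∀ D, D ∈ s 0 ↔ (D ∈ X ∧ Good D (s 1))))) ?_
  refine Df.and ?_ (Df.and ?_ (Df.and ?_ ?_))
  · refine Df.all (R := fun z s => Sat φ (cns z fun n => s (2 * n + 3)) ↔ z = s 0) ?_
    refine Df.iff ?_ (Df.eq 0 1)
    refine Df.congr (Df.ren (P := fun s => Sat φ s) ⟨φ, fun _ => Iff.rfl⟩
      (cns 0 fun n => 2 * n + 4)) fun s => ?_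
    have : (fun n => s (cns 0 (fun n => 2 * n + 4) n)) = cns (s 0) fun n => s (2 * n + 4) := by
      funext n
      cases n <;> rfl
    rw [this]
  · exact Df.sub2 (R := fun x y => x.card ≤ y.card) hDCA 0 4
  · exact df_short hDOT 0 2
  · exact Df.all (R := fun D s => D ∈ s 1 ↔ (D ∈ s 0 ∧ Good D (s 2)))
      ((Df.mem 0 2).iff ((Df.mem 0 1).and (df_good 0 3)))

theorem sat_arg (y : ZFSet.{u}) (t : ℕ → ZFSet.{u}) (p : ℕ → Ordinal.{u}) :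
    (fun n => cns y (mix t p) (2 * n + 2)) = oz p := by
  funext n
  change mix t p (2 * n + 1) = oz p n
  unfold mix
  rw [if_neg (by omega), show (2 * n + 1) / 2 = n by omega]
  rfl

theorem mix0 (t : ℕ → ZFSet.{u}) (p : ℕ → Ordinal.{u}) (y : ZFSet.{u}) :
    cns y (mix t p) 1 = t 0 := rfl

theorem mix2 (t : ℕ → ZFSet.{u}) (p : ℕ → Ordinal.{u}) (y : ZFSet.{u}) :
    cns y (mix t p) 3 = t 1 := rfl

theorem rel_iff (φ : Fm) (y : ZFSet.{u}) (t : ℕ → ZFSet.{u}) (p : ℕ → Ordinal.{u}) :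
    Rel φ (cns y (mix t p)) ↔ ((t 0).IsOrdinal ∧ (t 0).rank.cof = ℵ₀) ∧
      ∃ X, (∀ z, Sat φ (cns z (oz p)) ↔ z = X) ∧
        (X.card ≤ (t 1).card ∧ (Short X (t 0) ∧ ∀ D, D ∈ y ↔ (D ∈ X ∧ Good D (t 0)))) := by
  unfold Rel
  rw [sat_arg, mix0, mix2]
  rfl

theorem rel_fun (φ : Fm) (t : ℕ → ZFSet.{u}) (p : ℕ → Ordinal.{u}) (y y' : ZFSet.{u})
    (h : Rel φ (cns y (mix t p))) (h' : Rel φ (cns y' (mix t p))) : y = y' := by
  rw [rel_iff] at h h'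
  obtain ⟨-, X, hX, -, -, hy⟩ := h
  obtain ⟨-, X', hX', -, -, hy'⟩ := h'
  have e : X = X' := (hX' X).1 ((hX X).2 rfl)
  subst e
  ext D
  rw [hy D, hy' D]

/-- the claim for one formula -/
theorem one (hDCO : S_DCO.{u}) (hDOT : S_DOT.{u}) (hDCA : S_DCA.{u}) (hUNI : S_UNI.{u})
    (hUN : S_UN.{u}) (l : Cardinal.{u}) (hl : l.IsRegular) (hl0 : ℵ₀ < l) (k : Ordinal.{u})
    (hk : k ≠ 0) (hkl : k < l.ord) (hpart : ¬ HODPart l.ord k) (m : Cardinal.{u})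
    (hm : Order.succ m < l) (φ : Fm) : ∃ C, Club l.ord C ∧ ∀ a ∈ C, a.cof = ℵ₀ →
      ∀ (p : ℕ → Ordinal.{u}) (X : ZFSet.{u}), (∀ z, Sat φ (cns z (oz p)) ↔ z = X) → X.card ≤ m →
      ¬ Short X a.toZFSet := by
  obtain ⟨R', hR', h1, h2, h3⟩ := hUNI (Rel φ) (df_rel hDCO hDOT hDCA φ) (rel_fun φ)
  set p₀ : ℕ → Ordinal.{u} := cns m.ord fun _ => 0 with hp₀
  set t : Ordinal.{u} → ℕ → ZFSet.{u} := fun a => oz (cns a p₀) with ht
  have ht0 : ∀ a, t a 0 = a.toZFSet := fun a => rfl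
  have ht1 : ∀ a, (t a 1).card = m := by
    intro a
    change (m.ord.toZFSet).card = m
    rw [Ordinal.card_toZFSet, Cardinal.card_ord]
  classical
  let F : Ordinal.{u} → ZFSet.{u} := fun a => if h : ∃ y, R' (cns y (t a)) then h.choose else ∅
  have hF : ∀ a, (∃ y, R' (cns y (t a))) → R' (cns (F a) (t a)) := by
    intro a h
    have : F a = h.choose := dif_pos h
    rw [this]
    exact h.choose_spec
  have key : ∀ a, (∃ y, R' (cns y (t a))) → ∃ X, X.card ≤ m ∧ (a.cof = ℵ₀ ∧ Short X a.toZFSet) ∧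
      ∀ D, D ∈ F a ↔ (D ∈ X ∧ Good D a.toZFSet) := by
    intro a h
    obtain ⟨p, hp⟩ := h1 _ _ (hF a h)
    rw [rel_iff] at hp
    obtain ⟨⟨-, hc⟩, X, -, hX, hS, hD⟩ := hp
    rw [ht1] at hX
    rw [ht0, rank_toZFSet] at hc
    exact ⟨X, hX, ⟨hc, hS⟩, hD⟩
  obtain ⟨C, hC, hC'⟩ := hUN l hl hl0 k hk hkl hpart m hm R' p₀ hR'
    {a | a < l.ord ∧ ∃ y, R' (cns y (t a))} F
    (fun a ha => ⟨ha.1, by obtain ⟨X, -, h, -⟩ := key a ha.2; exact h.1⟩)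
    (fun a ha y => ⟨fun h => by rw [← h.2]; exact hF a h.1.2,
      fun h => ⟨⟨ha, y, h⟩, h2 _ _ _ (hF a ⟨y, h⟩) h⟩⟩)
    (fun a ha => by
      obtain ⟨X, hX, -, hD⟩ := key a ha.2
      refine ⟨(ZFSet.card_mono fun D h => ((hD D).1 h).1).trans hX, fun D h => ?_⟩
      exact (good_iff D a).1 ((hD D).1 h).2)
  refine ⟨C, hC, fun a ha hcof p X hX hXm hS => ?_⟩
  have hex : ∃ y, R' (cns y (t a)) := by
    refine h3 (t a) ⟨p, ZFSet.sep (fun D => Good D a.toZFSet) X, ?_⟩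
    rw [rel_iff]
    refine ⟨⟨ZFSet.isOrdinal_toZFSet a, ?_⟩, X, hX, ?_, hS, fun D => ?_⟩
    · rw [ht0, rank_toZFSet]
      exact hcof
    · rw [ht1]
      exact hXm
    · rw [ZFSet.mem_sep]
      rfl
  obtain ⟨X', -, ⟨-, hS'⟩, hD'⟩ := key a hex
  obtain ⟨D, hDX, hgood, v, hv, hvo, hOT⟩ := hS'
  have h5 := hC' a ⟨hC.1 a ha, hex⟩ ha D ((hD' D).2 ⟨hDX, hgood⟩) v.rank hOT
  obtain ⟨w, hw, rfl⟩ := mem_toZFSet_iff.1 hv
  rw [rank_toZFSet] at h5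
  exact absurd hw (not_lt.2 h5)

end PG

theorem t_PG0 : S_PG0.{u} := by
  intro hDCO hDOT hDCA hUNI hCI hUN l hl hl0 k hk hkl hpart m hm
  choose C hC hC' using PG.one hDCO hDOT hDCA hUNI hUN l hl hl0 k hk hkl hpart m hm
  refine ⟨_, hCI l hl hl0 (ULift.{u} Fm) (fun φ => C φ.down) (PG.card_fm.trans_lt hl0)
    (fun φ => hC φ.down), ?_⟩
  rintro a ⟨ha, haC⟩ hcof X ⟨φ, p, hφ⟩ hXm D hD hDa hcf v hOT
  by_contra hcon
  rw [not_le] at hcon
  exact hC' φ a (haC ⟨φ⟩) hcof p X hφ hXm ((PG.short_iff X a).2 ⟨D, hD, hDa, hcf, v, hcon, hOT⟩)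

end Pool.Agent.NH86.HD
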