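import Pool.Agent.NH86.HD.Base

/-! # Project HD, HD-6: definable choice of ordinal parameters (helper15) -/

set_option autoImplicit false

open Ordinal Cardinal Set

universe u

namespace Pool.Agent.NH86.HD

namespace UNI

/-- the sequence `s`, with the value `q` at the place `c` -/
def up {X : Type*} (s : ℕ → X) (c : ℕ) (q : X) : ℕ → X := fun n => if n = c then q else s n

theorem up_self {X : Type*} (s : ℕ → X) (c : ℕ) : up s c (s c) = s := by
  funext n
  unfold up
  split_ifs with h
  · rw [h]
  · rfl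

theorem up_mix (y : ZFSet.{u}) (t : ℕ → ZFSet.{u}) (p : ℕ → Ordinal.{u}) (N : ℕ) (q : Ordinal.{u}) :
    up (cns y (mix t p)) (2 * N + 2) q.toZFSet = cns y (mix t (up p N q)) := by
  funext n
  cases n with
  | zero =>
    have : ¬ (0 = 2 * N + 2) := by omega
    simp [up]
  | succ n =>
    unfold up
    rw [cns_succ, cns_succ]
    unfold mix
    by_cases hn : n = 2 * N + 1
    · rw [if_pos (by omega), if_neg (by omega)]
      have h5 : n / 2 = N := by omega
      simp only [h5, if_true]
    · rw [if_neg (by omega)]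
      by_cases h2 : n % 2 = 0
      · rw [if_pos h2, if_pos h2]
      · rw [if_neg h2, if_neg h2]
        have h5 : n / 2 ≠ N := by omega
        simp only [h5, if_false]

theorem up_mix' (y : ZFSet.{u}) (t : ℕ → ZFSet.{u}) (p : ℕ → Ordinal.{u}) (N : ℕ) (q : Ordinal.{u}) :
    (fun n => up (cns y (mix t p)) (2 * N + 2) q.toZFSet (n + 1)) = mix t (up p N q) := by
  rw [up_mix]
  rfl

/-- the relation with one more parameter minimised -/
def R1 (R : (ℕ → ZFSet.{u}) → Prop) (c : ℕ) (s : ℕ → ZFSet.{u}) : Prop :=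
  ∃ q : Ordinal.{u}, R (up s c q.toZFSet) ∧
    ∀ b, b ∈ q.toZFSet → ¬ ∃ y', R (cns y' fun n => up s c b (n + 1))

theorem df_R1 {R : (ℕ → ZFSet.{u}) → Prop} (h : Df R) (c : ℕ) : Df (R1 R c) := by
  refine Df.exOrd (R := fun a s => R (up s c a) ∧
    ∀ b, b ∈ a → ¬ ∃ y', R (cns y' fun n => up s c b (n + 1))) ?_
  refine Df.and ?_ ?_
  · refine (h.ren fun n => if n = c then 0 else n + 1).congr fun s => ?_
    have : (fun n => s (if n = c then 0 else n + 1)) = up (fun n => s (n + 1)) c (s 0) := by
      funext n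
      unfold up
      split_ifs <;> rfl
    rw [this]
  · refine Df.all (R := fun b s => b ∈ s 0 →
      ¬ ∃ y', R (cns y' fun n => up (fun n => s (n + 1)) c b (n + 1))) ?_
    refine Df.imp (Df.mem 0 1) (Df.not ?_)
    refine Df.ex (R := fun y' s => R (cns y' fun n => up (fun n => s (n + 2)) c (s 0) (n + 1))) ?_
    refine (h.ren fun n => if n = 0 then 0 else if n = c then 1 else n + 3).congr fun s => ?_
    have : (fun n => s (if n = 0 then 0 else if n = c then 1 else n + 3)) =
        cns (s 0) fun n => up (fun n => s (n + 3)) c (s 1) (n + 1) := by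
      funext n
      cases n with
      | zero => rfl
      | succ n =>
        rw [cns_succ]
        unfold up
        rw [if_neg (Nat.succ_ne_zero n)]
        split_ifs <;> rfl
    rw [this]

theorem R1_iff (R : (ℕ → ZFSet.{u}) → Prop) (N : ℕ) (y : ZFSet.{u}) (t : ℕ → ZFSet.{u})
    (p : ℕ → Ordinal.{u}) : R1 R (2 * N + 2) (cns y (mix t p)) ↔
      ∃ q : Ordinal.{u}, R (cns y (mix t (up p N q))) ∧
        ∀ q' < q, ¬ ∃ y', R (cns y' (mix t (up p N q'))) := by
  unfold R1
  refine exists_congr fun q => ?_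
  rw [up_mix]
  refine and_congr Iff.rfl ?_
  constructor
  · intro h q' hq'
    have h1 := h q'.toZFSet (toZFSet_mem_toZFSet_iff.2 hq')
    rw [up_mix'] at h1
    exact h1
  · intro h b hb
    rw [mem_toZFSet_iff] at hb
    obtain ⟨q', hq', rfl⟩ := hb
    rw [up_mix']
    exact h q' hq'

theorem main (N : ℕ) : ∀ R : (ℕ → ZFSet.{u}) → Prop, Df R →
    (∀ t p y y', R (cns y (mix t p)) → R (cns y' (mix t p)) → y = y') →
    (∀ t y p p', (∀ n < N, p n = p' n) → (R (cns y (mix t p)) ↔ R (cns y (mix t p')))) →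
    ∃ R' : (ℕ → ZFSet.{u}) → Prop, Df R' ∧ (∀ t y, R' (cns y t) → ∃ p, R (cns y (mix t p))) ∧
      (∀ t y y', R' (cns y t) → R' (cns y' t) → y = y') ∧
      ∀ t, (∃ p y, R (cns y (mix t p))) → ∃ y, R' (cns y t) := by
  induction N with
  | zero =>
    intro R hR hf hd
    refine ⟨fun s => R (cns (s 0) (mix (fun n => s (n + 1)) fun _ => 0)), ?_, ?_, ?_, ?_⟩
    · have h1 : Df.{u} fun s => ∃ e, (∀ x, ¬ x ∈ e) ∧
          R fun n => cns e s (if n = 0 then 1 else if (n - 1) % 2 = 0 then (n - 1) / 2 + 2 else 0) := by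
        refine Df.ex (R := fun e s => (∀ x, ¬ x ∈ e) ∧
          R fun n => cns e s (if n = 0 then 1 else if (n - 1) % 2 = 0 then (n - 1) / 2 + 2 else 0)) ?_
        refine Df.and (Df.all (R := fun x s => ¬ x ∈ s 0) (Df.mem 0 1).not) ?_
        refine (hR.ren fun n => if n = 0 then 1 else
          if (n - 1) % 2 = 0 then (n - 1) / 2 + 2 else 0).congr fun s => ?_
        rw [cns_eta]
      refine h1.congr fun s => ?_
      have h2 : (fun n => cns (∅ : ZFSet.{u}) s (if n = 0 then 1 else
          if (n - 1) % 2 = 0 then (n - 1) / 2 + 2 else 0)) =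
          cns (s 0) (mix (fun n => s (n + 1)) fun _ => 0) := by
        funext n
        cases n with
        | zero => rfl
        | succ n =>
          rw [if_neg (Nat.succ_ne_zero n), Nat.add_sub_cancel, cns_succ]
          unfold mix
          split_ifs with h3
          · rfl
          · rw [cns_zero, toZFSet_zero]
      constructor
      · rintro ⟨e, he, hR'⟩
        have he' : e = ∅ := (ZFSet.eq_empty e).2 he
        rw [he', h2] at hR'
        exact hR'
      · intro h
        refine ⟨∅, fun x => ZFSet.notMem_empty x, ?_⟩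
        rw [h2]
        exact h
    · intro t y h
      exact ⟨fun _ => 0, h⟩
    · intro t y y' h h'
      exact hf t (fun _ => 0) y y' h h'
    · rintro t ⟨p, y, h⟩
      exact ⟨y, (hd t y p (fun _ => 0) fun n hn => absurd hn (Nat.not_lt_zero n)).1 h⟩
  | succ N ih =>
    intro R hR hf hd
    obtain ⟨R', h1, h2, h3, h4⟩ := ih (R1 R (2 * N + 2)) (df_R1 hR _)
      (by
        intro t p y y' h h'
        rw [R1_iff] at h h'
        obtain ⟨q, hq, hm⟩ := h
        obtain ⟨q', hq', hm'⟩ := h'
        have hqq : q = q' := by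
          rcases lt_trichotomy q q' with hlt | heq | hgt
          · exact absurd ⟨y, hq⟩ (hm' q hlt)
          · exact heq
          · exact absurd ⟨y', hq'⟩ (hm q' hgt)
        rw [← hqq] at hq'
        exact hf _ _ _ _ hq hq')
      (by
        intro t y p p' hp
        rw [R1_iff, R1_iff]
        have key : ∀ (y : ZFSet.{u}) (q : Ordinal.{u}),
            R (cns y (mix t (up p N q))) ↔ R (cns y (mix t (up p' N q))) := by
          intro y q
          refine hd t y _ _ fun n hn => ?_
          unfold up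
          split_ifs with h5
          · rfl
          · exact hp n (by omega)
        refine exists_congr fun q => and_congr (key y q) ?_
        refine forall_congr' fun q' => imp_congr Iff.rfl (not_congr ?_)
        exact exists_congr fun y' => key y' q')
    refine ⟨R', h1, ?_, h3, ?_⟩
    · intro t y h
      obtain ⟨p, hp⟩ := h2 t y h
      rw [R1_iff] at hp
      obtain ⟨q, hq, _⟩ := hp
      exact ⟨_, hq⟩
    · rintro t ⟨p, y, h⟩
      apply h4
      have hne : ∃ q : Ordinal.{u}, ∃ y', R (cns y' (mix t (up p N q))) :=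
        ⟨p N, y, by rw [up_self]; exact h⟩
      obtain ⟨q, ⟨y', hy'⟩, hmin⟩ := WellFounded.has_min (wellFounded_lt (α := Ordinal.{u}))
        {q | ∃ y', R (cns y' (mix t (up p N q)))} hne
      refine ⟨p, y', ?_⟩
      rw [R1_iff]
      exact ⟨q, hy', fun q' hq' hc => hmin q' hc hq'⟩

end UNI

theorem t_UNI : S_UNI.{u} := by
  intro R hR hf
  obtain ⟨φ, hφ⟩ := id hR
  obtain ⟨N, hN⟩ := sat_supp.{u} φ
  refine UNI.main N R hR hf ?_
  intro t y p p' hp
  rw [← hφ, ← hφ]
  refine hN _ _ fun n hn => ?_
  cases n with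
  | zero => rfl
  | succ n =>
    rw [cns_succ, cns_succ]
    unfold mix
    split_ifs with h
    · rfl
    · rw [hp (n / 2) (by omega)]

end Pool.Agent.NH86.HD
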