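import Pool.Agent.NH86.HD.Base

/-! # Project HD: the cumulative hierarchy is definable (job HD-18) -/

set_option autoImplicit false

open Ordinal Cardinal Set

universe u

namespace Pool.Agent.NH86.HD

namespace VTH

/-- the rank of `x` is smaller than the ordinal `a` -/
def C (a x : ZFSet.{u}) : Prop := ∃ t g : ZFSet.{u}, t.IsTransitive ∧ x ∈ t ∧
  (∀ u w, ZFSet.pair u w ∈ g → w ∈ a) ∧ (∀ u, u ∈ t → ∃ w, ZFSet.pair u w ∈ g) ∧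
  ∀ u u' w w', u ∈ t → u' ∈ t → u' ∈ u → ZFSet.pair u w ∈ g → ZFSet.pair u' w' ∈ g → w' ∈ w

theorem rank_lt {a x : ZFSet.{u}} (h : C a x) : x.rank < a.rank := by
  obtain ⟨t, g, ht, hx, h1, h2, h3⟩ := h
  have key : ∀ u, u ∈ t → ∀ w, ZFSet.pair u w ∈ g → u.rank ≤ w.rank := by
    intro u
    induction u using ZFSet.inductionOn with
    | _ u ih =>
      intro hu w hw
      rw [ZFSet.rank_le_iff]
      intro u' hu'
      have hu't : u' ∈ t := ht u hu hu'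
      obtain ⟨w', hw'⟩ := h2 u' hu't
      exact (ih u' hu' hu't w' hw').trans_lt
        (ZFSet.rank_lt_of_mem (h3 u u' w w' hu hu't hu' hw hw'))
  obtain ⟨w, hw⟩ := h2 x hx
  exact (key x hx w hw).trans_lt (ZFSet.rank_lt_of_mem (h1 x w hw))

theorem of_rank_lt {a x : ZFSet.{u}} (ha : a.IsOrdinal) (h : x.rank < a.rank) : C a x := by
  refine ⟨ZFSet.vonNeumann (Order.succ x.rank),
    ZFSet.sep (fun z => ∃ u : ZFSet.{u}, z = ZFSet.pair u u.rank.toZFSet)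
      (ZFSet.prod (ZFSet.vonNeumann (Order.succ x.rank)) a),
    ZFSet.isTransitive_vonNeumann _, ?_, ?_, ?_, ?_⟩
  · rw [ZFSet.mem_vonNeumann]
    exact Order.lt_succ _
  · intro u w hw
    rw [ZFSet.mem_sep, ZFSet.pair_mem_prod] at hw
    exact hw.1.2
  · intro u hu
    refine ⟨u.rank.toZFSet, ?_⟩
    rw [ZFSet.mem_sep, ZFSet.pair_mem_prod]
    refine ⟨⟨hu, ?_⟩, u, rfl⟩
    rw [ZFSet.mem_vonNeumann, Order.lt_succ_iff] at hu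
    rw [← ha.toZFSet_rank_eq, toZFSet_mem_toZFSet_iff]
    exact hu.trans_lt h
  · intro u u' w w' _ _ huu hw hw'
    rw [ZFSet.mem_sep] at hw hw'
    obtain ⟨v, hv⟩ := hw.2
    obtain ⟨v', hv'⟩ := hw'.2
    obtain ⟨rfl, rfl⟩ := ZFSet.pair_injective hv
    obtain ⟨rfl, rfl⟩ := ZFSet.pair_injective hv'
    rw [toZFSet_mem_toZFSet_iff]
    exact ZFSet.rank_lt_of_mem huu

theorem dfC : Df.{u} fun s => C (s 0) (s 1) := by
  refine Df.ex (R := fun t s => ∃ g : ZFSet.{u}, t.IsTransitive ∧ s 1 ∈ t ∧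
    (∀ u w, ZFSet.pair u w ∈ g → w ∈ s 0) ∧ (∀ u, u ∈ t → ∃ w, ZFSet.pair u w ∈ g) ∧
    ∀ u u' w w', u ∈ t → u' ∈ t → u' ∈ u → ZFSet.pair u w ∈ g → ZFSet.pair u' w' ∈ g → w' ∈ w) ?_
  refine Df.ex (R := fun g s => (s 0).IsTransitive ∧ s 2 ∈ s 0 ∧
    (∀ u w, ZFSet.pair u w ∈ g → w ∈ s 1) ∧ (∀ u, u ∈ s 0 → ∃ w, ZFSet.pair u w ∈ g) ∧
    ∀ u u' w w', u ∈ s 0 → u' ∈ s 0 → u' ∈ u → ZFSet.pair u w ∈ g → ZFSet.pair u' w' ∈ g →
      w' ∈ w) ?_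
  refine (Df.isTransitive 1).and ((Df.mem 3 1).and ((?_ : Df _).and ((?_ : Df _).and ?_)))
  · refine Df.all (R := fun u s => ∀ w, ZFSet.pair u w ∈ s 0 → w ∈ s 2) ?_
    exact Df.all (R := fun w s => ZFSet.pair (s 0) w ∈ s 1 → w ∈ s 3)
      ((Df.pairMem 1 0 2).imp (Df.mem 0 4))
  · refine Df.all (R := fun u s => u ∈ s 1 → ∃ w, ZFSet.pair u w ∈ s 0) ?_
    exact (Df.mem 0 2).imp (Df.ex (R := fun w s => ZFSet.pair (s 0) w ∈ s 1) (Df.pairMem 1 0 2))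
  · refine Df.all (R := fun u s => ∀ u' w w', u ∈ s 1 → u' ∈ s 1 → u' ∈ u →
      ZFSet.pair u w ∈ s 0 → ZFSet.pair u' w' ∈ s 0 → w' ∈ w) ?_
    refine Df.all (R := fun u' s => ∀ w w', s 0 ∈ s 2 → u' ∈ s 2 → u' ∈ s 0 →
      ZFSet.pair (s 0) w ∈ s 1 → ZFSet.pair u' w' ∈ s 1 → w' ∈ w) ?_
    refine Df.all (R := fun w s => ∀ w', s 1 ∈ s 3 → s 0 ∈ s 3 → s 0 ∈ s 1 →
      ZFSet.pair (s 1) w ∈ s 2 → ZFSet.pair (s 0) w' ∈ s 2 → w' ∈ w) ?_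
    refine Df.all (R := fun w' s => s 2 ∈ s 4 → s 1 ∈ s 4 → s 1 ∈ s 2 →
      ZFSet.pair (s 2) (s 0) ∈ s 3 → ZFSet.pair (s 1) w' ∈ s 3 → w' ∈ s 0) ?_
    exact (Df.mem 3 5).imp ((Df.mem 2 5).imp ((Df.mem 2 3).imp ((Df.pairMem 3 1 4).imp
      ((Df.pairMem 2 0 4).imp (Df.mem 0 1)))))

end VTH

open VTH in
theorem t_VTH : S_VTH.{u} := by
  have h : Df.{u} fun s => (s 0).IsOrdinal ∧ ∀ x, x ∈ s 1 ↔ C (s 0) x :=
    (Df.isOrdinal 0).and (Df.all (R := fun x s => x ∈ s 1 ↔ C (s 0) x)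
      ((Df.mem 0 2).iff (Df.sub2 (R := C) dfC 1 0)))
  refine h.congr fun s => ?_
  refine and_congr_right fun hs => ?_
  rw [ZFSet.ext_iff]
  refine forall_congr' fun x => iff_congr Iff.rfl ?_
  rw [ZFSet.mem_vonNeumann]
  exact ⟨rank_lt, of_rank_lt hs⟩

end Pool.Agent.NH86.HD
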