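import Pool.Agent.NH86.HD.Base

/-! Project HD, part HD-10: the closed unbounded set of the closure points of a function -/

set_option autoImplicit false

open Ordinal Cardinal Set

universe u

namespace Pool.Agent.NH86.HD

set_option linter.deprecated false in
theorem t_CG : S_CG.{u} := by
  intro l hl hl0 G hG
  refine ⟨fun a ha => ha.1, fun b hb => ?_, fun d hd hd0 hlim => ?_⟩
  · -- unbounded
    set H : Ordinal.{u} → Ordinal.{u} := fun x => max (Order.succ x) (blsub x fun y _ => G y) with hH
    have hlim : Order.IsSuccLimit l.ord := Cardinal.isSuccLimit_ord hl0.le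
    have hHl : ∀ x < l.ord, H x < l.ord := by
      intro x hx
      refine max_lt (hlim.succ_lt hx) ?_
      exact blsub_lt_ord_of_isRegular hl (Cardinal.lt_ord.1 hx) fun y hy => hG y (hy.trans hx)
    have hsb : Order.succ b < l.ord := hlim.succ_lt hb
    have hd : nfp H (Order.succ b) < l.ord := nfp_lt_ord_of_isRegular hl hl0.ne' hHl hsb
    have hbd : b < nfp H (Order.succ b) := lt_of_lt_of_le (Order.lt_succ b) (le_nfp H _)
    refine ⟨nfp H (Order.succ b), ⟨hd, ?_, ?_⟩, hbd⟩
    · exact (lt_of_le_of_lt (bot_le (a := b)) hbd).ne'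
    · intro x hx
      obtain ⟨n, hn⟩ := (lt_nfp_iff).1 hx
      have h1 : G x < H (H^[n] (Order.succ b)) :=
        lt_of_lt_of_le (lt_blsub (fun y _ => G y) x hn) (le_max_right _ _)
      rw [← Function.iterate_succ_apply' H n] at h1
      exact lt_of_lt_of_le h1 (iterate_le_nfp H _ _)
  · -- closed
    refine ⟨hd, hd0, fun b hb => ?_⟩
    obtain ⟨c, hc, hbc, hcd⟩ := hlim b hb
    exact (hc.2.2 b hbc).trans hcd

end Pool.Agent.NH86.HD
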