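import Pool.Agent.NH86.HD.Base

/-! # HD-13: regressive definable functions are bounded (helper49) -/

set_option autoImplicit false

open Ordinal Cardinal Set

universe u

namespace Pool.Agent.NH86.HD

namespace BD

/-! ### The relations -/

/-- the set `T` of the values with a stationary fibre -/
def IsT (P : (ℕ → ZFSet.{u}) → Prop) (T L : ZFSet.{u}) (w : ℕ → ZFSet.{u}) : Prop :=
  ∀ x, x ∈ T ↔ (x ∈ L ∧ ∃ B, (∀ a, a ∈ B ↔ (a ∈ L ∧ P (cns a (cns x w)))) ∧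
    (L.IsOrdinal ∧ Stat L.rank (ords B)))

/-- the value at `a` is the `i`-th element of `T` -/
def IsE (P : (ℕ → ZFSet.{u}) → Prop) (a i T : ZFSet.{u}) (w : ℕ → ZFSet.{u}) : Prop :=
  ∃ x, (x ∈ T ∧ P (cns a (cns x w))) ∧
    ∃ Y, (∀ y, y ∈ Y ↔ (y ∈ T ∧ y ∈ x)) ∧ (i.IsOrdinal ∧ OT (ords Y) i.rank)

/-- `a` is in the `i`-th set of the partition -/
def IsS (P : (ℕ → ZFSet.{u}) → Prop) (i a L k : ZFSet.{u}) (w : ℕ → ZFSet.{u}) : Prop :=
  ∃ T, IsT P T L w ∧ (((∃ z, z ∈ i) ∧ IsE P a i T w) ∨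
    ((¬ ∃ z, z ∈ i) ∧ (a.IsOrdinal ∧ a.rank.cof = ℵ₀) ∧
      ∀ j, (∃ z, z ∈ j) → j ∈ k → ¬ IsE P a j T w))

variable {P : (ℕ → ZFSet.{u}) → Prop}

theorem dfP (hP : Df P) (i j m : ℕ) :
    Df fun s => P (cns (s i) (cns (s j) (fun n => s (n + m)))) := by
  refine (hP.ren (cns i (cns j fun n => n + m))).congr fun s => ?_
  have e : (fun n => s (cns i (cns j fun n => n + m) n)) =
      cns (s i) (cns (s j) (fun n => s (n + m))) := by
    funext n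
    rcases n with _ | _ | n <;> rfl
  rw [e]

theorem dfNe (i : ℕ) : Df.{u} fun s => ∃ z, z ∈ s i :=
  Df.ex (R := fun z s => z ∈ s i) (Df.mem 0 (i + 1))

theorem dfT (hP : Df P) (hST : S_DST.{u}) (i j m : ℕ) :
    Df fun s => IsT P (s i) (s j) (fun n => s (n + m)) := by
  refine Df.all (R := fun x s => x ∈ s i ↔ (x ∈ s j ∧ ∃ B, (∀ a, a ∈ B ↔ (a ∈ s j ∧
    P (cns a (cns x (fun n => s (n + m)))))) ∧ ((s j).IsOrdinal ∧ Stat (s j).rank (ords B)))) ?_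
  refine (Df.mem 0 (i + 1)).iff ((Df.mem 0 (j + 1)).and ?_)
  refine Df.ex (R := fun B s => (∀ a, a ∈ B ↔ (a ∈ s (j + 1) ∧
    P (cns a (cns (s 0) (fun n => s (n + m + 1)))))) ∧
      ((s (j + 1)).IsOrdinal ∧ Stat (s (j + 1)).rank (ords B))) ?_
  refine Df.and ?_ ?_
  · refine Df.all (R := fun a s => a ∈ s 0 ↔ (a ∈ s (j + 1 + 1) ∧
      P (cns a (cns (s 1) (fun n => s (n + m + 1 + 1)))))) ?_
    refine (Df.mem 0 1).iff ((Df.mem 0 (j + 1 + 1 + 1)).and ?_)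
    exact dfP hP 0 2 (m + 1 + 1 + 1)
  · exact Df.sub2 (R := fun x y => x.IsOrdinal ∧ Stat x.rank (ords y)) hST (j + 1 + 1) 0

theorem dfE (hP : Df P) (hOT : S_DOT.{u}) (a i t m : ℕ) :
    Df fun s => IsE P (s a) (s i) (s t) (fun n => s (n + m)) := by
  refine Df.ex (R := fun x s => (x ∈ s t ∧ P (cns (s a) (cns x (fun n => s (n + m))))) ∧
    ∃ Y, (∀ y, y ∈ Y ↔ (y ∈ s t ∧ y ∈ x)) ∧ ((s i).IsOrdinal ∧ OT (ords Y) (s i).rank)) ?_
  refine Df.and ((Df.mem 0 (t + 1)).and (dfP hP (a + 1) 0 (m + 1))) ?_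
  refine Df.ex (R := fun Y s => (∀ y, y ∈ Y ↔ (y ∈ s (t + 1) ∧ y ∈ s 0)) ∧
    ((s (i + 1)).IsOrdinal ∧ OT (ords Y) (s (i + 1)).rank)) ?_
  refine Df.and ?_ ?_
  · refine Df.all (R := fun y s => y ∈ s 0 ↔ (y ∈ s (t + 1 + 1) ∧ y ∈ s 1)) ?_
    exact (Df.mem 0 1).iff ((Df.mem 0 (t + 1 + 1 + 1)).and (Df.mem 0 2))
  · exact Df.sub2 (R := fun x y => x.IsOrdinal ∧ OT (ords y) x.rank) hOT (i + 1 + 1) 0

theorem dfS (hP : Df P) (hST : S_DST.{u}) (hCO : S_DCO.{u}) (hOT : S_DOT.{u}) :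
    Df fun s => IsS P (s 0) (s 1) (s 2) (s 3) (fun n => s (n + 4)) := by
  refine Df.ex (R := fun T s => IsT P T (s 2) (fun n => s (n + 4)) ∧
    (((∃ z, z ∈ s 0) ∧ IsE P (s 1) (s 0) T (fun n => s (n + 4))) ∨
    ((¬ ∃ z, z ∈ s 0) ∧ ((s 1).IsOrdinal ∧ (s 1).rank.cof = ℵ₀) ∧
      ∀ j, (∃ z, z ∈ j) → j ∈ s 3 → ¬ IsE P (s 1) j T (fun n => s (n + 4))))) ?_
  refine Df.and (dfT hP hST 0 3 5) (Df.or ?_ ?_)
  · exact (dfNe 1).and (dfE hP hOT 2 1 0 5)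
  · refine (dfNe 1).not.and (Df.and ?_ ?_)
    · exact Df.sub1 (R := fun x => x.IsOrdinal ∧ x.rank.cof = ℵ₀) hCO 2
    · refine Df.all (R := fun j s => (∃ z, z ∈ j) → j ∈ s 4 →
        ¬ IsE P (s 2) j (s 0) (fun n => s (n + 5))) ?_
      exact (dfNe 0).imp ((Df.mem 0 5).imp (dfE hP hOT 3 0 1 6).not)

/-! ### The values of the relations -/

theorem exists_mem_toZFSet (i : Ordinal.{u}) : (∃ z, z ∈ i.toZFSet) ↔ i ≠ 0 := by
  constructor
  · rintro ⟨z, hz⟩ rfl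
    rw [toZFSet_zero] at hz
    exact ZFSet.notMem_empty z hz
  · intro hi
    refine ⟨(0 : Ordinal.{u}).toZFSet, ?_⟩
    rw [toZFSet_mem_toZFSet_iff]
    exact pos_iff_ne_zero.2 hi

section

variable {L : Ordinal.{u}} {p : ℕ → Ordinal.{u}} {A : Set Ordinal.{u}}
  {f : Ordinal.{u} → Ordinal.{u}}

/-- the values with a stationary fibre -/
def TT (L : Ordinal.{u}) (A : Set Ordinal.{u}) (f : Ordinal.{u} → Ordinal.{u}) : Set Ordinal.{u} :=
  {x | x < L ∧ Stat L {a | a ∈ A ∧ f a = x}}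

theorem P_iff (hAf : ∀ a < L, ∀ x < L, (a ∈ A ∧ f a = x) ↔ P (oz (cns a (cns x p))))
    {a x : Ordinal.{u}} (ha : a < L) (hx : x < L) :
    P (cns a.toZFSet (cns x.toZFSet (oz p))) ↔ (a ∈ A ∧ f a = x) := by
  rw [hAf a ha x hx, oz_cns, oz_cns]

theorem isT_iff (hAL : ∀ a ∈ A, a < L)
    (hAf : ∀ a < L, ∀ x < L, (a ∈ A ∧ f a = x) ↔ P (oz (cns a (cns x p)))) (T : ZFSet.{u}) :
    IsT P T L.toZFSet (oz p) ↔ T = toZ L (TT L A f) := by
  have key : ∀ x, (x ∈ L.toZFSet ∧ ∃ B, (∀ a, a ∈ B ↔ (a ∈ L.toZFSet ∧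
      P (cns a (cns x (oz p))))) ∧ (L.toZFSet.IsOrdinal ∧ Stat L.toZFSet.rank (ords B))) ↔
      x ∈ toZ L (TT L A f) := by
    intro x
    rw [mem_toZ]
    constructor
    · rintro ⟨hx, B, hB, -, hS⟩
      obtain ⟨ξ, hξ, rfl⟩ := mem_toZFSet_iff.1 hx
      refine ⟨ξ, hξ, ⟨hξ, ?_⟩, rfl⟩
      rw [rank_toZFSet] at hS
      intro C hC
      obtain ⟨a, haC, haB⟩ := hS C hC
      refine ⟨a, haC, ?_⟩
      have h1 := (hB _).1 (mem_ords.1 haB)
      have h2 : a < L := toZFSet_mem_toZFSet_iff.1 h1.1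
      exact (P_iff hAf h2 hξ).1 h1.2
    · rintro ⟨ξ, hξ, ⟨-, hS⟩, rfl⟩
      refine ⟨mem_toZFSet_iff.2 ⟨ξ, hξ, rfl⟩, toZ L {a | a ∈ A ∧ f a = ξ}, ?_, ?_, ?_⟩
      · intro a
        rw [mem_toZ]
        constructor
        · rintro ⟨b, hb, hbA, rfl⟩
          exact ⟨mem_toZFSet_iff.2 ⟨b, hb, rfl⟩, (P_iff hAf hb hξ).2 hbA⟩
        · rintro ⟨h1, h2⟩
          obtain ⟨b, hb, rfl⟩ := mem_toZFSet_iff.1 h1
          exact ⟨b, hb, (P_iff hAf hb hξ).1 h2, rfl⟩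
      · exact ZFSet.isOrdinal_toZFSet L
      · rw [rank_toZFSet, ords_toZ]
        intro C hC
        obtain ⟨a, haC, haB⟩ := hS C hC
        exact ⟨a, haC, haB, hAL a haB.1⟩
  constructor
  · intro h
    ext x
    rw [h x, key x]
  · rintro rfl x
    exact (key x).symm

theorem isE_iff (hAf : ∀ a < L, ∀ x < L, (a ∈ A ∧ f a = x) ↔ P (oz (cns a (cns x p))))
    {t : Ordinal.{u} → Ordinal.{u}}
    (ht : ∀ i < L, t i ∈ TT L A f ∧ t i < L ∧ OT (TT L A f ∩ Set.Iio (t i)) i)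
    (ht' : ∀ i < L, ∀ x < L, x ∈ TT L A f → OT (TT L A f ∩ Set.Iio x) i → x = t i)
    {a i : Ordinal.{u}} (ha : a < L) (hi : i < L) :
    IsE P a.toZFSet i.toZFSet (toZ L (TT L A f)) (oz p) ↔ (a ∈ A ∧ f a = t i) := by
  constructor
  · rintro ⟨x, ⟨hxT, hxP⟩, Y, hY, -, hOT⟩
    obtain ⟨ξ, hξ, hξT, rfl⟩ := mem_toZ.1 hxT
    rw [rank_toZFSet] at hOT
    have e : ords Y = TT L A f ∩ Set.Iio ξ := by
      ext y
      rw [mem_ords, hY, mem_toZ, toZFSet_mem_toZFSet_iff]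
      constructor
      · rintro ⟨⟨b, hb, hbT, h⟩, h2⟩
        rw [toZFSet_injective h] at hbT
        exact ⟨hbT, h2⟩
      · rintro ⟨h1, h2⟩
        exact ⟨⟨y, (show y < ξ from h2).trans hξ, h1, rfl⟩, h2⟩
    rw [e] at hOT
    have h2 := ht' i hi ξ hξ hξT hOT
    rw [← h2]
    exact (P_iff hAf ha hξ).1 hxP
  · intro h
    obtain ⟨h1, h2, h3⟩ := ht i hi
    refine ⟨(t i).toZFSet, ⟨mem_toZ.2 ⟨t i, h2, h1, rfl⟩, (P_iff hAf ha h2).2 h⟩,
      toZ L (TT L A f ∩ Set.Iio (t i)), ?_, ZFSet.isOrdinal_toZFSet i, ?_⟩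
    · intro y
      rw [mem_toZ, mem_toZ]
      constructor
      · rintro ⟨b, hb, ⟨hbT, hb2⟩, rfl⟩
        exact ⟨⟨b, hb, hbT, rfl⟩, toZFSet_mem_toZFSet_iff.2 hb2⟩
      · rintro ⟨⟨b, hb, hbT, rfl⟩, h5⟩
        exact ⟨b, hb, ⟨hbT, toZFSet_mem_toZFSet_iff.1 h5⟩, rfl⟩
    · rw [rank_toZFSet, ords_toZ]
      have e : {a | a ∈ TT L A f ∩ Set.Iio (t i) ∧ a < L} = TT L A f ∩ Set.Iio (t i) := by
        ext y
        constructor
        · exact fun h => h.1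
        · exact fun h => ⟨h, (show y < t i from h.2).trans h2⟩
      rw [e]
      exact h3

end

end BD

open BD in
/-- HD-13 -/
theorem t_BD0 : S_BD0.{u} := by
  intro hST hCO hOT hHP hFO hNTH l hl hl0 k hk0 hkl hnot P p hP A f hA hreg hAf
  have hlim : Order.IsSuccLimit l.ord := Cardinal.isSuccLimit_ord hl0.le
  have hAL : ∀ a ∈ A, a < l.ord := fun a ha => (hA ha).1
  by_cases hb : ∃ b₀ < l.ord, ∀ x ∈ TT l.ord A f, x ≤ b₀
  · -- Case 1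
    obtain ⟨b₀, hb₀, hT⟩ := hb
    refine ⟨Order.succ b₀, hlim.succ_lt hb₀, ?_⟩
    have hR : ¬ Stat l.ord {a | a ∈ A ∧ f a ∉ TT l.ord A f} := by
      intro hS
      obtain ⟨x, hx, hSx⟩ := hFO l hl hl0 _ f hS fun a ha => hreg a ha.1
      have hxT : x ∈ TT l.ord A f := by
        refine ⟨hx, fun C hC => ?_⟩
        obtain ⟨a, haC, haS⟩ := hSx C hC
        exact ⟨a, haC, haS.1.1, haS.2⟩
      have hclub : Club l.ord (Set.Iio l.ord) := by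
        refine ⟨fun a ha => ha, fun b hb => ⟨Order.succ b, hlim.succ_lt hb, Order.lt_succ b⟩,
          fun d hd _ _ => hd⟩
      obtain ⟨a, -, ⟨⟨-, ha2⟩, ha3⟩⟩ := hSx _ hclub
      exact ha2 (by rw [ha3]; exact hxT)
    unfold Stat at hR
    push Not at hR
    obtain ⟨C, hC, hCR⟩ := hR
    refine ⟨C, hC, fun a ha haC => ?_⟩
    by_cases h : f a ∈ TT l.ord A f
    · exact Order.lt_succ_of_le (hT _ h)
    · exact absurd ⟨ha, h⟩ (hCR a haC)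
  · -- Case 2
    exfalso
    push Not at hb
    obtain ⟨t, ht, ht'⟩ := hNTH l hl (TT l.ord A f) fun b hbl => by
      obtain ⟨x, hx, hbx⟩ := hb b hbl
      exact ⟨x, hx, hbx, hx.1⟩
    have tinj : ∀ i < l.ord, ∀ j < l.ord, t i = t j → i = j := by
      intro i hi j hj h
      have h1 := (ht i hi).2.2
      have h2 := (ht j hj).2.2
      rw [h] at h1
      exact h1.unique h2
    have hk1 : (0 : Ordinal.{u}) < k := pos_iff_ne_zero.2 hk0
    apply hnot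
    refine ⟨fun i => {a | (i ≠ 0 ∧ (a ∈ A ∧ f a = t i)) ∨
      (i = 0 ∧ a ∈ SOm l.ord ∧ ∀ j, j ≠ 0 → j < k → ¬ (a ∈ A ∧ f a = t j))}, ?_, ?_, ?_, ?_⟩
    · refine hHP l.ord k _ (fun s => IsS P (s 0) (s 1) (s 2) (s 3) (fun n => s (n + 4)))
        (cns l.ord (cns k p)) (dfS hP hST hCO hOT) fun i hi a ha => ?_
      rw [oz_cns, oz_cns, oz_cns, oz_cns]
      change _ ↔ IsS P i.toZFSet a.toZFSet l.ord.toZFSet k.toZFSet (oz p)
      have hil : i < l.ord := hi.trans hkl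
      have e1 : IsS P i.toZFSet a.toZFSet l.ord.toZFSet k.toZFSet (oz p) ↔
          ((i ≠ 0 ∧ (a ∈ A ∧ f a = t i)) ∨ (¬ i ≠ 0 ∧ a.cof = ℵ₀ ∧
            ∀ j : Ordinal.{u}, j ≠ 0 → j < k → ¬ (a ∈ A ∧ f a = t j))) := by
        have e2 : (a.toZFSet.IsOrdinal ∧ a.toZFSet.rank.cof = ℵ₀) ↔ a.cof = ℵ₀ := by
          rw [rank_toZFSet]
          exact ⟨fun h => h.2, fun h => ⟨ZFSet.isOrdinal_toZFSet a, h⟩⟩
        have e3 : (∀ j, (∃ z, z ∈ j) → j ∈ k.toZFSet →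
            ¬ IsE P a.toZFSet j (toZ l.ord (TT l.ord A f)) (oz p)) ↔
            ∀ j : Ordinal.{u}, j ≠ 0 → j < k → ¬ (a ∈ A ∧ f a = t j) := by
          constructor
          · intro h j hj hjk
            rw [← isE_iff hAf ht ht' ha (hjk.trans hkl)]
            exact h _ ((exists_mem_toZFSet j).2 hj) (toZFSet_mem_toZFSet_iff.2 hjk)
          · intro h j hj hjk
            obtain ⟨j', hj', rfl⟩ := mem_toZFSet_iff.1 hjk
            rw [isE_iff hAf ht ht' ha (hj'.trans hkl)]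
            exact h j' ((exists_mem_toZFSet j').1 hj) hj'
        unfold IsS
        constructor
        · rintro ⟨T, hT, h⟩
          rw [(isT_iff hAL hAf T).1 hT, isE_iff hAf ht ht' ha hil, e2, e3,
            exists_mem_toZFSet] at h
          exact h
        · intro h
          refine ⟨_, (isT_iff hAL hAf _).2 rfl, ?_⟩
          rw [isE_iff hAf ht ht' ha hil, e2, e3, exists_mem_toZFSet]
          exact h
      rw [e1]
      constructor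
      · rintro (h | ⟨h1, h2, h3⟩)
        · exact Or.inl h
        · exact Or.inr ⟨fun h => h h1, h2.2, h3⟩
      · rintro (h | ⟨h1, h2, h3⟩)
        · exact Or.inl h
        · exact Or.inr ⟨not_not.1 h1, ⟨ha, h2⟩, h3⟩
    · intro i hi C hC
      have hil : i < l.ord := hi.trans hkl
      obtain ⟨a, haC, haA⟩ := (ht i hil).1.2 C hC
      refine ⟨a, haC, ?_⟩
      by_cases h0 : i = 0
      · refine Or.inr ⟨h0, hA haA.1, fun j hj hjk hj2 => ?_⟩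
        have h1 : t i = t j := haA.2.symm.trans hj2.2
        exact hj ((tinj i hil j (hjk.trans hkl) h1).symm.trans h0)
      · exact Or.inl ⟨h0, haA⟩
    · intro a
      constructor
      · rintro ⟨i, -, (⟨-, h⟩ | ⟨-, h, -⟩)⟩
        · exact hA h.1
        · exact h
      · intro ha
        by_cases h : ∃ j, j ≠ 0 ∧ j < k ∧ (a ∈ A ∧ f a = t j)
        · obtain ⟨j, hj, hjk, h⟩ := h
          exact ⟨j, hjk, Or.inl ⟨hj, h⟩⟩
        · refine ⟨0, hk1, Or.inr ⟨rfl, ha, fun j hj hjk hj2 => h ⟨j, hj, hjk, hj2⟩⟩⟩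
    · intro i hi j hj a hai haj
      rcases hai with ⟨hi0, hai⟩ | ⟨hi0, -, hai⟩ <;> rcases haj with ⟨hj0, haj⟩ | ⟨hj0, -, haj⟩
      · exact tinj i (hi.trans hkl) j (hj.trans hkl) (hai.2.symm.trans haj.2)
      · exact absurd hai (haj i hi0 hi)
      · exact absurd haj (hai j hj0 hj)
      · rw [hi0, hj0]

end Pool.Agent.NH86.HD
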