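import Pool.Agent.NH86.HD.Stm

/-! # Project HD: the calculus of definable relations (helper86) -/

set_option autoImplicit false

open Ordinal Cardinal Set

universe u

namespace Pool.Agent.NH86.HD

@[simp] theorem cns_zero {X : Type*} (a : X) (s : ℕ → X) : cns a s 0 = a := rfl
@[simp] theorem cns_succ {X : Type*} (a : X) (s : ℕ → X) (n : ℕ) : cns a s (n + 1) = s n := rfl

theorem cns_eta {X : Type*} (s : ℕ → X) : cns (s 0) (fun n => s (n + 1)) = s := by
  funext n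
  cases n <;> rfl

theorem oz_cns (a : Ordinal.{u}) (p : ℕ → Ordinal.{u}) : oz (cns a p) = cns a.toZFSet (oz p) := by
  funext n
  cases n <;> rfl

namespace Fm

/-- renaming of the variables -/
def ren : (ℕ → ℕ) → Fm → Fm
  | f, mem i j => mem (f i) (f j)
  | f, eq i j => eq (f i) (f j)
  | f, neg φ => neg (ren f φ)
  | f, and φ ψ => and (ren f φ) (ren f ψ)
  | f, ex φ => ex (ren (cns 0 fun n => f n + 1) φ)

end Fm

theorem sat_ren (φ : Fm) : ∀ (f : ℕ → ℕ) (s : ℕ → ZFSet.{u}), Sat (φ.ren f) s ↔ Sat φ fun n => s (f n) := by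
  induction φ with
  | mem i j => intro f s; rfl
  | eq i j => intro f s; rfl
  | neg φ ih => intro f s; exact not_congr (ih f s)
  | and φ ψ ih1 ih2 => intro f s; exact and_congr (ih1 f s) (ih2 f s)
  | ex φ ih =>
    intro f s
    refine exists_congr fun a => ?_
    refine (ih _ _).trans ?_
    have : (fun n => cns a s (cns 0 (fun n => f n + 1) n)) = cns a fun n => s (f n) := by
      funext n
      cases n <;> rfl
    rw [this]

/-- the truth of a formula depends on a finite number of variables -/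
theorem sat_supp (φ : Fm) : ∃ N : ℕ, ∀ s s' : ℕ → ZFSet.{u}, (∀ n < N, s n = s' n) →
    (Sat φ s ↔ Sat φ s') := by
  induction φ with
  | mem i j =>
    refine ⟨i + j + 1, fun s s' h => ?_⟩
    change s i ∈ s j ↔ s' i ∈ s' j
    rw [h i (by omega), h j (by omega)]
  | eq i j =>
    refine ⟨i + j + 1, fun s s' h => ?_⟩
    change s i = s j ↔ s' i = s' j
    rw [h i (by omega), h j (by omega)]
  | neg φ ih =>
    obtain ⟨N, hN⟩ := ih
    exact ⟨N, fun s s' h => not_congr (hN s s' h)⟩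
  | and φ ψ ih1 ih2 =>
    obtain ⟨N, hN⟩ := ih1
    obtain ⟨M, hM⟩ := ih2
    exact ⟨N + M, fun s s' h => and_congr (hN s s' fun n hn => h n (by omega))
      (hM s s' fun n hn => h n (by omega))⟩
  | ex φ ih =>
    obtain ⟨N, hN⟩ := ih
    refine ⟨N, fun s s' h => exists_congr fun a => hN _ _ fun n hn => ?_⟩
    cases n with
    | zero => rfl
    | succ n => exact h n (by omega)

namespace Df

variable {P Q : (ℕ → ZFSet.{u}) → Prop}

theorem congr (h : Df P) (hPQ : ∀ s, P s ↔ Q s) : Df Q := by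
  obtain ⟨φ, hφ⟩ := h
  exact ⟨φ, fun s => (hφ s).trans (hPQ s)⟩

theorem mem (i j : ℕ) : Df.{u} fun s => s i ∈ s j := ⟨.mem i j, fun _ => Iff.rfl⟩

theorem eq (i j : ℕ) : Df.{u} fun s => s i = s j := ⟨.eq i j, fun _ => Iff.rfl⟩

theorem not (h : Df P) : Df fun s => ¬ P s := by
  obtain ⟨φ, hφ⟩ := h
  exact ⟨.neg φ, fun s => not_congr (hφ s)⟩

theorem and (h : Df P) (h' : Df Q) : Df fun s => P s ∧ Q s := by
  obtain ⟨φ, hφ⟩ := h
  obtain ⟨ψ, hψ⟩ := h'
  exact ⟨.and φ ψ, fun s => and_congr (hφ s) (hψ s)⟩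

theorem or (h : Df P) (h' : Df Q) : Df fun s => P s ∨ Q s :=
  (h.not.and h'.not).not.congr fun s => by tauto

theorem imp (h : Df P) (h' : Df Q) : Df fun s => P s → Q s :=
  (h.not.or h').congr fun s => by tauto

theorem iff (h : Df P) (h' : Df Q) : Df fun s => P s ↔ Q s :=
  ((h.imp h').and (h'.imp h)).congr fun s => by tauto

theorem true : Df.{u} fun _ => True := (Df.eq 0 0).congr fun s => by simp

/-- renaming of the variables -/
theorem ren (h : Df P) (f : ℕ → ℕ) : Df fun s => P fun n => s (f n) := by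
  obtain ⟨φ, hφ⟩ := h
  exact ⟨φ.ren f, fun s => (sat_ren φ f s).trans (hφ _)⟩

/-- existential quantifier: `fun s => ∃ a, R a s` with `R` definable as `fun s => R (s 0) (tail s)` -/
theorem ex {R : ZFSet.{u} → (ℕ → ZFSet.{u}) → Prop} (h : Df fun s => R (s 0) fun n => s (n + 1)) :
    Df fun s => ∃ a, R a s := by
  obtain ⟨φ, hφ⟩ := h
  exact ⟨.ex φ, fun s => exists_congr fun a => hφ _⟩

theorem all {R : ZFSet.{u} → (ℕ → ZFSet.{u}) → Prop} (h : Df fun s => R (s 0) fun n => s (n + 1)) :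
    Df fun s => ∀ a, R a s :=
  (Df.ex (R := fun a s => ¬ R a s) h.not).not.congr fun s => by simp

/-- a relation `R (s 0) (s 1)` in any two variables -/
theorem sub2 {R : ZFSet.{u} → ZFSet.{u} → Prop} (h : Df fun s => R (s 0) (s 1)) (i j : ℕ) :
    Df fun s => R (s i) (s j) :=
  h.ren fun n => if n = 0 then i else j

theorem sub1 {R : ZFSet.{u} → Prop} (h : Df fun s => R (s 0)) (i : ℕ) : Df fun s => R (s i) :=
  h.ren fun _ => i

theorem sub3 {R : ZFSet.{u} → ZFSet.{u} → ZFSet.{u} → Prop} (h : Df fun s => R (s 0) (s 1) (s 2))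
    (i j k : ℕ) : Df fun s => R (s i) (s j) (s k) :=
  h.ren fun n => if n = 0 then i else if n = 1 then j else k

theorem sub4 {R : ZFSet.{u} → ZFSet.{u} → ZFSet.{u} → ZFSet.{u} → Prop}
    (h : Df fun s => R (s 0) (s 1) (s 2) (s 3)) (i j k l : ℕ) :
    Df fun s => R (s i) (s j) (s k) (s l) :=
  h.ren fun n => if n = 0 then i else if n = 1 then j else if n = 2 then k else l

theorem subset (i j : ℕ) : Df.{u} fun s => s i ⊆ s j := by
  have h : Df.{u} fun s => ∀ a, a ∈ s i → a ∈ s j :=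
    Df.all (R := fun a s => a ∈ s i → a ∈ s j) ((Df.mem 0 (i + 1)).imp (Df.mem 0 (j + 1)))
  exact h.congr fun s => Iff.rfl

theorem isTransitive (i : ℕ) : Df.{u} fun s => (s i).IsTransitive := by
  have h : Df.{u} fun s => ∀ a, a ∈ s i → a ⊆ s i :=
    Df.all (R := fun a s => a ∈ s i → a ⊆ s i) ((Df.mem 0 (i + 1)).imp (Df.subset 0 (i + 1)))
  exact h.congr fun s => Iff.rfl

theorem isOrdinal (i : ℕ) : Df.{u} fun s => (s i).IsOrdinal := by
  have h : Df.{u} fun s => (s i).IsTransitive ∧ ∀ a, a ∈ s i → a.IsTransitive :=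
    (Df.isTransitive i).and (Df.all (R := fun a s => a ∈ s i → a.IsTransitive)
      ((Df.mem 0 (i + 1)).imp (Df.isTransitive 0)))
  refine h.congr fun s => ?_
  rw [ZFSet.isOrdinal_iff_forall_mem_isTransitive]

/-- quantification over the ordinals -/
theorem exOrd {R : ZFSet.{u} → (ℕ → ZFSet.{u}) → Prop} (h : Df fun s => R (s 0) fun n => s (n + 1)) :
    Df fun s => ∃ a : Ordinal.{u}, R a.toZFSet s := by
  refine (Df.ex (R := fun a s => a.IsOrdinal ∧ R a s) ((Df.isOrdinal 0).and h)).congr fun s => ?_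
  constructor
  · rintro ⟨a, ha, hR⟩
    exact ⟨a.rank, by rwa [ha.toZFSet_rank_eq]⟩
  · rintro ⟨a, hR⟩
    exact ⟨a.toZFSet, ZFSet.isOrdinal_toZFSet a, hR⟩

theorem allOrd {R : ZFSet.{u} → (ℕ → ZFSet.{u}) → Prop} (h : Df fun s => R (s 0) fun n => s (n + 1)) :
    Df fun s => ∀ a : Ordinal.{u}, R a.toZFSet s :=
  (Df.exOrd (R := fun a s => ¬ R a s) h.not).not.congr fun s => by simp

/-- `s i = {s j, s k}` -/
theorem upair (i j k : ℕ) : Df.{u} fun s => s i = {s j, s k} := by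
  have h : Df.{u} fun s => ∀ a, a ∈ s i ↔ (a = s j ∨ a = s k) :=
    Df.all (R := fun a s => a ∈ s i ↔ (a = s j ∨ a = s k))
      ((Df.mem 0 (i + 1)).iff ((Df.eq 0 (j + 1)).or (Df.eq 0 (k + 1))))
  refine h.congr fun s => ?_
  rw [ZFSet.ext_iff]
  simp

/-- `s i = pair (s j) (s k)` -/
theorem pair (i j k : ℕ) : Df.{u} fun s => s i = ZFSet.pair (s j) (s k) := by
  have h : Df.{u} fun s => ∃ a, a = {s j, s j} ∧ ∃ b, b = {s j, s k} ∧ s i = {a, b} :=
    Df.ex (R := fun a s => a = {s j, s j} ∧ ∃ b, b = {s j, s k} ∧ s i = {a, b})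
      ((Df.upair 0 (j + 1) (j + 1)).and
        (Df.ex (R := fun b s => b = {s (j + 1), s (k + 1)} ∧ s (i + 1) = {s 0, b})
          ((Df.upair 0 (j + 2) (k + 2)).and (Df.upair (i + 2) 1 0))))
  refine h.congr fun s => ?_
  simp [ZFSet.pair]

/-- `pair (s i) (s j) ∈ s k` -/
theorem pairMem (i j k : ℕ) : Df.{u} fun s => ZFSet.pair (s i) (s j) ∈ s k := by
  refine (Df.ex (R := fun a s => a = ZFSet.pair (s i) (s j) ∧ a ∈ s k)
    ((Df.pair 0 (i + 1) (j + 1)).and (Df.mem 0 (k + 1)))).congr fun s => ?_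
  simp

end Df

theorem mem_ords {x : ZFSet.{u}} {a : Ordinal.{u}} : a ∈ ords x ↔ a.toZFSet ∈ x := Iff.rfl

theorem mem_toZ {l : Ordinal.{u}} {A : Set Ordinal.{u}} {x : ZFSet.{u}} :
    x ∈ toZ l A ↔ ∃ a < l, a ∈ A ∧ a.toZFSet = x := by
  unfold toZ
  rw [ZFSet.mem_sep, mem_toZFSet_iff]
  constructor
  · rintro ⟨⟨a, ha, rfl⟩, b, hb, hab⟩
    rw [toZFSet_injective hab] at hb
    exact ⟨a, ha, hb, rfl⟩
  · rintro ⟨a, ha, hA, rfl⟩
    exact ⟨⟨a, ha, rfl⟩, a, hA, rfl⟩

theorem ords_toZ {l : Ordinal.{u}} {A : Set Ordinal.{u}} : ords (toZ l A) = {a | a ∈ A ∧ a < l} := by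
  ext a
  rw [mem_ords, mem_toZ]
  constructor
  · rintro ⟨b, hb, hA, h⟩
    rw [toZFSet_injective h] at hb hA
    exact ⟨hA, hb⟩
  · rintro ⟨h1, h2⟩
    exact ⟨a, h2, h1, rfl⟩

theorem ords_toZFSet (a : Ordinal.{u}) : ords a.toZFSet = Set.Iio a := by
  ext b
  rw [mem_ords, toZFSet_mem_toZFSet_iff]
  rfl

/-- the sets definable from a set and ordinals, by a definable relation -/
theorem OD.of_df {P : (ℕ → ZFSet.{u}) → Prop} (hP : Df P) (p : ℕ → Ordinal.{u}) {x : ZFSet.{u}}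
    (h : ∀ y, P (cns y (oz p)) ↔ y = x) : OD x := by
  obtain ⟨φ, hφ⟩ := hP
  exact ⟨φ, p, fun y => (hφ _).trans (h y)⟩

theorem OD.ord (a : Ordinal.{u}) : OD a.toZFSet :=
  OD.of_df (Df.eq 0 1) (fun _ => a) fun _ => Iff.rfl

/-! ### Order types -/

theorem le_apply_of_strictMonoOn {a : Ordinal.{u}} {n : Ordinal.{u} → Ordinal.{u}}
    (h : StrictMonoOn n (Set.Iio a)) : ∀ i < a, i ≤ n i := by
  intro i
  induction i using WellFoundedLT.induction with
  | ind i ih =>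
    intro hi
    by_contra hc
    rw [not_le] at hc
    have h1 := ih (n i) hc (hc.trans hi)
    have h2 := h (hc.trans hi) hi hc
    exact absurd h2 (not_lt.2 h1)

theorem le_of_strictMonoOn {a v : Ordinal.{u}} {n : Ordinal.{u} → Ordinal.{u}}
    (h : StrictMonoOn n (Set.Iio a)) (hv : ∀ i < a, n i < v) : a ≤ v := by
  by_contra hc
  rw [not_le] at hc
  exact absurd (hv v hc) (not_lt.2 (le_apply_of_strictMonoOn h v hc))

theorem OT.le_of {E E' : Set Ordinal.{u}} {v w : Ordinal.{u}} (h : OT E v) (h' : OT E' w)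
    (hE : E ⊆ E') : v ≤ w := by
  obtain ⟨f, hf, rfl⟩ := h
  obtain ⟨g, hg, rfl⟩ := h'
  have hn : ∀ i, ∃ j, i < v → j < w ∧ g j = f i := by
    intro i
    by_cases hi : i < v
    · obtain ⟨j, hj, hj'⟩ := hE ⟨i, hi, rfl⟩
      exact ⟨j, fun _ => ⟨hj, hj'⟩⟩
    · exact ⟨0, fun h => absurd h hi⟩
  choose n hn using hn
  refine le_of_strictMonoOn (n := n) ?_ fun i hi => (hn i hi).1
  intro i hi j hj hij
  have h1 := hf hi hj hij
  rw [← (hn i hi).2, ← (hn j hj).2] at h1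
  by_contra hc
  rw [not_lt] at hc
  exact absurd h1 (not_lt.2 (hg.monotoneOn (hn j hj).1 (hn i hi).1 hc))

theorem OT.unique {E : Set Ordinal.{u}} {v w : Ordinal.{u}} (h : OT E v) (h' : OT E w) : v = w :=
  le_antisymm (h.le_of h' subset_rfl) (h'.le_of h subset_rfl)

end Pool.Agent.NH86.HD
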