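import Pool.Agent.NH86.HD.Base

/-!
# Diagonal intersections of closed unbounded sets
-/

set_option autoImplicit false

open Ordinal Cardinal Set

universe u

namespace Pool.Agent.NH86.HD

theorem t_CD0 : S_CD0.{u} := by
  classical
  intro hCI l hl hl0 C hC
  have hlim : Order.IsSuccLimit l.ord := Cardinal.isSuccLimit_ord hl.aleph0_le
  refine ⟨fun a ha => ha.1, fun b₀ hb₀ => ?_, fun d hd hd0 hdc => ⟨hd, fun b hb => ?_⟩⟩
  · have hex : ∀ x : Ordinal.{u}, ∃ c : Ordinal.{u}, x < l.ord → c < l.ord ∧ x < c ∧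
        ∀ b ≤ x, c ∈ C b := by
      intro x
      by_cases hx : x < l.ord
      · have hsx : Order.succ x < l.ord := hlim.succ_lt hx
        have hcard : #(Order.succ x).ToType < l := by
          rw [Cardinal.mk_toType]
          exact Cardinal.lt_ord.1 hsx
        have h1 := hCI l hl hl0 (Order.succ x).ToType
          (fun j => C ((Ordinal.ToType.mk.symm j : Set.Iio (Order.succ x)) : Ordinal.{u})) hcard
          (fun j => hC _ (lt_trans (Ordinal.ToType.mk.symm j : Set.Iio (Order.succ x)).2 hsx))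
        obtain ⟨c, ⟨hcl, hc⟩, hxc⟩ := h1.2.1 x hx
        refine ⟨c, fun _ => ⟨hcl, hxc, fun b hb => ?_⟩⟩
        have h2 := hc (Ordinal.ToType.mk ⟨b, Order.lt_succ_of_le hb⟩)
        rwa [OrderIso.symm_apply_apply] at h2
      · exact ⟨0, fun h => absurd h hx⟩
    choose g hg using hex
    obtain ⟨h, h0, hs⟩ : ∃ h : ℕ → Ordinal.{u}, h 0 = b₀ ∧ ∀ n, h (n + 1) = g (h n) :=
      ⟨fun n => g^[n] b₀, rfl, fun n => Function.iterate_succ_apply' g n b₀⟩
    have hhl : ∀ n, h n < l.ord := by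
      intro n
      induction n with
      | zero => rw [h0]; exact hb₀
      | succ n ih => rw [hs]; exact (hg _ ih).1
    have hdl : (⨆ n : ℕ, h n) < l.ord := by
      have h1 : Cardinal.lift.{u, 0} #ℕ < l := by
        rw [Cardinal.mk_nat, Cardinal.lift_aleph0]
        exact hl0
      exact iSup_lt_ord_lift_of_isRegular hl h1 hhl
    have hstep : ∀ n, h n < h (n + 1) := by
      intro n
      rw [hs]
      exact (hg _ (hhl n)).2.1
    have hmono : StrictMono h := strictMono_nat_of_lt_succ hstep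
    have hlt : ∀ n, h n < ⨆ n : ℕ, h n := fun n =>
      lt_of_lt_of_le (hstep n) (Ordinal.le_iSup h (n + 1))
    refine ⟨⨆ n : ℕ, h n, ⟨hdl, fun b hb => ?_⟩, ?_⟩
    · obtain ⟨n, hn⟩ := Ordinal.lt_iSup_iff.1 hb
      refine (hC b (hb.trans hdl)).2.2 _ hdl ?_ fun x hx => ?_
      · exact (lt_of_le_of_lt (bot_le (α := Ordinal.{u})) (hlt 0)).ne'
      · obtain ⟨m, hm⟩ := Ordinal.lt_iSup_iff.1 hx
        refine ⟨h (max n m + 1), ?_, ?_, hlt _⟩
        · rw [hs]
          exact (hg _ (hhl _)).2.2 b (hn.le.trans (hmono.monotone (le_max_left n m)))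
        · exact hm.trans_le (hmono.monotone (by omega))
    · have h1 := hlt 0
      rwa [h0] at h1
  · refine (hC b (hb.trans hd)).2.2 d hd hd0 fun x hx => ?_
    obtain ⟨c, hc, hbc⟩ := hdc (max b x) (max_lt hb hx)
    exact ⟨c, hc.2 b (lt_of_le_of_lt (le_max_left _ _) hbc.1),
      lt_of_le_of_lt (le_max_right _ _) hbc.1, hbc.2⟩

end Pool.Agent.NH86.HD
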