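import Pool.Agent.NH86.HD.Base

/-! # Project HD, part HD-2: cofinality omega is definable -/

set_option autoImplicit false

open Ordinal Cardinal Set

universe u

namespace Pool.Agent.NH86.HD

namespace DCO

theorem exists_seq {a : Ordinal.{u}} (ha : a.cof = ℵ₀) : ∃ F : ℕ → Ordinal.{u}, StrictMono F ∧
    (∀ n, F n < a) ∧ ∀ b < a, ∃ n, b ≤ F n := by
  obtain ⟨f, hf⟩ := exists_isFundamentalSeq (o := a) (a := ω) (by rw [ha, ord_aleph0])
  refine ⟨fun n => (f ⟨n, natCast_lt_omega0 n⟩).1, ?_, fun n => (f _).2, ?_⟩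
  · intro m n hmn
    apply hf.strictMono
    change (m : Ordinal.{u}) < n
    exact_mod_cast hmn
  · intro b hb
    obtain ⟨_, ⟨⟨c, hc⟩, rfl⟩, hbc⟩ := hf.isCofinal_range ⟨b, hb⟩
    obtain ⟨n, rfl⟩ := lt_omega0.1 hc
    exact ⟨n, hbc⟩

theorem cof_iff (a : Ordinal.{u}) : a.cof = ℵ₀ ↔ a ≠ 0 ∧ ∃ D : Set Ordinal.{u}, (∀ x ∈ D, x < a) ∧
    Cf a D ∧ ∀ d < a, d ≠ 0 → ¬ Cf d D := by
  constructor
  · intro ha
    refine ⟨?_, ?_⟩
    · rintro rfl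
      rw [cof_zero] at ha
      exact aleph0_ne_zero ha.symm
    · obtain ⟨F, hF, hFa, hcof⟩ := exists_seq ha
      refine ⟨Set.range F, ?_, ?_, ?_⟩
      · rintro x ⟨n, rfl⟩
        exact hFa n
      · intro b hb
        obtain ⟨n, hn⟩ := hcof b hb
        exact ⟨F (n + 1), ⟨n + 1, rfl⟩, hn.trans_lt (hF (Nat.lt_succ_self n)), hFa _⟩
      · intro d hd hd0 hcf
        classical
        have hex : ∃ n, d ≤ F n := hcof d hd
        have hN := Nat.find_spec hex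
        rcases Nat.eq_zero_or_pos (Nat.find hex) with h0 | h0
        · obtain ⟨c, ⟨k, rfl⟩, _, hk⟩ := hcf 0 (pos_iff_ne_zero.2 hd0)
          rw [h0] at hN
          exact absurd (hk.trans_le hN) (not_lt.2 (hF.monotone (Nat.zero_le k)))
        · obtain ⟨M, hM⟩ : ∃ M, Nat.find hex = M + 1 := ⟨Nat.find hex - 1, by omega⟩
          have hMd : F M < d := by
            rw [← not_le]
            exact Nat.find_min hex (by omega)
          obtain ⟨c, ⟨k, rfl⟩, hMk, hk⟩ := hcf (F M) hMd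
          have h1 : M < k := hF.lt_iff_lt.1 hMk
          rw [hM] at hN
          exact absurd (hk.trans_le hN) (not_lt.2 (hF.monotone h1))
  · rintro ⟨ha0, D, hD, hcf, hmin⟩
    obtain ⟨c0, hc0, _, _⟩ := hcf 0 (pos_iff_ne_zero.2 ha0)
    have hnext : ∀ x : D, ∃ y : D, x.1 < y.1 := by
      intro x
      obtain ⟨y, hy, hxy, _⟩ := hcf x.1 (hD _ x.2)
      exact ⟨⟨y, hy⟩, hxy⟩
    choose nx hnx using hnext
    let c : ℕ → D := fun n => nx^[n] ⟨c0, hc0⟩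
    have hc : StrictMono fun n => (c n).1 := by
      apply strictMono_nat_of_lt_succ
      intro n
      change (nx^[n] ⟨c0, hc0⟩).1 < (nx^[n + 1] ⟨c0, hc0⟩).1
      rw [Function.iterate_succ_apply']
      exact hnx _
    set d := ⨆ n, (c n).1 with hd
    have hda : d ≤ a := Ordinal.iSup_le fun n => (hD _ (c n).2).le
    have hcd : ∀ n, (c n).1 < d := fun n =>
      (hc (Nat.lt_succ_self n)).trans_le (Ordinal.le_iSup (fun n => (c n).1) (n + 1))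
    have hda' : d = a := by
      by_contra hne
      refine hmin d (lt_of_le_of_ne hda hne) ?_ ?_
      · exact (zero_le.trans_lt (hcd 0)).ne'
      · intro b hb
        obtain ⟨n, hn⟩ := (Ordinal.lt_iSup_iff).1 hb
        exact ⟨(c n).1, (c n).2, hn, hcd n⟩
    have h1 := lift_cof_iSup.{u} hc
    rw [← hd, hda'] at h1
    simpa using h1

/-- `D` is cofinal in `a`, in terms of sets -/
def CfZ (a D : ZFSet.{u}) : Prop := ∀ b, b ∈ a → ∃ c, c ∈ D ∧ b ∈ c ∧ c ∈ a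

theorem cfZ_iff (a : Ordinal.{u}) (D : ZFSet.{u}) : CfZ a.toZFSet D ↔ Cf a (ords D) := by
  constructor
  · intro h b hb
    obtain ⟨c, hc, hbc, hca⟩ := h b.toZFSet (toZFSet_mem_toZFSet_iff.2 hb)
    obtain ⟨c', hc', rfl⟩ := mem_toZFSet_iff.1 hca
    exact ⟨c', hc, toZFSet_mem_toZFSet_iff.1 hbc, hc'⟩
  · intro h b hb
    obtain ⟨b', hb', rfl⟩ := mem_toZFSet_iff.1 hb
    obtain ⟨c, hc, hbc, hca⟩ := h b' hb'
    exact ⟨c.toZFSet, hc, toZFSet_mem_toZFSet_iff.2 hbc, toZFSet_mem_toZFSet_iff.2 hca⟩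

theorem df_cfZ : Df.{u} fun s => CfZ (s 0) (s 1) :=
  Df.all (R := fun b s => b ∈ s 0 → ∃ c, c ∈ s 1 ∧ b ∈ c ∧ c ∈ s 0)
    ((Df.mem 0 1).imp (Df.ex (R := fun c s => c ∈ s 2 ∧ s 0 ∈ c ∧ c ∈ s 1)
      ((Df.mem 0 3).and ((Df.mem 1 0).and (Df.mem 0 2)))))

theorem df_ne (i : ℕ) : Df.{u} fun s => ∃ x, x ∈ s i :=
  Df.ex (R := fun x s => x ∈ s i) (Df.mem 0 (i + 1))

end DCO

open DCO in
theorem t_DCO : S_DCO.{u} := by
  have h : Df.{u} fun s => (s 0).IsOrdinal ∧ (∃ x, x ∈ s 0) ∧ ∃ D, (∀ x, x ∈ D → x ∈ s 0) ∧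
      CfZ (s 0) D ∧ ∀ d, d ∈ s 0 → (∃ x, x ∈ d) → ¬ CfZ d D :=
    (Df.isOrdinal 0).and ((df_ne 0).and
      (Df.ex (R := fun D s => (∀ x, x ∈ D → x ∈ s 0) ∧
          CfZ (s 0) D ∧ ∀ d, d ∈ s 0 → (∃ x, x ∈ d) → ¬ CfZ d D)
        ((Df.subset 0 1).and ((df_cfZ.sub2 1 0).and
          (Df.all (R := fun d s => d ∈ s 1 → (∃ x, x ∈ d) → ¬ CfZ d (s 0))
            ((Df.mem 0 2).imp ((df_ne 0).imp (df_cfZ.sub2 0 1).not)))))))
  refine h.congr fun s => and_congr_right fun h0 => ?_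
  obtain ⟨a, ha⟩ : ∃ a : Ordinal.{u}, s 0 = a.toZFSet := ⟨(s 0).rank, (h0.toZFSet_rank_eq).symm⟩
  have hne : ∀ d : Ordinal.{u}, (∃ x, x ∈ d.toZFSet) ↔ d ≠ 0 := by
    intro d
    constructor
    · rintro ⟨x, hx⟩ rfl
      obtain ⟨b, hb, _⟩ := mem_toZFSet_iff.1 hx
      exact not_lt_zero hb
    · intro hd
      exact ⟨(0 : Ordinal).toZFSet, toZFSet_mem_toZFSet_iff.2 (pos_iff_ne_zero.2 hd)⟩
  rw [ha, rank_toZFSet, cof_iff, hne]
  refine and_congr_right fun _ => ?_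
  constructor
  · rintro ⟨D, h1, h2, h3⟩
    refine ⟨ords D, ?_, (cfZ_iff a D).1 h2, ?_⟩
    · intro x hx
      exact toZFSet_mem_toZFSet_iff.1 (h1 _ hx)
    · intro d hd hd0 hcf
      exact h3 d.toZFSet (toZFSet_mem_toZFSet_iff.2 hd) ((hne d).2 hd0) ((cfZ_iff d D).2 hcf)
  · rintro ⟨D, h1, h2, h3⟩
    have hD : ords (toZ a D) = D := by
      rw [ords_toZ]
      ext x
      exact ⟨fun hx => hx.1, fun hx => ⟨hx, h1 x hx⟩⟩
    refine ⟨toZ a D, ?_, ?_, ?_⟩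
    · intro x hx
      obtain ⟨b, hb, _, rfl⟩ := mem_toZ.1 hx
      exact toZFSet_mem_toZFSet_iff.2 hb
    · rw [cfZ_iff, hD]
      exact h2
    · intro d hd hd0 hcf
      obtain ⟨d', hd', rfl⟩ := mem_toZFSet_iff.1 hd
      rw [cfZ_iff, hD] at hcf
      exact h3 d' hd' ((hne d').1 hd0) hcf

end Pool.Agent.NH86.HD
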