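import Pool.Agent.NH86.HD.Base

/-! # HD-3: order types are definable -/

set_option autoImplicit false

open Ordinal Cardinal Set

universe u

namespace Pool.Agent.NH86.HD

namespace DOT

/-- `g` is the graph of an increasing bijection from `v` to the ordinals of `D` -/
def Gr (v D g : ZFSet.{u}) : Prop :=
  (∀ i : Ordinal.{u}, i.toZFSet ∈ v → ∃ x : Ordinal.{u}, x.toZFSet ∈ D ∧
    ZFSet.pair i.toZFSet x.toZFSet ∈ g) ∧
  (∀ x : Ordinal.{u}, x.toZFSet ∈ D → ∃ i : Ordinal.{u}, i.toZFSet ∈ v ∧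
    ZFSet.pair i.toZFSet x.toZFSet ∈ g) ∧
  ∀ i j x y : Ordinal.{u}, i.toZFSet ∈ v → j.toZFSet ∈ v → ZFSet.pair i.toZFSet x.toZFSet ∈ g →
    ZFSet.pair j.toZFSet y.toZFSet ∈ g → (i.toZFSet ∈ j.toZFSet ↔ x.toZFSet ∈ y.toZFSet)

theorem df_gr : Df.{u} fun s => Gr (s 1) (s 2) (s 0) := by
  refine Df.and ?_ (Df.and ?_ ?_)
  · exact Df.allOrd (R := fun i s => i ∈ s 1 → ∃ x : Ordinal.{u}, x.toZFSet ∈ s 2 ∧
      ZFSet.pair i x.toZFSet ∈ s 0) ((Df.mem 0 2).imp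
      (Df.exOrd (R := fun x s => x ∈ s 3 ∧ ZFSet.pair (s 0) x ∈ s 1)
        ((Df.mem 0 4).and (Df.pairMem 1 0 2))))
  · exact Df.allOrd (R := fun x s => x ∈ s 2 → ∃ i : Ordinal.{u}, i.toZFSet ∈ s 1 ∧
      ZFSet.pair i.toZFSet x ∈ s 0) ((Df.mem 0 3).imp
      (Df.exOrd (R := fun i s => i ∈ s 2 ∧ ZFSet.pair i (s 0) ∈ s 1)
        ((Df.mem 0 3).and (Df.pairMem 0 1 2))))
  · exact Df.allOrd (R := fun i s => ∀ j x y : Ordinal.{u}, i ∈ s 1 → j.toZFSet ∈ s 1 →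
      ZFSet.pair i x.toZFSet ∈ s 0 → ZFSet.pair j.toZFSet y.toZFSet ∈ s 0 →
      (i ∈ j.toZFSet ↔ x.toZFSet ∈ y.toZFSet))
      (Df.allOrd (R := fun j s => ∀ x y : Ordinal.{u}, s 0 ∈ s 2 → j ∈ s 2 →
        ZFSet.pair (s 0) x.toZFSet ∈ s 1 → ZFSet.pair j y.toZFSet ∈ s 1 →
        (s 0 ∈ j ↔ x.toZFSet ∈ y.toZFSet))
        (Df.allOrd (R := fun x s => ∀ y : Ordinal.{u}, s 1 ∈ s 3 → s 0 ∈ s 3 →
          ZFSet.pair (s 1) x ∈ s 2 → ZFSet.pair (s 0) y.toZFSet ∈ s 2 →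
          (s 1 ∈ s 0 ↔ x ∈ y.toZFSet))
          (Df.allOrd (R := fun y s => s 2 ∈ s 4 → s 1 ∈ s 4 →
            ZFSet.pair (s 2) (s 0) ∈ s 3 → ZFSet.pair (s 1) y ∈ s 3 →
            (s 2 ∈ s 1 ↔ s 0 ∈ y))
            ((Df.mem 3 5).imp ((Df.mem 2 5).imp ((Df.pairMem 3 1 4).imp ((Df.pairMem 2 0 4).imp
              ((Df.mem 3 2).iff (Df.mem 1 0)))))))))

theorem ot_iff (v : Ordinal.{u}) (D : ZFSet.{u}) : OT (ords D) v ↔ ∃ g, Gr v.toZFSet D g := by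
  unfold Gr
  simp only [toZFSet_mem_toZFSet_iff]
  constructor
  · rintro ⟨f, hf, hD⟩
    have hmem : ∀ i x : Ordinal.{u}, ZFSet.pair i.toZFSet x.toZFSet ∈
        ZFSet.range (fun i : Set.Iio v => ZFSet.pair i.1.toZFSet (f i.1).toZFSet) ↔
        i < v ∧ f i = x := by
      intro i x
      rw [ZFSet.mem_range]
      constructor
      · rintro ⟨j, hj⟩
        rw [ZFSet.pair_inj] at hj
        have h1 := toZFSet_injective hj.1
        have h2 := toZFSet_injective hj.2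
        rw [← h1]
        exact ⟨j.2, h2⟩
      · rintro ⟨hi, rfl⟩
        exact ⟨⟨i, hi⟩, rfl⟩
    refine ⟨ZFSet.range (fun i : Set.Iio v => ZFSet.pair i.1.toZFSet (f i.1).toZFSet), ?_, ?_, ?_⟩
    · intro i hi
      refine ⟨f i, ?_, (hmem i _).2 ⟨hi, rfl⟩⟩
      rw [← mem_ords, hD]
      exact ⟨i, hi, rfl⟩
    · intro x hx
      rw [← mem_ords, hD] at hx
      obtain ⟨i, hi, rfl⟩ := hx
      exact ⟨i, hi, (hmem i _).2 ⟨hi, rfl⟩⟩
    · intro i j x y hi hj h1 h2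
      rw [hmem] at h1 h2
      rw [← h1.2, ← h2.2]
      exact (hf.lt_iff_lt hi hj).symm
  · rintro ⟨g, h1, h2, h3⟩
    have h4 : ∀ i, ∃ x : Ordinal.{u}, i < v → x.toZFSet ∈ D ∧
        ZFSet.pair i.toZFSet x.toZFSet ∈ g := by
      intro i
      by_cases hi : i < v
      · obtain ⟨x, hx⟩ := h1 i hi
        exact ⟨x, fun _ => hx⟩
      · exact ⟨0, fun h => absurd h hi⟩
    choose f hf using h4
    refine ⟨f, ?_, ?_⟩
    · intro i hi j hj hij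
      exact (h3 i j _ _ hi hj (hf i hi).2 (hf j hj).2).1 hij
    · ext x
      rw [mem_ords]
      constructor
      · intro hx
        obtain ⟨i, hi, hg⟩ := h2 x hx
        refine ⟨i, hi, ?_⟩
        have h5 := h3 i i x (f i) hi hi hg (hf i hi).2
        have h6 := h3 i i (f i) x hi hi (hf i hi).2 hg
        refine le_antisymm (not_lt.1 fun h => ?_) (not_lt.1 fun h => ?_)
        · exact lt_irrefl i (h5.2 h)
        · exact lt_irrefl i (h6.2 h)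
      · rintro ⟨i, hi, rfl⟩
        exact (hf i hi).1

end DOT

theorem t_DOT : S_DOT.{u} := by
  refine ((Df.isOrdinal 0).and (Df.ex (R := fun g s => DOT.Gr (s 0) (s 1) g) DOT.df_gr)).congr
    fun s => and_congr_right fun hs => ?_
  have h := DOT.ot_iff (s 0).rank (s 1)
  rw [hs.toZFSet_rank_eq] at h
  exact h.symm

end Pool.Agent.NH86.HD
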