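import Pool.Agent.NH86.HD.Base

/-! # Project HD, part HD-1: stationarity is definable (helper17) -/

set_option autoImplicit false

open Ordinal Cardinal Set

universe u

namespace Pool.Agent.NH86.HD

namespace DST

/-- `C` is a closed unbounded subset of `L` -/
def K (C L : ZFSet.{u}) : Prop :=
  (∀ x, x ∈ C → x ∈ L) ∧ (∀ b, b ∈ L → ∃ c, c ∈ C ∧ b ∈ c) ∧
    ∀ d, d ∈ L → (∃ x, x ∈ d) → (∀ b, b ∈ d → ∃ c, c ∈ C ∧ b ∈ c ∧ c ∈ d) → d ∈ C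

theorem df_K : Df.{u} fun s => K (s 0) (s 1) := by
  have h1 : Df.{u} fun s => ∀ x, x ∈ s 0 → x ∈ s 1 :=
    Df.all (R := fun x s => x ∈ s 0 → x ∈ s 1) ((Df.mem 0 1).imp (Df.mem 0 2))
  have h2 : Df.{u} fun s => ∀ b, b ∈ s 1 → ∃ c, c ∈ s 0 ∧ b ∈ c :=
    Df.all (R := fun b s => b ∈ s 1 → ∃ c, c ∈ s 0 ∧ b ∈ c)
      ((Df.mem 0 2).imp (Df.ex (R := fun c s => c ∈ s 1 ∧ s 0 ∈ c)
        ((Df.mem 0 2).and (Df.mem 1 0))))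
  have h3 : Df.{u} fun s => ∀ d, d ∈ s 1 → (∃ x, x ∈ d) →
      (∀ b, b ∈ d → ∃ c, c ∈ s 0 ∧ b ∈ c ∧ c ∈ d) → d ∈ s 0 :=
    Df.all (R := fun d s => d ∈ s 1 → (∃ x, x ∈ d) →
      (∀ b, b ∈ d → ∃ c, c ∈ s 0 ∧ b ∈ c ∧ c ∈ d) → d ∈ s 0)
      ((Df.mem 0 2).imp ((Df.ex (R := fun x s => x ∈ s 0) (Df.mem 0 1)).imp
        ((Df.all (R := fun b s => b ∈ s 0 → ∃ c, c ∈ s 1 ∧ b ∈ c ∧ c ∈ s 0)
          ((Df.mem 0 1).imp (Df.ex (R := fun c s => c ∈ s 2 ∧ s 0 ∈ c ∧ c ∈ s 1)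
            ((Df.mem 0 3).and ((Df.mem 1 0).and (Df.mem 0 2)))))).imp (Df.mem 0 1))))
  exact h1.and (h2.and h3)

theorem K_iff (l : Ordinal.{u}) (C : ZFSet.{u}) :
    K C l.toZFSet ↔ (∀ x, x ∈ C → x ∈ l.toZFSet) ∧ Club l (ords C) := by
  constructor
  · rintro ⟨h1, h2, h3⟩
    refine ⟨h1, fun a ha => toZFSet_mem_toZFSet_iff.1 (h1 _ ha), fun b hb => ?_,
      fun d hd hd0 h => ?_⟩
    · obtain ⟨c, hc, hbc⟩ := h2 b.toZFSet (toZFSet_mem_toZFSet_iff.2 hb)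
      obtain ⟨c', -, rfl⟩ := mem_toZFSet_iff.1 (h1 c hc)
      exact ⟨c', hc, toZFSet_mem_toZFSet_iff.1 hbc⟩
    · refine h3 d.toZFSet (toZFSet_mem_toZFSet_iff.2 hd)
        ⟨(0 : Ordinal.{u}).toZFSet, toZFSet_mem_toZFSet_iff.2 (pos_iff_ne_zero.2 hd0)⟩ ?_
      intro b hb
      obtain ⟨b', hb', rfl⟩ := mem_toZFSet_iff.1 hb
      obtain ⟨c, hc, hbc, hcd⟩ := h b' hb'
      exact ⟨c.toZFSet, hc, toZFSet_mem_toZFSet_iff.2 hbc, toZFSet_mem_toZFSet_iff.2 hcd⟩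
  · rintro ⟨h1, -, h2, h3⟩
    refine ⟨h1, fun b hb => ?_, fun d hd hx h => ?_⟩
    · obtain ⟨b', hb', rfl⟩ := mem_toZFSet_iff.1 hb
      obtain ⟨c, hc, hbc⟩ := h2 b' hb'
      exact ⟨c.toZFSet, hc, toZFSet_mem_toZFSet_iff.2 hbc⟩
    · obtain ⟨d', hd', rfl⟩ := mem_toZFSet_iff.1 hd
      refine h3 d' hd' ?_ ?_
      · rintro rfl
        obtain ⟨x, hx⟩ := hx
        obtain ⟨x', hx', -⟩ := mem_toZFSet_iff.1 hx
        exact absurd hx' (not_lt.2 zero_le)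
      · intro b hb
        obtain ⟨c, hc, hbc, hcd⟩ := h b.toZFSet (toZFSet_mem_toZFSet_iff.2 hb)
        obtain ⟨c', -, rfl⟩ := mem_toZFSet_iff.1 (h1 c hc)
        exact ⟨c', hc, toZFSet_mem_toZFSet_iff.1 hbc, toZFSet_mem_toZFSet_iff.1 hcd⟩

end DST

open DST in
theorem t_DST : S_DST.{u} := by
  have h : Df.{u} fun s => (s 0).IsOrdinal ∧ ∀ C, K C (s 0) → ∃ a, a ∈ C ∧ a ∈ s 1 :=
    (Df.isOrdinal 0).and (Df.all (R := fun C s => K C (s 0) → ∃ a, a ∈ C ∧ a ∈ s 1)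
      ((df_K.sub2 0 1).imp (Df.ex (R := fun a s => a ∈ s 0 ∧ a ∈ s 2)
        ((Df.mem 0 1).and (Df.mem 0 3)))))
  refine h.congr fun s => ?_
  refine and_congr_right fun hs => ?_
  have hL : (s 0).rank.toZFSet = s 0 := hs.toZFSet_rank_eq
  constructor
  · intro h C hC
    have hCe : ords (toZ (s 0).rank C) = C := by
      rw [ords_toZ]
      ext a
      exact ⟨fun h => h.1, fun h => ⟨h, hC.1 a h⟩⟩
    have hK : K (toZ (s 0).rank C) (s 0) := by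
      have := (K_iff (s 0).rank (toZ (s 0).rank C)).2 ⟨?_, ?_⟩
      · rwa [hL] at this
      · intro x hx
        obtain ⟨a, ha, -, rfl⟩ := mem_toZ.1 hx
        exact toZFSet_mem_toZFSet_iff.2 ha
      · rw [hCe]
        exact hC
    obtain ⟨a, ha, ha1⟩ := h _ hK
    obtain ⟨a', -, haC, rfl⟩ := mem_toZ.1 ha
    exact ⟨a', haC, ha1⟩
  · intro h C hC
    rw [← hL] at hC
    obtain ⟨-, hCl⟩ := (K_iff _ _).1 hC
    obtain ⟨a, ha, ha1⟩ := h _ hCl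
    exact ⟨a.toZFSet, ha, ha1⟩

end Pool.Agent.NH86.HD
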