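import Pool.Agent.NH86.HD.Base

/-!
# HD-11 (MP_ecfd11_lc): the lemma of Fodor, from diagonal intersections
-/

set_option autoImplicit false

open Ordinal Cardinal Set

universe u

namespace Pool.Agent.NH86.HD

theorem t_FO0 : S_FO0.{u} := by
  intro hCD l hl hl0 A f hA hf
  by_contra hcon
  have h1 : ∀ x : Ordinal.{u}, ∃ C : Set Ordinal.{u}, x < l.ord →
      (Club l.ord C ∧ ∀ a ∈ C, ¬ (a ∈ A ∧ f a = x)) := by
    intro x
    by_cases hx : x < l.ord
    · have h2 : ¬ Stat l.ord {a | a ∈ A ∧ f a = x} := fun h => hcon ⟨x, hx, h⟩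
      by_contra h3
      refine h2 fun C hC => ?_
      by_contra h4
      exact h3 ⟨C, fun _ => ⟨hC, fun a ha h => h4 ⟨a, ha, h⟩⟩⟩
    · exact ⟨∅, fun h => absurd h hx⟩
  choose C hC using h1
  obtain ⟨a, ha, haA⟩ := hA _ (hCD l hl hl0 C (fun b hb => (hC b hb).1))
  obtain ⟨hal, haC⟩ := ha
  exact (hC (f a) (lt_trans (hf a haA) hal)).2 a (haC _ (hf a haA)) ⟨haA, rfl⟩

end Pool.Agent.NH86.HD
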