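import Pool.Agent.NH86.HD.Sng

/-!
# Project HD (helper86): the assembly
-/

set_option autoImplicit false

open Ordinal Cardinal Set

universe u

namespace Pool.Agent.NH86.HD

/-- the same as `BlReg` for the subsets of `a` that are definable from ordinals and an element of a
level `V_ t` of the cumulative hierarchy with fewer than `|a|` elements -/
def DfReg (a : Ordinal.{u}) : Prop := ∀ t : Ordinal.{u}, (ZFSet.vonNeumann t).card < a.card →
  ∀ x ∈ ZFSet.vonNeumann t, ∀ D, ODp x D → D ⊆ a.toZFSet → Cf a (ords D) → ∀ v, OT (ords D) v → a ≤ v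

/-- some subset of `a` that belongs to HOD is cofinal in `a` and has an order type less than `a` -/
def SingH (a : Ordinal.{u}) : Prop :=
  ∃ D : ZFSet.{u}, HOD D ∧ D ⊆ a.toZFSet ∧ Cf a (ords D) ∧ ∃ v < a, OT (ords D) v

/-- Q1: the regular (uncountable) cardinals that are not `ω`-strongly measurable in HOD form a proper
class -/
def HODConj : Prop := ∀ m : Cardinal.{u}, ∃ l : Cardinal.{u}, m < l ∧ l.IsRegular ∧ ℵ₀ < l ∧ ¬ OSM l.ord

/-- the regular uncountable cardinal `l` has a closed unbounded set of ordinals that stay regular for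
all small ordinal definable families; those of uncountable cofinality are stationary limits of such
ordinals -/
def Good (l : Cardinal.{u}) : Prop := ∃ C, Club l.ord C ∧ ∀ a ∈ C, BlReg a ∧ DfReg a ∧
  (a.cof ≠ ℵ₀ → Stat a {b | BlReg b})

theorem OD.singleton {D : ZFSet.{u}} (hD : OD D) : OD ({D} : ZFSet.{u}) := by
  obtain ⟨φ, p, hφ⟩ := hD
  refine OD.of_df (P := fun s => ∃ D, Sat φ (cns D fun n => s (n + 1)) ∧ s 0 = {D, D}) ?_ p ?_
  · refine Df.ex (R := fun D s => Sat φ (cns D fun n => s (n + 1)) ∧ s 0 = {D, D}) ?_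
    refine Df.and ?_ (Df.upair 1 0 0)
    have h : Df.{u} (fun s => Sat φ s) := ⟨φ, fun _ => Iff.rfl⟩
    refine (h.ren fun n => if n = 0 then 0 else n + 1).congr fun s => ?_
    have e : (fun n => s (if n = 0 then 0 else n + 1)) = cns (s 0) fun n => s (n + 1 + 1) := by
      funext n
      cases n <;> simp
    rw [e]
  · intro y
    have e : (fun n => cns y (oz p) (n + 1)) = oz p := rfl
    constructor
    · rintro ⟨D', h1, h2⟩
      rw [e, hφ] at h1
      subst h1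
      rw [cns_zero] at h2
      rw [h2]
      ext z
      simp
    · rintro rfl
      refine ⟨D, ?_, ?_⟩
      · rw [e, hφ]
      · rw [cns_zero]
        ext z
        simp

theorem not_blReg {a : Ordinal.{u}} (ha : ℵ₀ ≤ a.card) (h : SingH a) : ¬ BlReg a := by
  obtain ⟨D, hD, h1, h2, v, hv, h3⟩ := h
  intro hb
  have hOD : OD D := by
    cases hD with
    | mk _ h _ => exact h
  have h4 := hb {D} hOD.singleton (by
    rw [ZFSet.card_singleton]
    exact one_lt_aleph0.trans_le ha) D (by simp) h1 h2 v h3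
  exact absurd hv (not_lt.2 h4)

theorem good_of_OSM (hOM : S_OM.{u}) (hUC : S_UC.{u}) (hODI : S_ODI.{u}) (hVTH : S_VTH.{u})
    (hPAR : S_PAR.{u}) {l : Cardinal.{u}} (hl : l.IsRegular) (h0 : ℵ₀ < l) (h : OSM l.ord) :
    Good l := by
  obtain ⟨k, hk, hk0, -, hno⟩ := h
  obtain ⟨C, hC, hC'⟩ := hOM l hl h0 k hk0 hk hno
  obtain ⟨C', -, h1, h2⟩ := hUC hODI l hl h0 C hC hC'
  exact ⟨C', h1, fun a ha => ⟨(h2 a ha).1, hPAR hVTH a (h2 a ha).1, (h2 a ha).2⟩⟩

/-- the assembly -/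
theorem main (hOM : S_OM.{u}) (hUC : S_UC.{u}) (hODI : S_ODI.{u}) (hVTH : S_VTH.{u})
    (hPAR : S_PAR.{u}) :
    (∀ l : Cardinal.{u}, l.IsRegular → ℵ₀ < l → OSM l.ord → Good l) ∧
    ((∀ m : Cardinal.{u}, ∃ l : Cardinal.{u}, m < l ∧ l.IsRegular ∧ ℵ₀ < l ∧
      Stat l.ord {a | ¬ BlReg a}) → HODConj.{u}) ∧
    ((∀ m : Cardinal.{u}, ∃ l : Cardinal.{u}, m < l ∧ l.IsRegular ∧ Order.IsSuccLimit l) →
      (∀ a : Ordinal.{u}, SingC a → SingH a) → HODConj.{u}) := by
  have key : ∀ l : Cardinal.{u}, l.IsRegular → ℵ₀ < l → OSM l.ord → Good l :=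
    fun l hl h0 h => good_of_OSM hOM hUC hODI hVTH hPAR hl h0 h
  have key2 : (∀ m : Cardinal.{u}, ∃ l : Cardinal.{u}, m < l ∧ l.IsRegular ∧ ℵ₀ < l ∧
      Stat l.ord {a | ¬ BlReg a}) → HODConj.{u} := by
    intro h m
    obtain ⟨l, hm, hl, h0, hs⟩ := h m
    refine ⟨l, hm, hl, h0, fun hO => ?_⟩
    obtain ⟨C, hC, hC'⟩ := key l hl h0 hO
    obtain ⟨a, ha, ha'⟩ := hs C hC
    exact ha' (hC' a ha).1
  refine ⟨key, key2, fun h1 h2 => key2 fun m => ?_⟩
  obtain ⟨l, hm, hl, hlim⟩ := h1 (max m ℵ₀)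
  have h0 : ℵ₀ < l := (le_max_right _ _).trans_lt hm
  refine ⟨l, (le_max_left _ _).trans_lt hm, hl, h0, fun C hC => ?_⟩
  obtain ⟨a, ha, ha'⟩ := stat_sing hl h0 hlim C hC
  exact ⟨a, ha, not_blReg ha'.2.1 (h2 a ha')⟩

end Pool.Agent.NH86.HD
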