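import Pool.Agent.NH86.HD.Base

/-! # Project HD, HD-7: intersections of ordinal definable families of sets with an ordinal -/

set_option autoImplicit false

open Ordinal Cardinal Set

universe u

namespace Pool.Agent.NH86.HD

namespace ODI

theorem df (φ : Fm) : Df.{u} fun s => ∃ W, Sat φ (cns W fun n => s (n + 2)) ∧
    ∀ z, z ∈ s 0 ↔ ∃ D, D ∈ W ∧ ∀ x, x ∈ z ↔ x ∈ D ∧ x ∈ s 1 := by
  refine Df.ex (R := fun W s => Sat φ (cns W fun n => s (n + 2)) ∧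
    ∀ z, z ∈ s 0 ↔ ∃ D, D ∈ W ∧ ∀ x, x ∈ z ↔ x ∈ D ∧ x ∈ s 1) (Df.and ?_ ?_)
  · have h : Df.{u} fun s => Sat φ fun n => s (if n = 0 then 0 else n + 2) :=
      Df.ren (P := Sat φ) ⟨φ, fun _ => Iff.rfl⟩ fun n => if n = 0 then 0 else n + 2
    refine h.congr fun s => ?_
    have : (fun n => s (if n = 0 then 0 else n + 2)) = cns (s 0) fun n => s (n + 2 + 1) := by
      funext n
      cases n <;> rfl
    rw [this]
  · exact Df.all (R := fun z s => z ∈ s 1 ↔ ∃ D, D ∈ s 0 ∧ ∀ x, x ∈ z ↔ x ∈ D ∧ x ∈ s 2)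
      ((Df.mem 0 2).iff (Df.ex (R := fun D s => D ∈ s 1 ∧ ∀ x, x ∈ s 0 ↔ x ∈ D ∧ x ∈ s 3)
        ((Df.mem 0 2).and (Df.all (R := fun x s => x ∈ s 1 ↔ x ∈ s 0 ∧ x ∈ s 4)
          ((Df.mem 0 2).iff ((Df.mem 0 1).and (Df.mem 0 5)))))))

end ODI

theorem t_ODI : S_ODI.{u} := by
  rintro X d ⟨φ, p, hφ⟩
  have : ZFSet.Definable₁ (fun D : ZFSet.{u} => D ∩ d.toZFSet) := Classical.allZFSetDefinable _
  refine ⟨ZFSet.image (fun D => D ∩ d.toZFSet) X, ?_, ZFSet.card_image_le,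
    fun D hD => ZFSet.mem_image.2 ⟨D, hD, rfl⟩⟩
  refine OD.of_df (ODI.df φ) (cns d p) fun y => ?_
  have hs : (fun n => cns y (oz (cns d p)) (n + 2)) = oz p := by
    funext n
    rfl
  have h1 : cns y (oz (cns d p)) 1 = d.toZFSet := rfl
  simp only [hs, h1, cns_zero]
  have hz : ∀ z D : ZFSet.{u}, (∀ x, x ∈ z ↔ x ∈ D ∧ x ∈ d.toZFSet) ↔ D ∩ d.toZFSet = z := by
    intro z D
    rw [ZFSet.ext_iff]
    simp only [ZFSet.mem_inter]
    exact forall_congr' fun x => Iff.comm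
  constructor
  · rintro ⟨W, hW, h⟩
    rw [(hφ W).1 hW] at h
    ext z
    rw [h, ZFSet.mem_image]
    simp only [hz]
  · rintro rfl
    refine ⟨X, (hφ X).2 rfl, fun z => ?_⟩
    rw [ZFSet.mem_image]
    simp only [hz]

end Pool.Agent.NH86.HD
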