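import Pool.Agent.NH86.HD.Base

/-!
# HD-16 (MP_ecfd11_lc): cofinality `ω`
-/

set_option autoImplicit false

open Ordinal Cardinal Set

universe u

namespace Pool.Agent.NH86.HD

namespace OM0

theorem clubIio {l : Cardinal.{u}} (hl0 : ℵ₀ < l) : Club l.ord (Set.Iio l.ord) := by
  refine ⟨fun a ha => ha, fun b hb => ⟨Order.succ b, ?_, Order.lt_succ b⟩, fun d hd _ _ => hd⟩
  exact (Cardinal.isSuccLimit_ord hl0.le).succ_lt hb

end OM0

theorem t_OM0 : S_OM0.{u} := by
  intro _ hCD hPG l hl hl0 k hk hkl hH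
  have h1 : ∀ b : Ordinal.{u}, ∃ C : Set Ordinal.{u}, Club l.ord C ∧
      (Order.succ b.card < l → ∀ a ∈ C, a.cof = ℵ₀ → ∀ X : ZFSet.{u}, OD X → X.card ≤ b.card →
        ∀ D ∈ X, D ⊆ a.toZFSet → Cf a (ords D) → ∀ v, OT (ords D) v → a ≤ v) := by
    intro b
    by_cases hb : Order.succ b.card < l
    · obtain ⟨C, hC, hC'⟩ := hPG l hl hl0 k hk hkl hH b.card hb
      exact ⟨C, hC, fun _ => hC'⟩
    · exact ⟨Set.Iio l.ord, OM0.clubIio hl0, fun h => absurd h hb⟩
  choose C hC using h1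
  refine ⟨_, hCD l hl hl0 C (fun b _ => (hC b).1), ?_⟩
  rintro a ⟨hal, haC⟩ hcof X hX hXa D hD hDa hcf v hv
  have hb : X.card.ord < a := by
    by_contra h
    have h2 := Ordinal.card_le_card (not_lt.1 h)
    rw [Cardinal.card_ord] at h2
    exact absurd hXa (not_lt.2 h2)
  have hal' : a.card < l := Cardinal.lt_ord.1 hal
  have hs : Order.succ X.card.ord.card < l := by
    rw [Cardinal.card_ord]
    exact lt_of_le_of_lt (Order.succ_le_of_lt hXa) hal'
  exact (hC X.card.ord).2 hs a (haC _ hb) hcof X hX (by rw [Cardinal.card_ord]) D hD hDa hcf v hv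

end Pool.Agent.NH86.HD
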