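import Pool.Agent.NH86.HD.Base

/-! # HD-20 RFL: the reflection principle (helper85) -/

set_option autoImplicit false

open Ordinal Cardinal Set

universe u

namespace Pool.Agent.NH86.HD

namespace RFL

open ZFSet (vonNeumann)

/-- `a` is a nonzero limit -/
def Lm (a : Ordinal.{u}) : Prop := a ≠ 0 ∧ ∀ b < a, Order.succ b < a

/-- `a` is closed under `G` -/
def Cl (G : Ordinal.{u} → Ordinal.{u}) (a : Ordinal.{u}) : Prop := ∀ b < a, G b < a

theorem exists_cl (G : Ordinal.{u} → Ordinal.{u}) (c : Ordinal.{u}) :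
    ∃ a, c < a ∧ Lm a ∧ Cl G a := by
  obtain ⟨H, hH⟩ : ∃ H : Ordinal.{u} → Ordinal.{u},
      H = fun b => Order.succ (max b (⨆ x : Set.Iio b, G x.1)) := ⟨_, rfl⟩
  have h1 : ∀ b, b < H b := fun b => by
    rw [hH]
    exact lt_of_le_of_lt (le_max_left _ _) (Order.lt_succ _)
  have h2 : ∀ b, ∀ x < b, G x < H b := fun b x hx => by
    rw [hH]
    refine lt_of_le_of_lt (le_trans ?_ (le_max_right _ _)) (Order.lt_succ _)
    exact Ordinal.le_iSup (fun x : Set.Iio b => G x.1) ⟨x, hx⟩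
  obtain ⟨b, hb⟩ : ∃ b : ℕ → Ordinal.{u}, b = fun n => H^[n] (Order.succ c) := ⟨_, rfl⟩
  have hb0 : b 0 = Order.succ c := by
    rw [hb]
    rfl
  have hbs : ∀ n, b (n + 1) = H (b n) := fun n => by
    rw [hb]
    exact Function.iterate_succ_apply' H n _
  have hlt : ∀ n, b n < ⨆ n, b n := fun n => by
    rw [Ordinal.lt_iSup_iff]
    exact ⟨n + 1, by rw [hbs]; exact h1 _⟩
  refine ⟨⨆ n, b n, ?_, ⟨?_, ?_⟩, ?_⟩
  · refine lt_trans ?_ (hlt 0)
    rw [hb0]
    exact Order.lt_succ c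
  · intro h
    have := hlt 0
    rw [h] at this
    exact absurd this (not_lt.2 zero_le)
  · intro x hx
    rw [Ordinal.lt_iSup_iff] at hx
    obtain ⟨n, hn⟩ := hx
    refine lt_of_le_of_lt ?_ (hlt n)
    exact Order.succ_le_of_lt hn
  · intro x hx
    rw [Ordinal.lt_iSup_iff] at hx
    obtain ⟨n, hn⟩ := hx
    refine lt_trans ?_ (hlt (n + 1))
    rw [hbs]
    exact h2 _ x hn

/-- reflection of `φ` at `a` -/
def Refl (φ : Fm) (a : Ordinal.{u}) : Prop := ∀ s : ℕ → ZFSet.{u},
  (∀ n, s n ∈ vonNeumann a) → (SatR (vonNeumann a) φ s ↔ Sat φ s)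

theorem cns_mem {a : Ordinal.{u}} {x : ZFSet.{u}} {s : ℕ → ZFSet.{u}} (hx : x ∈ vonNeumann a)
    (hs : ∀ n, s n ∈ vonNeumann a) : ∀ n, cns x s n ∈ vonNeumann a := by
  intro n
  cases n with
  | zero => exact hx
  | succ n => exact hs n

/-- the least rank of a witness -/
noncomputable def wit (φ : Fm) (s : ℕ → ZFSet.{u}) : Ordinal.{u} :=
  sInf {r | ∃ x : ZFSet.{u}, x.rank = r ∧ Sat φ (cns x s)}

theorem wit_spec (φ : Fm) (s : ℕ → ZFSet.{u}) (h : ∃ x, Sat φ (cns x s)) :
    ∃ x : ZFSet.{u}, x.rank = wit φ s ∧ Sat φ (cns x s) := by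
  obtain ⟨x, hx⟩ := h
  have hne : {r | ∃ x : ZFSet.{u}, x.rank = r ∧ Sat φ (cns x s)}.Nonempty := ⟨x.rank, x, rfl, hx⟩
  exact csInf_mem hne

theorem bound_lt {a : Ordinal.{u}} (ha : Lm a) (s : ℕ → ZFSet.{u}) (hs : ∀ n, s n ∈ vonNeumann a)
    (N : ℕ) : ∃ b < a, b ≠ 0 ∧ ∀ n < N, (s n).rank < b := by
  induction N with
  | zero =>
    refine ⟨Order.succ 0, ha.2 0 (pos_iff_ne_zero.2 ha.1), ?_, fun n hn => absurd hn (by omega)⟩
    exact (lt_of_le_of_lt zero_le (Order.lt_succ (0 : Ordinal.{u}))).ne'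
  | succ N ih =>
    obtain ⟨b, hb, hb0, hbs⟩ := ih
    have h1 : (s N).rank < a := ZFSet.mem_vonNeumann.1 (hs N)
    refine ⟨max b (Order.succ (s N).rank), max_lt hb (ha.2 _ h1), ?_, fun n hn => ?_⟩
    · intro h
      apply hb0
      have := le_max_left b (Order.succ (s N).rank)
      rw [h] at this
      exact le_antisymm this zero_le
    · rcases Nat.lt_succ_iff_lt_or_eq.1 hn with hn | rfl
      · exact lt_of_lt_of_le (hbs n hn) (le_max_left _ _)
      · exact lt_of_lt_of_le (Order.lt_succ _) (le_max_right _ _)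

/-- **the reflection principle** -/
theorem reflection (φ : Fm) : ∃ G : Ordinal.{u} → Ordinal.{u}, ∀ a, Lm a → Cl G a → Refl φ a := by
  classical
  induction φ with
  | mem i j => exact ⟨fun _ => 0, fun a _ _ s _ => Iff.rfl⟩
  | eq i j => exact ⟨fun _ => 0, fun a _ _ s _ => Iff.rfl⟩
  | neg φ ih =>
    obtain ⟨G, hG⟩ := ih
    exact ⟨G, fun a ha hc s hs => not_congr (hG a ha hc s hs)⟩
  | and φ ψ ih1 ih2 =>
    obtain ⟨G1, hG1⟩ := ih1
    obtain ⟨G2, hG2⟩ := ih2
    refine ⟨fun b => max (G1 b) (G2 b), fun a ha hc s hs => and_congr ?_ ?_⟩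
    · exact hG1 a ha (fun b hb => lt_of_le_of_lt (le_max_left _ _) (hc b hb)) s hs
    · exact hG2 a ha (fun b hb => lt_of_le_of_lt (le_max_right _ _) (hc b hb)) s hs
  | ex φ ih =>
    obtain ⟨G, hG⟩ := ih
    obtain ⟨N, hN⟩ := sat_supp.{u} φ
    refine ⟨fun b => max (G b) (⨆ t : ℕ → ((vonNeumann b : ZFSet.{u}) : Type (u + 1)),
      Order.succ (wit φ fun n => (t n).1)), fun a ha hc s hs => ?_⟩
    have hR : Refl φ a := hG a ha fun b hb => lt_of_le_of_lt (le_max_left _ _) (hc b hb)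
    constructor
    · rintro ⟨x, hx, hsat⟩
      exact ⟨x, (hR _ (cns_mem hx hs)).1 hsat⟩
    · rintro ⟨x, hx⟩
      obtain ⟨b, hb, hb0, hbs⟩ := bound_lt ha s hs N
      obtain ⟨s', hs'⟩ : ∃ s' : ℕ → ZFSet.{u}, s' = fun n => if n < N then s n else ∅ := ⟨_, rfl⟩
      have hsb : ∀ n, s' n ∈ vonNeumann b := by
        intro n
        rw [ZFSet.mem_vonNeumann, hs']
        by_cases hn : n < N
        · show (if n < N then s n else ∅).rank < b
          rw [if_pos hn]
          exact hbs n hn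
        · show (if n < N then s n else ∅).rank < b
          rw [if_neg hn, ZFSet.rank_empty]
          exact pos_iff_ne_zero.2 hb0
      have heq : ∀ z : ZFSet.{u}, Sat φ (cns z s) ↔ Sat φ (cns z s') := by
        intro z
        refine hN _ _ fun n hn => ?_
        cases n with
        | zero => rfl
        | succ n =>
          show s n = s' n
          rw [hs']
          exact (if_pos (by omega)).symm
      obtain ⟨x', hx'1, hx'2⟩ := wit_spec φ s' ⟨x, (heq x).1 hx⟩
      have h1 : wit φ s' < a := by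
        refine lt_trans (Order.lt_succ _) (lt_of_le_of_lt ?_ (hc b hb))
        refine le_trans ?_ (le_max_right _ _)
        exact Ordinal.le_iSup (fun t : ℕ → ((vonNeumann b : ZFSet.{u}) : Type (u + 1)) =>
          Order.succ (wit φ fun n => (t n).1)) (fun n => ⟨s' n, hsb n⟩)
      have h2 : x' ∈ vonNeumann a := by
        rw [ZFSet.mem_vonNeumann, hx'1]
        exact h1
      exact ⟨x', h2, (hR _ (cns_mem h2 hs)).2 ((heq x').2 hx'2)⟩

/-- satisfaction in a set is definable -/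
theorem df_satR (φ : Fm) : Df.{u} fun s => SatR (s 0) φ (fun n => s (n + 1)) := by
  induction φ with
  | mem i j => exact Df.mem (i + 1) (j + 1)
  | eq i j => exact Df.eq (i + 1) (j + 1)
  | neg φ ih => exact ih.not
  | and φ ψ ih1 ih2 => exact ih1.and ih2
  | ex φ ih =>
    refine (Df.ex (R := fun b s => b ∈ s 0 ∧ SatR (s 0) φ (cns b fun n => s (n + 1)))
      ((Df.mem 0 1).and ?_)).congr fun s => Iff.rfl
    refine (ih.ren fun n => if n = 0 then 1 else if n = 1 then 0 else n).congr fun s => ?_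
    have e : (fun n => s (if n + 1 = 0 then 1 else if n + 1 = 1 then 0 else n + 1)) =
        cns (s 0) fun n => s (n + 1 + 1) := by
      funext n
      cases n with
      | zero => rfl
      | succ n =>
        show s (if n + 1 + 1 = 0 then 1 else if n + 1 + 1 = 1 then 0 else n + 1 + 1) = s (n + 1 + 1)
        rw [if_neg (by omega), if_neg (by omega)]
    rw [e]
    exact Iff.rfl

end RFL

open RFL in
theorem t_RFL : S_RFL.{u} := by
  intro hV x
  constructor
  · rintro ⟨φ, p, hφ⟩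
    obtain ⟨G, hG⟩ := reflection.{u} φ
    obtain ⟨a, hca, ha, hcl⟩ := exists_cl G (max x.rank (⨆ n, p n))
    have hp : ∀ n, p n < a := fun n =>
      lt_of_le_of_lt ((Ordinal.le_iSup p n).trans (le_max_right _ _)) hca
    refine ⟨a, φ, p, hp, ?_, fun y hy => ?_⟩
    · rw [ZFSet.mem_vonNeumann]
      exact lt_of_le_of_lt (le_max_left _ _) hca
    · refine (hG a ha hcl _ (cns_mem hy fun n => ?_)).trans (hφ y)
      rw [ZFSet.mem_vonNeumann]
      show (p n).toZFSet.rank < a
      rw [Ordinal.rank_toZFSet]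
      exact hp n
  · rintro ⟨a, φ, p, -, hx, hφ⟩
    have hP : Df.{u} fun s => ∃ M, ((s 1).IsOrdinal ∧ M = ZFSet.vonNeumann (s 1).rank) ∧
        s 0 ∈ M ∧ SatR M φ (cns (s 0) fun n => s (n + 2)) := by
      refine Df.ex (R := fun M s => ((s 1).IsOrdinal ∧ M = ZFSet.vonNeumann (s 1).rank) ∧
        s 0 ∈ M ∧ SatR M φ (cns (s 0) fun n => s (n + 2))) ?_
      refine (Df.sub2 (R := fun u v => u.IsOrdinal ∧ v = ZFSet.vonNeumann u.rank) hV 2 0).and
        ((Df.mem 1 0).and ?_)
      refine ((df_satR φ).ren fun n => if n = 0 then 0 else if n = 1 then 1 else n + 1).congr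
        fun s => ?_
      have e : (fun n => s (if n + 1 = 0 then 0 else if n + 1 = 1 then 1 else n + 1 + 1)) =
          cns (s (0 + 1)) fun n => s (n + 2 + 1) := by
        funext n
        cases n with
        | zero => rfl
        | succ n =>
          show s (if n + 1 + 1 = 0 then 0 else if n + 1 + 1 = 1 then 1 else n + 1 + 1 + 1) =
            s (n + 2 + 1)
          rw [if_neg (by omega), if_neg (by omega)]
      rw [e]
      exact Iff.rfl
    refine OD.of_df hP (cns a p) fun y => ?_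
    show (∃ M, ((oz (cns a p) 0).IsOrdinal ∧ M = ZFSet.vonNeumann (oz (cns a p) 0).rank) ∧
      y ∈ M ∧ SatR M φ (cns y fun n => oz (cns a p) (n + 1))) ↔ y = x
    have e1 : oz (cns a p) 0 = a.toZFSet := rfl
    have e2 : (fun n => oz (cns a p) (n + 1)) = oz p := rfl
    rw [e1, e2, Ordinal.rank_toZFSet]
    constructor
    · rintro ⟨M, ⟨-, rfl⟩, hy, hs⟩
      exact (hφ y hy).1 hs
    · rintro rfl
      exact ⟨_, ⟨ZFSet.isOrdinal_toZFSet a, rfl⟩, hx, (hφ y hx).2 rfl⟩

end Pool.Agent.NH86.HD
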