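import Pool.Agent.NH86.HD.Base

/-!
# Project HD (helper86): singular cardinals below a weakly inaccessible cardinal
-/

set_option autoImplicit false

open Ordinal Cardinal Set

universe u

namespace Pool.Agent.NH86.HD

/-- `a` is a singular cardinal -/
def SingC (a : Ordinal.{u}) : Prop := a.card.ord = a ∧ ℵ₀ ≤ a.card ∧ a.cof < a.card

theorem sup_nat_lt {c : Ordinal.{u}} (hc : ℵ₀ < c.cof) (h : ℕ → Ordinal.{u})
    (hh : ∀ n, h n < c) : (⨆ n, h n) < c := by
  apply Ordinal.lift_iSup_lt_of_lt_cof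
  · rw [← Ordinal.lift_cof]
    simpa using hc
  · exact hh

/-- the singular cardinals below a weakly inaccessible cardinal form a stationary set -/
theorem stat_sing {l : Cardinal.{u}} (hl : l.IsRegular) (h0 : ℵ₀ < l) (hlim : Order.IsSuccLimit l) :
    Stat l.ord {a | SingC a} := by
  intro C hC
  have h0' : ℵ₀ < l.ord.cof := by rw [hl.cof_ord]; exact h0
  have hstep : ∀ x : Ordinal.{u}, ∃ c, x < l.ord → c ∈ C ∧ (Order.succ (max ℵ₀ x.card)).ord < c := by
    intro x
    by_cases hx : x < l.ord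
    · have h1 : Order.succ (max ℵ₀ x.card) < l := hlim.succ_lt (max_lt h0 (lt_ord.1 hx))
      obtain ⟨c, hc, hc'⟩ := hC.2.1 _ (ord_lt_ord.2 h1)
      exact ⟨c, fun _ => ⟨hc, hc'⟩⟩
    · exact ⟨0, fun h => absurd h hx⟩
  choose g hg using hstep
  set h : ℕ → Ordinal.{u} := fun n => g^[n] (g 0) with hh
  have hpos : (0 : Ordinal.{u}) < l.ord := by
    rw [lt_ord, card_zero]
    exact (Cardinal.aleph0_pos.trans h0)
  have hC' : ∀ n, h n ∈ C := by
    intro n
    induction n with
    | zero => exact (hg 0 hpos).1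
    | succ n ih =>
      have e : h (n + 1) = g (h n) := Function.iterate_succ_apply' _ _ _
      rw [e]
      exact (hg _ (hC.1 _ ih)).1
  have hlt : ∀ n, h n < l.ord := fun n => hC.1 _ (hC' n)
  have hs : ∀ n, (Order.succ (max ℵ₀ (h n).card)).ord < h (n + 1) := by
    intro n
    have e : h (n + 1) = g (h n) := Function.iterate_succ_apply' _ _ _
    rw [e]
    exact (hg _ (hlt n)).2
  have hinc : ∀ n, h n < h (n + 1) := by
    intro n
    refine lt_trans ?_ (hs n)
    rw [lt_ord]
    exact lt_of_le_of_lt (le_max_right _ _) (Order.lt_succ _)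
  set d := ⨆ n, h n with hd
  have hdl : d < l.ord := sup_nat_lt h0' h hlt
  have hnd : ∀ n, h n < d := fun n => (hinc n).trans_le (Ordinal.le_iSup h (n + 1))
  have hlt' : ∀ x < d, ∃ n, x < h n := fun x hx => Ordinal.lt_iSup_iff.1 hx
  have hd0 : d ≠ 0 := fun e => not_lt_zero (e ▸ hnd 0)
  have hdC : d ∈ C := hC.2.2 d hdl hd0 fun b hb => by
    obtain ⟨n, hn⟩ := hlt' b hb
    exact ⟨h n, hC' n, hn, hnd n⟩
  have hcard : d.card.ord = d := by
    refine le_antisymm (ord_card_le d) (not_lt.1 fun hc => ?_)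
    obtain ⟨n, hn⟩ := hlt' _ hc
    have h1 : d.card ≤ (h n).card := by
      have := Ordinal.card_le_card hn.le
      rwa [card_ord] at this
    have h2 : Order.succ (max ℵ₀ (h n).card) ≤ d.card := by
      have := Ordinal.card_le_card ((hs n).trans (hnd (n + 1))).le
      rwa [card_ord] at this
    exact absurd (h1.trans_lt ((le_max_right ℵ₀ _).trans_lt (Order.lt_succ _))) (not_lt.2 h2)
  have hal : ℵ₀ < d.card := by
    have := Ordinal.card_le_card ((hs 0).trans (hnd 1)).le
    rw [card_ord] at this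
    exact ((le_max_left ℵ₀ _).trans_lt (Order.lt_succ _)).trans_le this
  refine ⟨d, hdC, hcard, hal.le, lt_of_le_of_lt (not_lt.1 fun hc => ?_) hal⟩
  exact absurd (sup_nat_lt hc h hnd) (lt_irrefl _)

end Pool.Agent.NH86.HD
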