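import Mathlib

/-!
# Project HD (helper86, MP_ecfd11_lc): the HOD conjecture

Definitions (ordinal definable sets, HOD, `ω`-strongly measurable cardinals) and statements of the parts.
The universe of sets is `ZFSet.{u}`.
-/

set_option autoImplicit false

open Ordinal Cardinal Set

universe u

namespace Pool.Agent.NH86.HD

/-! ## Definability -/

/-- formulas of the language of set theory, with de Bruijn indices -/
inductive Fm : Type
  | mem : ℕ → ℕ → Fm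
  | eq : ℕ → ℕ → Fm
  | neg : Fm → Fm
  | and : Fm → Fm → Fm
  | ex : Fm → Fm

/-- `a` in front of the sequence `s` -/
def cns {X : Type*} (a : X) (s : ℕ → X) : ℕ → X
  | 0 => a
  | n + 1 => s n

/-- satisfaction in the universe of sets, `s n` is the value of the variable `n` -/
def Sat : Fm → (ℕ → ZFSet.{u}) → Prop
  | .mem i j, s => s i ∈ s j
  | .eq i j, s => s i = s j
  | .neg φ, s => ¬ Sat φ s
  | .and φ ψ, s => Sat φ s ∧ Sat ψ s
  | .ex φ, s => ∃ a : ZFSet.{u}, Sat φ (cns a s)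

/-- a sequence of ordinals, as a sequence of sets -/
noncomputable def oz (p : ℕ → Ordinal.{u}) : ℕ → ZFSet.{u} := fun n => (p n).toZFSet

/-- `x` is ordinal definable: the only solution of a formula with ordinal parameters -/
def OD (x : ZFSet.{u}) : Prop :=
  ∃ (φ : Fm) (p : ℕ → Ordinal.{u}), ∀ y, Sat φ (cns y (oz p)) ↔ y = x

/-- `x` is hereditarily ordinal definable -/
inductive HOD : ZFSet.{u} → Prop
  | mk (x : ZFSet.{u}) : OD x → (∀ y ∈ x, HOD y) → HOD x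

/-- the set of the ordinals in `x` -/
def ords (x : ZFSet.{u}) : Set Ordinal.{u} := {a | a.toZFSet ∈ x}

/-- the set of the ordinals `a < l`, `a ∈ A` -/
noncomputable def toZ (l : Ordinal.{u}) (A : Set Ordinal.{u}) : ZFSet.{u} :=
  ZFSet.sep (fun x => ∃ a ∈ A, a.toZFSet = x) l.toZFSet

/-! ## Stationary sets -/

/-- `C` is a closed unbounded subset of `l` -/
def Club (l : Ordinal.{u}) (C : Set Ordinal.{u}) : Prop :=
  (∀ a ∈ C, a < l) ∧ (∀ b < l, ∃ c ∈ C, b < c) ∧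
  ∀ d < l, d ≠ 0 → (∀ b < d, ∃ c ∈ C, b < c ∧ c < d) → d ∈ C

/-- `A` meets all closed unbounded subsets of `l` -/
def Stat (l : Ordinal.{u}) (A : Set Ordinal.{u}) : Prop := ∀ C, Club l C → ∃ a ∈ C, a ∈ A

/-- the ordinals below `l` of cofinality `ω` -/
def SOm (l : Ordinal.{u}) : Set Ordinal.{u} := {a | a < l ∧ a.cof = ℵ₀}

/-- the sequence `i ↦ S i`, `i < k`, of subsets of `l`, as a set -/
noncomputable def sq (l k : Ordinal.{u}) (S : Ordinal.{u} → Set Ordinal.{u}) : ZFSet.{u} :=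
  ZFSet.range (fun i : Set.Iio k => ZFSet.pair i.1.toZFSet (toZ l (S i.1)))

/-- some sequence of length `k` that belongs to HOD is a partition of the set of the ordinals below
`l` of cofinality `ω` into stationary subsets of `l` -/
def HODPart (l k : Ordinal.{u}) : Prop :=
  ∃ S : Ordinal.{u} → Set Ordinal.{u}, HOD (sq l k S) ∧ (∀ i < k, Stat l (S i)) ∧
    (∀ a, (∃ i < k, a ∈ S i) ↔ a ∈ SOm l) ∧
    ∀ i < k, ∀ j < k, ∀ a, a ∈ S i → a ∈ S j → i = j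

/-- `2 ^ k < l` in HOD: some one-to-one function of HOD maps the subsets of `k` that belong to HOD to
the ordinals below some `m < l` -/
def PowHOD (k l : Ordinal.{u}) : Prop :=
  ∃ m < l, ∃ g : ZFSet.{u}, HOD g ∧
    (∀ x, HOD x → x ⊆ k.toZFSet → ∃ i < m, ZFSet.pair x i.toZFSet ∈ g) ∧
    ∀ x y z, ZFSet.pair x z ∈ g → ZFSet.pair y z ∈ g → x = y

/-- the (regular uncountable) cardinal `l` is `ω`-strongly measurable in HOD -/
def OSM (l : Ordinal.{u}) : Prop := ∃ k < l, k ≠ 0 ∧ PowHOD k l ∧ ¬ HODPart l k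

/-! ## Regularity for families -/

/-- `E` has the order type `v` -/
def OT (E : Set Ordinal.{u}) (v : Ordinal.{u}) : Prop :=
  ∃ f : Ordinal.{u} → Ordinal.{u}, StrictMonoOn f (Set.Iio v) ∧ E = f '' Set.Iio v

/-- `E` is cofinal in `a` -/
def Cf (a : Ordinal.{u}) (E : Set Ordinal.{u}) : Prop := ∀ b < a, ∃ c ∈ E, b < c ∧ c < a

/-- a subset of `a`, cofinal in `a`, that belongs to an ordinal definable set `X` of fewer than `|a|`
sets has an order type `≥ a` -/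
def BlReg (a : Ordinal.{u}) : Prop :=
  ∀ X : ZFSet.{u}, OD X → X.card < a.card → ∀ D ∈ X, D ⊆ a.toZFSet → Cf a (ords D) →
    ∀ v, OT (ords D) v → a ≤ v

/-! ## The calculus of definable relations -/

/-- the relation `P` is definable (without parameters) -/
def Df (P : (ℕ → ZFSet.{u}) → Prop) : Prop := ∃ φ : Fm, ∀ s, Sat φ s ↔ P s

/-- HD-1: stationarity is definable. -/
def S_DST : Prop := Df.{u} fun s => (s 0).IsOrdinal ∧ Stat (s 0).rank (ords (s 1))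

/-- HD-2: cofinality `ω` is definable. -/
def S_DCO : Prop := Df.{u} fun s => (s 0).IsOrdinal ∧ (s 0).rank.cof = ℵ₀

/-- HD-3: order types are definable. -/
def S_DOT : Prop := Df.{u} fun s => (s 0).IsOrdinal ∧ OT (ords (s 1)) (s 0).rank

/-- HD-4: comparison of cardinalities is definable. -/
def S_DCA : Prop := Df.{u} fun s => (s 0).card ≤ (s 1).card

/-- HD-5: a sequence of sets of ordinals given by a definable relation with ordinal parameters belongs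
to HOD. -/
def S_HP : Prop := ∀ (L k : Ordinal.{u}) (S : Ordinal.{u} → Set Ordinal.{u})
  (P : (ℕ → ZFSet.{u}) → Prop) (p : ℕ → Ordinal.{u}), Df P →
  (∀ i < k, ∀ a < L, a ∈ S i ↔ P (oz (cns i (cns a p)))) → HOD (sq L k S)

/-- the sequence `t 0, p 0, t 1, p 1, …` -/
noncomputable def mix (t : ℕ → ZFSet.{u}) (p : ℕ → Ordinal.{u}) : ℕ → ZFSet.{u} := fun n =>
  if n % 2 = 0 then t (n / 2) else (p (n / 2)).toZFSet

/-- HD-6: definable choice of ordinal parameters. -/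
def S_UNI : Prop := ∀ R : (ℕ → ZFSet.{u}) → Prop, Df R →
  (∀ t p y y', R (cns y (mix t p)) → R (cns y' (mix t p)) → y = y') →
  ∃ R' : (ℕ → ZFSet.{u}) → Prop, Df R' ∧ (∀ t y, R' (cns y t) → ∃ p, R (cns y (mix t p))) ∧
    (∀ t y y', R' (cns y t) → R' (cns y' t) → y = y') ∧
    ∀ t, (∃ p y, R (cns y (mix t p))) → ∃ y, R' (cns y t)

/-- HD-7: intersections of ordinal definable families of sets with an ordinal. -/
def S_ODI : Prop := ∀ (X : ZFSet.{u}) (d : Ordinal.{u}), OD X →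
  ∃ X' : ZFSet.{u}, OD X' ∧ X'.card ≤ X.card ∧ ∀ D ∈ X, D ∩ d.toZFSet ∈ X'

/-! ## Closed unbounded sets -/

/-- HD-8: intersections of closed unbounded sets. -/
def S_CI : Prop := ∀ l : Cardinal.{u}, l.IsRegular → ℵ₀ < l → ∀ (J : Type u) (C : J → Set Ordinal.{u}),
  #J < l → (∀ j, Club l.ord (C j)) → Club l.ord {a | a < l.ord ∧ ∀ j, a ∈ C j}

/-- diagonal intersections -/
def S_CD : Prop := ∀ l : Cardinal.{u}, l.IsRegular → ℵ₀ < l →
  ∀ C : Ordinal.{u} → Set Ordinal.{u}, (∀ b < l.ord, Club l.ord (C b)) →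
  Club l.ord {a | a < l.ord ∧ ∀ b < a, a ∈ C b}

/-- HD-9 -/
def S_CD0 : Prop := S_CI.{u} → S_CD.{u}

/-- HD-10: the closed unbounded set of the closure points of a function -/
def S_CG : Prop := ∀ l : Cardinal.{u}, l.IsRegular → ℵ₀ < l →
  ∀ G : Ordinal.{u} → Ordinal.{u}, (∀ b < l.ord, G b < l.ord) →
  Club l.ord {a | a < l.ord ∧ a ≠ 0 ∧ ∀ b < a, G b < a}

/-- the lemma of Fodor -/
def S_FO : Prop := ∀ l : Cardinal.{u}, l.IsRegular → ℵ₀ < l →
  ∀ (A : Set Ordinal.{u}) (f : Ordinal.{u} → Ordinal.{u}), Stat l.ord A → (∀ a ∈ A, f a < a) →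
  ∃ x < l.ord, Stat l.ord {a | a ∈ A ∧ f a = x}

/-- HD-11: Fodor, from diagonal intersections. -/
def S_FO0 : Prop := S_CD.{u} → S_FO.{u}

/-- HD-12: enumeration of unbounded sets. -/
def S_NTH : Prop := ∀ l : Cardinal.{u}, l.IsRegular → ∀ T : Set Ordinal.{u},
  (∀ b < l.ord, ∃ x ∈ T, b < x ∧ x < l.ord) → ∃ t : Ordinal.{u} → Ordinal.{u},
    (∀ i < l.ord, t i ∈ T ∧ t i < l.ord ∧ OT (T ∩ Set.Iio (t i)) i) ∧
    ∀ i < l.ord, ∀ x < l.ord, x ∈ T → OT (T ∩ Set.Iio x) i → x = t i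

/-! ## The main steps -/

/-- regressive definable functions are bounded -/
def S_BD : Prop := ∀ l : Cardinal.{u}, l.IsRegular → ℵ₀ < l → ∀ k : Ordinal.{u}, k ≠ 0 → k < l.ord →
  ¬ HODPart l.ord k → ∀ (P : (ℕ → ZFSet.{u}) → Prop) (p : ℕ → Ordinal.{u}), Df P →
  ∀ (A : Set Ordinal.{u}) (f : Ordinal.{u} → Ordinal.{u}), A ⊆ SOm l.ord → (∀ a ∈ A, f a < a) →
  (∀ a < l.ord, ∀ x < l.ord, (a ∈ A ∧ f a = x) ↔ P (oz (cns a (cns x p)))) →
  ∃ b < l.ord, ∃ C, Club l.ord C ∧ ∀ a ∈ A, a ∈ C → f a < b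

/-- HD-13 -/
def S_BD0 : Prop := S_DST.{u} → S_DCO.{u} → S_DOT.{u} → S_HP.{u} → S_FO.{u} → S_NTH.{u} → S_BD.{u}

/-- definable families of at most `m` cofinal sets -/
def S_UN : Prop := ∀ l : Cardinal.{u}, l.IsRegular → ℵ₀ < l → ∀ k : Ordinal.{u}, k ≠ 0 → k < l.ord →
  ¬ HODPart l.ord k → ∀ m : Cardinal.{u}, Order.succ m < l →
  ∀ (P : (ℕ → ZFSet.{u}) → Prop) (p : ℕ → Ordinal.{u}), Df P →
  ∀ (A : Set Ordinal.{u}) (F : Ordinal.{u} → ZFSet.{u}), A ⊆ SOm l.ord →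
  (∀ a < l.ord, ∀ y, (a ∈ A ∧ F a = y) ↔ P (cns y (oz (cns a p)))) →
  (∀ a ∈ A, (F a).card ≤ m ∧ ∀ D ∈ F a, D ⊆ a.toZFSet ∧ Cf a (ords D)) →
  ∃ C, Club l.ord C ∧ ∀ a ∈ A, a ∈ C → ∀ D ∈ F a, ∀ v, OT (ords D) v → a ≤ v

/-- HD-14 -/
def S_UN0 : Prop := S_BD.{u} → S_CI.{u} → S_CD.{u} → S_CG.{u} → S_UN.{u}

/-- cofinality `ω`, families of at most `m` sets -/
def S_PG : Prop := ∀ l : Cardinal.{u}, l.IsRegular → ℵ₀ < l → ∀ k : Ordinal.{u}, k ≠ 0 → k < l.ord →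
  ¬ HODPart l.ord k → ∀ m : Cardinal.{u}, Order.succ m < l → ∃ C, Club l.ord C ∧
  ∀ a ∈ C, a.cof = ℵ₀ → ∀ X : ZFSet.{u}, OD X → X.card ≤ m → ∀ D ∈ X, D ⊆ a.toZFSet →
    Cf a (ords D) → ∀ v, OT (ords D) v → a ≤ v

/-- HD-15 -/
def S_PG0 : Prop := S_DCO.{u} → S_DOT.{u} → S_DCA.{u} → S_UNI.{u} → S_CI.{u} → S_UN.{u} → S_PG.{u}

/-- cofinality `ω` -/
def S_OM : Prop := ∀ l : Cardinal.{u}, l.IsRegular → ℵ₀ < l → ∀ k : Ordinal.{u}, k ≠ 0 → k < l.ord →
  ¬ HODPart l.ord k → ∃ C, Club l.ord C ∧ ∀ a ∈ C, a.cof = ℵ₀ → BlReg a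

/-- HD-16 -/
def S_OM0 : Prop := S_CI.{u} → S_CD.{u} → S_PG.{u} → S_OM.{u}

/-- HD-17: all cofinalities -/
def S_UC : Prop := S_ODI.{u} → ∀ (l : Cardinal.{u}), l.IsRegular → ℵ₀ < l →
  ∀ C : Set Ordinal.{u}, Club l.ord C → (∀ a ∈ C, a.cof = ℵ₀ → BlReg a) →
  ∃ C' ⊆ C, Club l.ord C' ∧ ∀ a ∈ C', BlReg a ∧
    (a.cof ≠ ℵ₀ → ∀ E, Club a E → ∃ b ∈ E, BlReg b)

/-- the set `D` is definable from the parameter `x` and ordinals -/
def ODp (x D : ZFSet.{u}) : Prop :=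
  ∃ (φ : Fm) (p : ℕ → Ordinal.{u}), ∀ y, Sat φ (cns y (cns x (oz p))) ↔ y = D

/-- HD-18: the cumulative hierarchy is definable. -/
def S_VTH : Prop := Df.{u} fun s => (s 0).IsOrdinal ∧ s 1 = ZFSet.vonNeumann (s 0).rank

/-- HD-19: sets definable from the elements of a small level -/
def S_PAR : Prop := S_VTH.{u} → ∀ a : Ordinal.{u}, BlReg a → ∀ t : Ordinal.{u},
  (ZFSet.vonNeumann t).card < a.card → ∀ x ∈ ZFSet.vonNeumann t, ∀ D, ODp x D →
  D ⊆ a.toZFSet → Cf a (ords D) → ∀ v, OT (ords D) v → a ≤ v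

/-- satisfaction in the set `M` -/
def SatR (M : ZFSet.{u}) : Fm → (ℕ → ZFSet.{u}) → Prop
  | .mem i j, s => s i ∈ s j
  | .eq i j, s => s i = s j
  | .neg φ, s => ¬ SatR M φ s
  | .and φ ψ, s => SatR M φ s ∧ SatR M ψ s
  | .ex φ, s => ∃ a ∈ M, SatR M φ (cns a s)

/-- HD-20: by the reflection principle, the ordinal definable sets are the sets that are definable in
some level of the cumulative hierarchy, from ordinals of this level. -/
def S_RFL : Prop := S_VTH.{u} → ∀ x : ZFSet.{u}, OD x ↔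
  ∃ (a : Ordinal.{u}) (φ : Fm) (p : ℕ → Ordinal.{u}), (∀ n, p n < a) ∧ x ∈ ZFSet.vonNeumann a ∧
    ∀ y ∈ ZFSet.vonNeumann a, SatR (ZFSet.vonNeumann a) φ (cns y (oz p)) ↔ y = x

end Pool.Agent.NH86.HD
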