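import Pool.Agent.NH86.HD.Base

/-! # Project HD (helper86), part UC (helper52): all cofinalities -/

set_option autoImplicit false

open Ordinal Cardinal Set

universe u

namespace Pool.Agent.NH86.HD.UC

/-- the supremum of a strictly increasing sequence -/
theorem seq_sup {a : Ordinal.{u}} (ha : ℵ₀ < a.cof) (e : ℕ → Ordinal.{u}) (he : StrictMono e)
    (hea : ∀ n, e n < a) : ⨆ n, e n < a ∧ (⨆ n, e n).cof = ℵ₀ := by
  constructor
  · refine Ordinal.lift_iSup_lt_of_lt_cof ?_ hea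
    rw [Cardinal.mk_nat, Cardinal.lift_aleph0, Ordinal.lift_uzero]
    exact ha
  · have h := Ordinal.lift_cof_iSup he
    rw [Order.cof_nat, Cardinal.lift_aleph0, Cardinal.lift_uzero] at h
    exact h

/-- two cofinal sets have many common limits -/
theorem aux {a : Ordinal.{u}} (ha : ℵ₀ < a.cof) {E₁ E₂ : Set Ordinal.{u}} (h1 : Cf a E₁)
    (h2 : Cf a E₂) {x : Ordinal.{u}} (hx : x < a) :
    ∃ d < a, x < d ∧ d.cof = ℵ₀ ∧ Cf d E₁ ∧ Cf d E₂ := by
  choose! g hg using h1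
  choose! k hk using h2
  set e : ℕ → Ordinal.{u} := fun n => Nat.rec x (fun _ y => k (g y)) n with he
  have e0 : e 0 = x := rfl
  have es : ∀ n, e (n + 1) = k (g (e n)) := fun _ => rfl
  have hea : ∀ n, e n < a := by
    intro n
    induction n with
    | zero => exact hx
    | succ n ih =>
      rw [es]
      exact (hk _ (hg _ ih).2.2).2.2
  have hlt1 : ∀ n, e n < g (e n) := fun n => (hg _ (hea n)).2.1
  have hlt2 : ∀ n, g (e n) < e (n + 1) := fun n => by
    rw [es]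
    exact (hk _ (hg _ (hea n)).2.2).2.1
  have hmono : StrictMono e := strictMono_nat_of_lt_succ fun n => (hlt1 n).trans (hlt2 n)
  obtain ⟨hd, hdc⟩ := seq_sup ha e hmono hea
  have hle : ∀ n, e n < ⨆ n, e n := fun n =>
    (hmono (Nat.lt_succ_self n)).trans_le (Ordinal.le_iSup e (n + 1))
  refine ⟨_, hd, hle 0, hdc, ?_, ?_⟩
  · intro b hb
    obtain ⟨n, hn⟩ := Ordinal.lt_iSup_iff.1 hb
    exact ⟨g (e n), (hg _ (hea n)).1, hn.trans (hlt1 n), (hlt2 n).trans (hle (n + 1))⟩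
  · intro b hb
    obtain ⟨n, hn⟩ := Ordinal.lt_iSup_iff.1 hb
    refine ⟨e (n + 1), ?_, hn.trans (hmono (Nat.lt_succ_self n)), hle (n + 1)⟩
    rw [es]
    exact (hk _ (hg _ (hea n)).2.2).1

/-- initial segments have an order type -/
theorem ot_inter {E : Set Ordinal.{u}} {v : Ordinal.{u}} (h : OT E v) (d : Ordinal.{u}) :
    ∃ w ≤ v, OT (E ∩ Set.Iio d) w := by
  obtain ⟨f, hf, rfl⟩ := h
  set w := sInf {i | i = v ∨ d ≤ f i} with hw
  have hne : {i | i = v ∨ d ≤ f i}.Nonempty := ⟨v, Or.inl rfl⟩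
  have hwv : w ≤ v := csInf_le' (Or.inl rfl)
  have hwm : w = v ∨ d ≤ f w := csInf_mem hne
  have hlt : ∀ i < w, f i < d := by
    intro i hi
    by_contra hc
    exact absurd (csInf_le' (show i ∈ {i | i = v ∨ d ≤ f i} from Or.inr (not_lt.1 hc)))
      (not_le.2 hi)
  refine ⟨w, hwv, f, hf.mono (Set.Iio_subset_Iio hwv), ?_⟩
  ext b
  constructor
  · rintro ⟨⟨i, hi, rfl⟩, hb⟩
    refine ⟨i, ?_, rfl⟩
    by_contra hc
    have hwi : w ≤ i := not_lt.1 hc
    rcases hwm with h | h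
    · rw [h] at hwi
      exact absurd hi (not_lt.2 hwi)
    · have h3 : f w ≤ f i := hf.monotoneOn (hwi.trans_lt hi) hi hwi
      exact absurd hb (not_lt.2 (h.trans h3))
  · rintro ⟨i, hi, rfl⟩
    exact ⟨⟨i, lt_of_lt_of_le hi hwv, rfl⟩, hlt i hi⟩

end Pool.Agent.NH86.HD.UC

namespace Pool.Agent.NH86.HD

open UC

theorem t_UC : S_UC.{u} := by
  intro hODI l hl hl0 C hC hreg
  obtain ⟨hC1, hC2, hC3⟩ := hC
  have hCf : Cf l.ord C := fun b hb => by
    obtain ⟨c, hc, hbc⟩ := hC2 b hb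
    exact ⟨c, hc, hbc, hC1 c hc⟩
  have hlc : ℵ₀ < l.ord.cof := by rw [hl.cof_ord]; exact hl0
  refine ⟨{a | a ∈ C ∧ a ≠ 0 ∧ Cf a C}, fun a ha => ha.1, ⟨fun a ha => hC1 a ha.1, ?_, ?_⟩, ?_⟩
  · intro b hb
    obtain ⟨d, hd, hbd, -, hdC, -⟩ := aux hlc hCf hCf hb
    have hd0 : d ≠ 0 := (lt_of_le_of_lt (bot_le : (0 : Ordinal.{u}) ≤ b) hbd).ne'
    exact ⟨d, ⟨hC3 d hd hd0 hdC, hd0, hdC⟩, hbd⟩
  · intro d hd hd0 h
    have h2 : Cf d C := fun b hb => by
      obtain ⟨c, hc, h3⟩ := h b hb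
      exact ⟨c, hc.1, h3⟩
    exact ⟨hC3 d hd hd0 h2, hd0, h2⟩
  · rintro a ⟨haC, ha0, haCf⟩
    have hal : a < l.ord := hC1 a haC
    have hlim : Order.IsSuccLimit a := by
      refine ⟨fun hmin => ha0 (hmin.eq_bot), ?_⟩
      intro b hb
      obtain ⟨c, -, hbc, hca⟩ := haCf b hb.lt
      exact hb.2 hbc hca
    have hcof : ℵ₀ ≤ a.cof := Ordinal.aleph0_le_cof_iff.2 (Ordinal.one_lt_cof_iff.2 hlim)
    rcases hcof.eq_or_lt with hc | hc
    · exact ⟨hreg a haC hc.symm, fun h => absurd hc.symm h⟩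
    have hsmall : ∀ {E : Set Ordinal.{u}}, Cf a E → ∀ {x : Ordinal.{u}}, x < a →
        ∃ d < a, x < d ∧ Cf d E ∧ d ≠ 0 ∧ BlReg d := by
      intro E hE x hx
      obtain ⟨d, hd, hxd, hdc, hdE, hdC⟩ := aux hc hE haCf hx
      have hd0 : d ≠ 0 := (lt_of_le_of_lt (bot_le : (0 : Ordinal.{u}) ≤ x) hxd).ne'
      exact ⟨d, hd, hxd, hdE, hd0, hreg d (hC3 d (hd.trans hal) hd0 hdC) hdc⟩
    refine ⟨?_, fun _ E hE => ?_⟩
    · intro X hX hXc D hD hDa hDc v hv
      by_contra hva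
      rw [not_le] at hva
      have hs : (Order.succ X.card).ord ≤ a :=
        Cardinal.ord_le.2 (Order.succ_le_of_lt hXc)
      rcases hs.lt_or_eq with hs | hs
      · obtain ⟨d, hd, hxd, hdD, hd0, hdr⟩ := hsmall hDc (max_lt hva hs)
        obtain ⟨X', hX', hX'c, hX'D⟩ := hODI X d hX
        have hords : ords (D ∩ d.toZFSet) = ords D ∩ Set.Iio d := by
          ext b
          rw [mem_ords, ZFSet.mem_inter, toZFSet_mem_toZFSet_iff]
          rfl
        obtain ⟨w, hwv, hw⟩ := ot_inter hv d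
        have h1 : d ≤ w := by
          refine hdr X' hX' ?_ (D ∩ d.toZFSet) (hX'D D hD) ?_ ?_ w (by rw [hords]; exact hw)
          · refine hX'c.trans_lt ((Order.lt_succ _).trans_le ?_)
            exact Cardinal.ord_le.1 ((le_max_right _ _).trans hxd.le)
          · intro y hy
            exact (ZFSet.mem_inter.1 hy).2
          · intro b hb
            obtain ⟨c, hcD, hbc, hcd⟩ := hdD b hb
            exact ⟨c, by rw [hords]; exact ⟨hcD, hcd⟩, hbc, hcd⟩
        exact absurd (h1.trans hwv) (not_le.2 ((le_max_left _ _).trans_lt hxd))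
      · -- `a` is a successor cardinal
        have hac : a.card = Order.succ X.card := by rw [← hs, Cardinal.card_ord]
        rcases lt_or_ge X.card ℵ₀ with hX0 | hX0
        · have h1 : a.cof ≤ ℵ₀ := (Ordinal.cof_le_card a).trans (by
            rw [hac]; exact Order.succ_le_of_lt hX0)
          exact absurd hc (not_lt.2 h1)
        · have hr := Cardinal.isRegular_succ hX0
          have hacof : a.cof = Order.succ X.card := by rw [← hs, hr.cof_ord]
          obtain ⟨f, hf, hfE⟩ := hv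
          have hfa : ∀ i : Set.Iio v, f i.1 < a := by
            intro i
            have h1 : f i.1 ∈ ords D := by rw [hfE]; exact ⟨i.1, i.2, rfl⟩
            exact toZFSet_mem_toZFSet_iff.1 (hDa h1)
          have hvc : v.card < Order.succ X.card := by
            rw [← hs] at hva
            exact Cardinal.lt_ord.1 hva
          have hsup : ⨆ i : Set.Iio v, f i.1 < a := by
            refine Ordinal.lift_iSup_lt_of_lt_cof ?_ hfa
            rw [Cardinal.mk_Iio_ordinal, ← Ordinal.lift_cof, hacof, Cardinal.lift_lift]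
            exact Cardinal.lift_lt.2 hvc
          obtain ⟨c, hcD, hbc, -⟩ := hDc _ hsup
          rw [hfE] at hcD
          obtain ⟨i, hi, rfl⟩ := hcD
          exact absurd hbc (not_lt.2 (Ordinal.le_iSup (fun i : Set.Iio v => f i.1) ⟨i, hi⟩))
    · obtain ⟨hE1, hE2, hE3⟩ := hE
      have hEc : Cf a E := fun b hb => by
        obtain ⟨c, hc', hbc⟩ := hE2 b hb
        exact ⟨c, hc', hbc, hE1 c hc'⟩
      obtain ⟨d, hd, -, hdE, hd0, hdr⟩ := hsmall hEc (pos_iff_ne_zero.2 ha0)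
      exact ⟨d, hE3 d hd hd0 hdE, hdr⟩

end Pool.Agent.NH86.HD
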