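import Pool.Agent.NH86.HD.Base

/-! # HD-14: definable families of cofinal sets -/

set_option autoImplicit false

open Ordinal Cardinal Set

universe u

namespace Pool.Agent.NH86.HD

namespace UN

/-- a sequence that grows faster than `G` -/
noncomputable def hh (G : Ordinal.{u} → Ordinal.{u}) (i : Ordinal.{u}) : Ordinal.{u} :=
  ⨆ j : Set.Iio i, max (G (hh G j.1)) (Order.succ (hh G j.1))
termination_by i
decreasing_by exact j.2

theorem hh_ge (G : Ordinal.{u} → Ordinal.{u}) {i j : Ordinal.{u}} (hij : j < i) :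
    max (G (hh G j)) (Order.succ (hh G j)) ≤ hh G i := by
  conv_rhs => rw [hh]
  exact le_ciSup (f := fun j : Set.Iio i => max (G (hh G j.1)) (Order.succ (hh G j.1)))
    bddAbove_of_small ⟨j, hij⟩

theorem hh_lt {l : Cardinal.{u}} (hl : l.IsRegular) (hl0 : ℵ₀ < l) (G : Ordinal.{u} → Ordinal.{u})
    (hG : ∀ c < l.ord, G c < l.ord) : ∀ i < l.ord, hh G i < l.ord := by
  intro i
  induction i using WellFoundedLT.induction with
  | ind i ih =>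
    intro hi
    rw [hh]
    apply lift_iSup_lt_of_lt_cof
    · rw [Cardinal.mk_Iio_ordinal, ← lift_cof, hl.cof_ord]
      rw [Cardinal.lift_lift]
      exact Cardinal.lift_lt.2 (lt_ord.1 hi)
    · intro j
      have h1 := ih j.1 j.2 (lt_trans j.2 hi)
      exact max_lt (hG _ h1) ((isSuccLimit_ord hl0.le).succ_lt h1)

theorem hh_strictMono (G : Ordinal.{u} → Ordinal.{u}) : StrictMono (hh G) := fun _ _ h =>
  (Order.lt_succ _).trans_le ((le_max_right _ _).trans (hh_ge G h))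

/-- the first ordinal of `D` from `b` on -/
noncomputable def mn (D : ZFSet.{u}) (b : Ordinal.{u}) : Ordinal.{u} := sInf {w | w ∈ ords D ∧ b ≤ w}

theorem mn_mem {D : ZFSet.{u}} {b : Ordinal.{u}} (h : ∃ w ∈ ords D, b ≤ w) :
    mn D b ∈ ords D ∧ b ≤ mn D b :=
  csInf_mem (s := {w | w ∈ ords D ∧ b ≤ w}) h

theorem mn_le {D : ZFSet.{u}} {b w : Ordinal.{u}} (h : w ∈ ords D) (hb : b ≤ w) : mn D b ≤ w :=
  csInf_le' (s := {w | w ∈ ords D ∧ b ≤ w}) ⟨h, hb⟩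

theorem mn_spec {a b : Ordinal.{u}} {D : ZFSet.{u}} (h : Cf a (ords D)) (hb : b < a) :
    mn D b ∈ ords D ∧ b ≤ mn D b ∧ mn D b < a := by
  obtain ⟨c, hc, hbc, hca⟩ := h b hb
  obtain ⟨h1, h2⟩ := mn_mem ⟨c, hc, hbc.le⟩
  exact ⟨h1, h2, (mn_le hc hbc.le).trans_lt hca⟩

/-- `x ≥ c` is the first ordinal `≥ b` of some element of `y` -/
def MM (x b c y : ZFSet.{u}) : Prop := x.IsOrdinal ∧ c ⊆ x ∧ b ⊆ x ∧ ∃ D, D ∈ y ∧ x ∈ D ∧
  ∀ w : ZFSet.{u}, w.IsOrdinal → w ∈ D → b ⊆ w → x ⊆ w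

theorem df_MM : Df.{u} fun s => MM (s 0) (s 1) (s 2) (s 3) :=
  (Df.isOrdinal 0).and ((Df.subset 2 0).and ((Df.subset 1 0).and (Df.ex
    (R := fun D s => D ∈ s 3 ∧ s 0 ∈ D ∧ ∀ w : ZFSet.{u}, w.IsOrdinal → w ∈ D → s 1 ⊆ w → s 0 ⊆ w)
    ((Df.mem 0 4).and ((Df.mem 1 0).and (Df.all
      (R := fun w s => w.IsOrdinal → w ∈ s 0 → s 2 ⊆ w → s 1 ⊆ w)
      ((Df.isOrdinal 0).imp ((Df.mem 0 1).imp ((Df.subset 3 0).imp (Df.subset 2 0))))))))))

theorem MM_iff (x b c : Ordinal.{u}) (y : ZFSet.{u}) :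
    MM x.toZFSet b.toZFSet c.toZFSet y ↔
      c ≤ x ∧ ∃ D ∈ y, (∃ w ∈ ords D, b ≤ w) ∧ x = mn D b := by
  constructor
  · rintro ⟨-, h1, h2, D, hD, hx, h3⟩
    rw [toZFSet_subset_toZFSet_iff] at h1 h2
    refine ⟨h1, D, hD, ⟨x, hx, h2⟩, le_antisymm ?_ (mn_le hx h2)⟩
    obtain ⟨h4, h5⟩ := mn_mem ⟨x, hx, h2⟩
    have h6 := h3 (mn D b).toZFSet (ZFSet.isOrdinal_toZFSet _) h4
      (toZFSet_subset_toZFSet_iff.2 h5)
    exact toZFSet_subset_toZFSet_iff.1 h6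
  · rintro ⟨h1, D, hD, h2, rfl⟩
    obtain ⟨h4, h5⟩ := mn_mem h2
    refine ⟨ZFSet.isOrdinal_toZFSet _, toZFSet_subset_toZFSet_iff.2 h1,
      toZFSet_subset_toZFSet_iff.2 h5, D, hD, h4, ?_⟩
    intro w hw hwD hbw
    rw [← hw.toZFSet_rank_eq] at hwD hbw ⊢
    exact toZFSet_subset_toZFSet_iff.2 (mn_le hwD (toZFSet_subset_toZFSet_iff.1 hbw))

theorem step1 (hBD : S_BD.{u}) {l : Cardinal.{u}} (hl : l.IsRegular) (hl0 : ℵ₀ < l)
    {k : Ordinal.{u}} (hk : k ≠ 0) (hkl : k < l.ord) (hH : ¬ HODPart l.ord k)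
    {P : (ℕ → ZFSet.{u}) → Prop} {p : ℕ → Ordinal.{u}} (hP : Df P)
    {A : Set Ordinal.{u}} {F : Ordinal.{u} → ZFSet.{u}} (hA : A ⊆ SOm l.ord)
    (hPF : ∀ a < l.ord, ∀ y, (a ∈ A ∧ F a = y) ↔ P (cns y (oz (cns a p))))
    (hF : ∀ a ∈ A, ∀ D ∈ F a, Cf a (ords D)) (b c : Ordinal.{u}) :
    ∃ g < l.ord, ∃ C, Club l.ord C ∧ ∀ a ∈ A, a ∈ C → b < a → ∀ D ∈ F a, c ≤ mn D b →
      ∃ D' ∈ F a, c ≤ mn D' b ∧ mn D' b < g := by
  set A' : Set Ordinal.{u} := {a | a ∈ A ∧ b < a ∧ ∃ D ∈ F a, c ≤ mn D b} with hA'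
  set f : Ordinal.{u} → Ordinal.{u} := fun a => sInf {w | ∃ D ∈ F a, c ≤ w ∧ w = mn D b} with hf
  have hfm : ∀ a ∈ A', ∃ D ∈ F a, c ≤ f a ∧ f a = mn D b := by
    rintro a ⟨haA, hba, D, hD, hcD⟩
    exact csInf_mem (s := {w | ∃ D ∈ F a, c ≤ w ∧ w = mn D b}) ⟨_, D, hD, hcD, rfl⟩
  have hfle : ∀ a, ∀ D ∈ F a, c ≤ mn D b → f a ≤ mn D b := by
    intro a D hD hcD
    exact csInf_le' (s := {w | ∃ D ∈ F a, c ≤ w ∧ w = mn D b}) ⟨D, hD, hcD, rfl⟩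
  have hfa : ∀ a ∈ A', f a < a := by
    intro a ha
    obtain ⟨D, hD, h1, h2⟩ := hfm a ha
    rw [h2]
    exact (mn_spec (hF a ha.1 D hD) ha.2.1).2.2
  have hQ : Df.{u} fun s => ∃ y, P (cns y (cns (s 0) (fun n => s (n + 4)))) ∧ s 2 ∈ s 0 ∧
      MM (s 1) (s 2) (s 3) y ∧ ∀ x', x' ∈ s 1 → ¬ MM x' (s 2) (s 3) y := by
    refine Df.ex (R := fun y s => P (cns y (cns (s 0) (fun n => s (n + 4)))) ∧ s 2 ∈ s 0 ∧
      MM (s 1) (s 2) (s 3) y ∧ ∀ x', x' ∈ s 1 → ¬ MM x' (s 2) (s 3) y) ?_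
    refine Df.and ?_ ((Df.mem 3 1).and ((Df.sub4 df_MM 2 3 4 0).and (Df.all
      (R := fun x' s => x' ∈ s 2 → ¬ MM x' (s 3) (s 4) (s 0))
      ((Df.mem 0 3).imp (Df.sub4 df_MM 0 4 5 1).not))))
    refine (hP.ren (fun n => match n with
      | 0 => 0
      | 1 => 1
      | n + 2 => n + 5)).congr fun s => ?_
    have e : (fun n => s ((fun n => match n with
      | 0 => 0
      | 1 => 1
      | n + 2 => n + 5 : ℕ → ℕ) n)) = cns (s 0) (cns (s 1) fun n => s (n + 5)) := by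
      funext n
      rcases n with _ | _ | n <;> rfl
    rw [e]
  obtain ⟨g, hg, C, hC, h⟩ := hBD l hl hl0 k hk hkl hH _ (cns b (cns c p)) hQ A' f
    (fun a ha => hA ha.1) hfa (by
      intro a ha x hx
      change _ ↔ ∃ y, P (cns y (cns a.toZFSet (oz p))) ∧ b.toZFSet ∈ a.toZFSet ∧
        MM x.toZFSet b.toZFSet c.toZFSet y ∧
        ∀ x', x' ∈ x.toZFSet → ¬ MM x' b.toZFSet c.toZFSet y
      rw [← oz_cns]
      constructor
      · rintro ⟨ha', rfl⟩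
        obtain ⟨D, hD, h1, h2⟩ := hfm a ha'
        refine ⟨F a, (hPF a ha _).1 ⟨ha'.1, rfl⟩, toZFSet_mem_toZFSet_iff.2 ha'.2.1, ?_, ?_⟩
        · obtain ⟨h3, h4, -⟩ := mn_spec (hF a ha'.1 D hD) ha'.2.1
          exact (MM_iff _ _ _ _).2 ⟨h1, D, hD, ⟨_, h3, h4⟩, h2⟩
        · intro x' hx' hM
          obtain ⟨w, hw, rfl⟩ := mem_toZFSet_iff.1 hx'
          obtain ⟨h5, D', hD', -, h6⟩ := (MM_iff _ _ _ _).1 hM
          exact absurd (hfle a D' hD' (h6 ▸ h5)) (not_le.2 (h6 ▸ hw))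
      · rintro ⟨y, hy, hba, hM, hmin⟩
        obtain ⟨haA, rfl⟩ := (hPF a ha y).2 hy
        obtain ⟨h5, D', hD', -, h6⟩ := (MM_iff _ _ _ _).1 hM
        have ha' : a ∈ A' := ⟨haA, toZFSet_mem_toZFSet_iff.1 hba, D', hD', h6 ▸ h5⟩
        refine ⟨ha', le_antisymm ?_ ?_⟩
        · rw [h6]
          exact hfle a D' hD' (h6 ▸ h5)
        · by_contra hlt
          rw [not_le] at hlt
          obtain ⟨D, hD, h1, h2⟩ := hfm a ha'
          obtain ⟨h3, h4, -⟩ := mn_spec (hF a ha'.1 D hD) ha'.2.1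
          exact hmin (f a).toZFSet (toZFSet_mem_toZFSet_iff.2 hlt)
            ((MM_iff _ _ _ _).2 ⟨h1, D, hD, ⟨_, h3, h4⟩, h2⟩))
  refine ⟨g, hg, C, hC, ?_⟩
  intro a haA haC hba D hD hcD
  have ha' : a ∈ A' := ⟨haA, hba, D, hD, hcD⟩
  obtain ⟨D', hD', h1, h2⟩ := hfm a ha'
  have h3 := h a ha' haC
  exact ⟨D', hD', h2 ▸ h1, h2 ▸ h3⟩

theorem step2 (hBD : S_BD.{u}) (hCI : S_CI.{u}) {l : Cardinal.{u}} (hl : l.IsRegular) (hl0 : ℵ₀ < l)
    {k : Ordinal.{u}} (hk : k ≠ 0) (hkl : k < l.ord) (hH : ¬ HODPart l.ord k)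
    {m : Cardinal.{u}} (hm : Order.succ m < l)
    {P : (ℕ → ZFSet.{u}) → Prop} {p : ℕ → Ordinal.{u}} (hP : Df P)
    {A : Set Ordinal.{u}} {F : Ordinal.{u} → ZFSet.{u}} (hA : A ⊆ SOm l.ord)
    (hPF : ∀ a < l.ord, ∀ y, (a ∈ A ∧ F a = y) ↔ P (cns y (oz (cns a p))))
    (hF : ∀ a ∈ A, ∀ D ∈ F a, Cf a (ords D)) (hFc : ∀ a ∈ A, (F a).card ≤ m) (b : Ordinal.{u}) :
    ∃ g < l.ord, ∃ C, Club l.ord C ∧ ∀ a ∈ A, a ∈ C → b < a → ∀ D ∈ F a, mn D b < g := by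
  have h1 := step1 hBD hl hl0 hk hkl hH hP hA hPF hF b
  choose g hg C hC h using h1
  by_contra hneg
  push Not at hneg
  have hM : (Order.succ m).ord < l.ord := ord_lt_ord.2 hm
  obtain ⟨a, haA, ⟨haL, haC⟩, hba, D, hD, hDm⟩ := hneg (hh g (Order.succ m).ord)
    (hh_lt hl hl0 g (fun c _ => hg c) _ hM)
    {a | a < l.ord ∧ ∀ j : (Order.succ m).ord.ToType, a ∈ C (hh g (ToType.mk.symm j).1)}
    (hCI l hl hl0 _ (fun j => C (hh g (ToType.mk.symm j).1)) (by rw [mk_toType, card_ord]; exact hm)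
      fun j => hC _)
  have h2 : ∀ x : Set.Iio (Order.succ m).ord, ∃ D' ∈ F a, hh g x.1 ≤ mn D' b ∧
      mn D' b < g (hh g x.1) := by
    intro x
    refine h (hh g x.1) a haA ?_ hba D hD ?_
    · have := haC (ToType.mk x)
      rwa [OrderIso.symm_apply_apply] at this
    · exact ((hh_strictMono g).monotone (le_of_lt x.2)).trans hDm
  choose D' hD' h3 h4 using h2
  have hmono : StrictMono fun x : Set.Iio (Order.succ m).ord => mn (D' x) b := by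
    intro x y hxy
    exact (h4 x).trans_le (((le_max_left _ _).trans (hh_ge g hxy)).trans (h3 y))
  have hinj : Function.Injective fun x : Set.Iio (Order.succ m).ord =>
      (⟨D' x, hD' x⟩ : {z : ZFSet.{u} // z ∈ F a}) := by
    intro x y hxy
    have : D' x = D' y := congrArg Subtype.val hxy
    exact hmono.injective (by simp only [this])
  have h5 := mk_le_of_injective hinj
  have h6 : #{z : ZFSet.{u} // z ∈ F a} = Cardinal.lift.{u + 1, u} (F a).card :=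
    ZFSet.cardinalMk_coe_sort
  rw [h6, Cardinal.mk_Iio_ordinal, card_ord, Cardinal.lift_le] at h5
  exact absurd (h5.trans (hFc a haA)) (not_le.2 (Order.lt_succ m))

end UN

theorem t_UN0 : S_UN0.{u} := by
  intro hBD hCI hCD hCG l hl hl0 k hk hkl hH m hm P p hP A F hA hPF hF
  have h1 := UN.step2 hBD hCI hl hl0 hk hkl hH hm hP hA hPF (fun a ha D hD => ((hF a ha).2 D hD).2)
    (fun a ha => (hF a ha).1)
  choose g hg C hC h using h1
  have hhl := UN.hh_lt hl hl0 g (fun c _ => hg c)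
  have hc1 := hCD l hl hl0 C (fun b _ => hC b)
  have hc2 := hCG l hl hl0 (UN.hh g) hhl
  refine ⟨_, hCI l hl hl0 (ULift.{u} Bool)
    (fun j => if j.down then {a | a < l.ord ∧ ∀ b < a, a ∈ C b}
      else {a | a < l.ord ∧ a ≠ 0 ∧ ∀ b < a, UN.hh g b < a}) ?_ ?_, ?_⟩
  · refine lt_of_lt_of_le ?_ hl0.le
    exact lt_aleph0_of_finite _
  · rintro ⟨j⟩
    cases j
    · exact hc2
    · exact hc1
  · rintro a haA ⟨haL, hj⟩ D hD v hv
    have ha1 : ∀ b < a, a ∈ C b := (hj ⟨true⟩).2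
    have ha2 : ∀ b < a, UN.hh g b < a := (hj ⟨false⟩).2.2
    obtain ⟨f, hf, hfD⟩ := hv
    have hcf := ((hF a haA).2 D hD).2
    have h2 : ∀ i : Ordinal.{u}, ∃ n, i < a → n < v ∧ f n = UN.mn D (UN.hh g i) := by
      intro i
      by_cases hi : i < a
      · have h3 := (UN.mn_spec hcf (ha2 i hi)).1
        rw [hfD] at h3
        obtain ⟨n, hn, hn'⟩ := h3
        exact ⟨n, fun _ => ⟨hn, hn'⟩⟩
      · exact ⟨0, fun h => absurd h hi⟩
    choose n hn using h2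
    refine le_of_strictMonoOn (n := n) ?_ fun i hi => (hn i hi).1
    intro i hi j hj' hij
    have h3 : UN.mn D (UN.hh g i) < g (UN.hh g i) :=
      h (UN.hh g i) a haA (ha1 _ (ha2 i hi)) (ha2 i hi) D hD
    have h4 : g (UN.hh g i) ≤ UN.hh g j := (le_max_left _ _).trans (UN.hh_ge g hij)
    have h5 : UN.hh g j ≤ UN.mn D (UN.hh g j) := (UN.mn_spec hcf (ha2 j hj')).2.1
    have h6 : f (n i) < f (n j) := by
      rw [(hn i hi).2, (hn j hj').2]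
      exact h3.trans_le (h4.trans h5)
    by_contra hc
    rw [not_lt] at hc
    exact absurd h6 (not_lt.2 (hf.monotoneOn (hn j hj').1 (hn i hi).1 hc))

end Pool.Agent.NH86.HD
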